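import Pool.Agent.W2helper30.AN.Fun

/-!
# Examples of functions with an order
-/

set_option autoImplicit false

namespace Pool.Agent.W2helper30.AN

open Finset Real Filter Topology

/-- every non-constant analytic function has an order -/
theorem ord_exists {f : ℝ → ℝ} {x0 : ℝ} (hf : AnalyticAt ℝ f x0)
    (hne : ¬ ∀ᶠ x in 𝓝 x0, f x = f x0) : ∃ K : ℕ, Ord f x0 K := by
  have h1 : analyticOrderAt (deriv f) x0 + 1 = analyticOrderAt (fun x => f x - f x0) x0 :=
    hf.analyticOrderAt_deriv_add_one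
  have h2 : analyticOrderAt (fun x => f x - f x0) x0 ≠ ⊤ := by
    intro h
    rw [analyticOrderAt_eq_top] at h
    apply hne
    filter_upwards [h] with x hx
    linarith
  have h3 : analyticOrderAt (deriv f) x0 ≠ ⊤ := by
    intro h
    rw [h] at h1
    exact h2 (by rw [← h1]; rfl)
  obtain ⟨n, hn⟩ := ENat.ne_top_iff_exists.1 h3
  have h4 := (analyticOrderAt_eq_nat_iff_iteratedDeriv_eq_zero hf.deriv (n := n)).1 hn.symm
  refine ⟨n + 1, hf, by omega, fun k hk1 hk2 => ?_, ?_⟩
  · obtain ⟨j, rfl⟩ : ∃ j, k = j + 1 := ⟨k - 1, by omega⟩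
    rw [iteratedDeriv_succ']
    exact h4.1 j (by omega)
  · rw [iteratedDeriv_succ']
    exact h4.2

/-- the order is one if the derivative does not vanish -/
theorem ord_one {f : ℝ → ℝ} {x0 : ℝ} (hf : AnalyticAt ℝ f x0) (hne : deriv f x0 ≠ 0) : Ord f x0 1 := by
  refine ⟨hf, le_rfl, fun k hk1 hk2 => by omega, ?_⟩
  rw [iteratedDeriv_one]
  exact hne

end Pool.Agent.W2helper30.AN
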