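import Pool.Agent.W2helper30.AN.Val

/-!
# Almost all the values are exactly divisible by a large prime
-/

set_option autoImplicit false

namespace Pool.Agent.W2helper30.AN

open Finset Real Filter Topology
open Pool.Agent.Y933.KD (e norm_e e_add)
open Pool.Agent.W2helper30.PN

lemma e_one_iff (x : ℝ) : e x = 1 ↔ ∃ z : ℤ, x = z := by
  unfold Pool.Agent.Y933.KD.e
  rw [Complex.exp_eq_one_iff]
  constructor
  · rintro ⟨z, hz⟩
    refine ⟨z, ?_⟩
    have h1 : ((2 * π * x : ℝ) : ℂ) = ((2 * π * z : ℝ) : ℂ) := by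
      have h2 : ((2 * π * x : ℝ) : ℂ) * Complex.I = ((2 * π * z : ℝ) : ℂ) * Complex.I := by
        rw [hz]
        push_cast
        ring
      exact mul_right_cancel₀ Complex.I_ne_zero h2
    have h2 : 2 * π * x = 2 * π * z := by exact_mod_cast h1
    have h3 := Real.pi_pos
    exact mul_left_cancel₀ (by positivity : 2 * π ≠ 0) h2
  · rintro ⟨z, rfl⟩
    exact ⟨z, by push_cast; ring⟩

lemma e_nat_mul (a : ℕ) (x : ℝ) : e (a * x) = e x ^ a := by
  unfold Pool.Agent.Y933.KD.e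
  rw [← Complex.exp_nat_mul]
  congr 1
  push_cast
  ring

/-- orthogonality -/
lemma geom_e (q : ℕ) (hq : 1 ≤ q) (n : ℤ) :
    ∑ a ∈ range q, e ((a : ℝ) * (n / q)) = if (q : ℤ) ∣ n then (q : ℂ) else 0 := by
  have hqR : (q : ℝ) ≠ 0 := by positivity
  simp only [e_nat_mul]
  split_ifs with h
  · obtain ⟨z, hz⟩ := h
    have h1 : e ((n : ℝ) / q) = 1 := by
      rw [e_one_iff]
      refine ⟨z, ?_⟩
      rw [hz]
      push_cast
      field_simp
    simp [h1]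
  · have h1 : e ((n : ℝ) / q) ≠ 1 := by
      rw [Ne, e_one_iff]
      rintro ⟨z, hz⟩
      apply h
      refine ⟨z, ?_⟩
      rw [div_eq_iff hqR] at hz
      have : (n : ℝ) = ((q * z : ℤ) : ℝ) := by
        rw [hz]
        push_cast
        ring
      exact_mod_cast this
    rw [geom_sum_eq h1]
    have h2 : e ((n : ℝ) / q) ^ q = 1 := by
      rw [← e_nat_mul, e_one_iff]
      exact ⟨n, by field_simp⟩
    rw [h2, sub_self, zero_div]

/-- the indicator of the multiples of `q` -/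
noncomputable def ind (q : ℕ) (n : ℤ) : ℝ := if (q : ℤ) ∣ n then 1 else 0

lemma ind_mul {q r : ℕ} (h : Nat.Coprime q r) (n : ℤ) : ind q n * ind r n = ind (q * r) n := by
  unfold ind
  have h1 : ((q * r : ℕ) : ℤ) ∣ n ↔ (q : ℤ) ∣ n ∧ (r : ℤ) ∣ n := by
    push_cast
    exact ⟨fun h2 => ⟨(dvd_mul_right _ _).trans h2, (dvd_mul_left _ _).trans h2⟩,
      fun h2 => IsCoprime.mul_dvd (by exact_mod_cast Nat.isCoprime_iff_coprime.2 h) h2.1 h2.2⟩
  simp only [h1]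
  by_cases h2 : (q : ℤ) ∣ n <;> by_cases h3 : (r : ℤ) ∣ n <;> simp [h2, h3]

/-- the number of the multiples of `q` -/
theorem count_mod {f : ℝ → ℝ} {x0 : ℝ} {k0 : ℕ} (hf : Ord f x0 k0) (δ0 ε : ℝ) (hδ0 : 0 < δ0)
    (hε : 0 < ε) (hε2 : ε < 1 / 2) (κ : ℤ) (q : ℕ) (hq : 1 ≤ q) (hκ : IsCoprime κ (q : ℤ)) (η : ℝ)
    (hη : 0 < η) :
    ∃ N0 : ℕ, ∀ M : ℕ, N0 ≤ M → ∀ U : ℝ, Rg k0 δ0 ε M U → ∀ c₀ : ℤ,
    |∑ m ∈ Finset.Ioc M (2 * M), ind q (c₀ + κ * vl f x0 U m) - M / q| ≤ η * M := by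
  obtain ⟨c, hc, N1, hN1⟩ := floor_f hf δ0 ε hδ0 hε hε2
  have hk0 := hf.2.1
  have hqR : (1 : ℝ) ≤ q := by exact_mod_cast hq
  obtain ⟨N2, hN2⟩ := eventually_atTop.1 ((lpow (by linarith : (0 : ℝ) < 2 * ε)
    (1 / c * max (log q) (log (1042 / η)))))
  refine ⟨max (max N1 N2) 2, fun M hM U hU c₀ => ?_⟩
  have hNN1 : N1 ≤ M := le_of_max_le_left (le_of_max_le_left hM)
  have ha := hN2 M (le_of_max_le_right (le_of_max_le_left hM))
  have hM2 : 2 ≤ M := le_of_max_le_right hM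
  have hMR : (2 : ℝ) ≤ M := by exact_mod_cast hM2
  have hM0 : (0 : ℝ) < M := by linarith
  have hSg := hU.sv_ge hk0 hδ0 hM2
  obtain ⟨S, hS⟩ : ∃ S : ℝ, S = Sv M U := ⟨_, rfl⟩
  rw [← hS] at hSg
  rw [Real.rpow_zero, mul_one] at ha
  have hS1 : max (log q) (log (1042 / η)) ≤ c * S := by
    have h1 : 1 / c * max (log q) (log (1042 / η)) ≤ S := ha.trans hSg
    calc max (log q) (log (1042 / η)) = c * (1 / c * max (log q) (log (1042 / η))) := by field_simp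
      _ ≤ _ := by gcongr
  have hSq : Real.exp (-(c * S)) ≤ 1 / q := by
    rw [Real.exp_neg, one_div]
    refine inv_anti₀ (by positivity) ?_
    rw [← Real.log_le_iff_le_exp (by positivity)]
    exact (le_max_left _ _).trans hS1
  have hSη : 1042 * Real.exp (-(c * S)) ≤ η := by
    have h1 : 1042 / η ≤ Real.exp (c * S) := by
      rw [← Real.log_le_iff_le_exp (by positivity)]
      exact (le_max_right _ _).trans hS1
    rw [div_le_iff₀ hη] at h1
    rw [Real.exp_neg, ← div_eq_mul_inv, div_le_iff₀ (Real.exp_pos _)]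
    linarith
  -- the sum as an exponential sum
  have h1 : ((∑ m ∈ Finset.Ioc M (2 * M), ind q (c₀ + κ * vl f x0 U m) : ℝ) : ℂ) =
      1 / (q : ℂ) * ∑ a ∈ range q, ∑ m ∈ Finset.Ioc M (2 * M),
        e ((a : ℝ) * (((c₀ + κ * vl f x0 U m : ℤ) : ℝ) / q)) := by
    rw [Finset.sum_comm, Finset.mul_sum]
    push_cast
    refine Finset.sum_congr rfl fun m _ => ?_
    have h2 := geom_e q hq (c₀ + κ * vl f x0 U m)
    push_cast at h2 ⊢
    rw [h2]
    unfold ind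
    have hqC : (q : ℂ) ≠ 0 := by
      have : q ≠ 0 := by omega
      exact_mod_cast this
    split_ifs <;> simp [hqC]
  have h2 : ∀ a ∈ (range q).erase 0, ‖∑ m ∈ Finset.Ioc M (2 * M),
      e ((a : ℝ) * (((c₀ + κ * vl f x0 U m : ℤ) : ℝ) / q))‖ ≤ η * M := by
    intro a ha
    rw [mem_erase, mem_range] at ha
    obtain ⟨α, hα⟩ : ∃ α : ℝ, α = a * κ / q := ⟨_, rfl⟩
    have h3 : ∀ m : ℕ, e ((a : ℝ) * (((c₀ + κ * vl f x0 U m : ℤ) : ℝ) / q)) =
        e (a * c₀ / q) * e ((α - round α) * (vl f x0 U m : ℤ)) := by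
      intro m
      have h4 : (a : ℝ) * (((c₀ + κ * vl f x0 U m : ℤ) : ℝ) / q) =
          a * c₀ / q + ((α - round α) * (vl f x0 U m : ℤ) + ((round α * vl f x0 U m : ℤ) : ℝ)) := by
        rw [hα]
        push_cast
        ring
      rw [h4, e_add, e_add]
      have h5 : e ((round α * vl f x0 U m : ℤ) : ℝ) = 1 := (e_one_iff _).2 ⟨_, rfl⟩
      rw [h5, mul_one]
    simp only [h3]
    rw [← Finset.mul_sum, norm_mul, norm_e, one_mul]
    have hge : 1 / (q : ℝ) ≤ |α - round α| := by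
      have h6 : (a * κ - q * round α : ℤ) ≠ 0 := by
        intro h7
        have h8 : (q : ℤ) ∣ a * κ := ⟨round α, by linarith⟩
        have h9 : (q : ℤ) ∣ a := hκ.symm.dvd_of_dvd_mul_right h8
        have h10 : q ∣ a := by exact_mod_cast h9
        exact ha.1 (Nat.eq_zero_of_dvd_of_lt h10 ha.2)
      have h7 := Int.one_le_abs h6
      have h8 : (1 : ℝ) ≤ |(a : ℝ) * κ - q * round α| := by exact_mod_cast h7
      have h9 : α - round α = ((a : ℝ) * κ - q * round α) / q := by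
        rw [hα]
        field_simp
      rw [h9, abs_div, abs_of_pos (by linarith : (0 : ℝ) < q)]
      gcongr
    have h10 := hN1 M hNN1 U hU (α - round α) (abs_sub_round α)
      (by rw [← hS]; exact hSq.trans hge)
    rw [← hS] at h10
    unfold vl
    refine h10.trans ?_
    calc 1042 * (M * Real.exp (-(c * S))) = 1042 * Real.exp (-(c * S)) * M := by ring
      _ ≤ _ := by gcongr
  have h3 : ∑ m ∈ Finset.Ioc M (2 * M), e (((0 : ℕ) : ℝ) * (((c₀ + κ * vl f x0 U m : ℤ) : ℝ) / q)) =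
      (M : ℂ) := by
    have h4 : e 0 = 1 := Pool.Agent.Y933.KD.e_zero
    simp only [Nat.cast_zero, zero_mul, h4, sum_const, Nat.card_Ioc, nsmul_eq_mul, mul_one]
    congr 1
    omega
  have h4 : ((∑ m ∈ Finset.Ioc M (2 * M), ind q (c₀ + κ * vl f x0 U m) - M / q : ℝ) : ℂ) =
      1 / (q : ℂ) * ∑ a ∈ (range q).erase 0, ∑ m ∈ Finset.Ioc M (2 * M),
        e ((a : ℝ) * (((c₀ + κ * vl f x0 U m : ℤ) : ℝ) / q)) := by
    rw [← Finset.add_sum_erase (range q) _ (mem_range.2 (by omega : 0 < q)), h3] at h1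
    rw [Complex.ofReal_sub, h1]
    push_cast
    ring
  have h5 := congrArg norm h4
  rw [Complex.norm_real, Real.norm_eq_abs] at h5
  rw [h5, norm_mul, norm_div, norm_one, Complex.norm_natCast]
  calc 1 / (q : ℝ) * ‖∑ a ∈ (range q).erase 0, ∑ m ∈ Finset.Ioc M (2 * M),
        e ((a : ℝ) * (((c₀ + κ * vl f x0 U m : ℤ) : ℝ) / q))‖ ≤
        1 / q * ∑ a ∈ (range q).erase 0, η * M := by
        gcongr
        exact (norm_sum_le _ _).trans (sum_le_sum h2)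
    _ ≤ 1 / q * (q * (η * M)) := by
        gcongr
        rw [sum_const, nsmul_eq_mul]
        gcongr
        exact (card_erase_le).trans (by rw [card_range])
    _ = _ := by field_simp

/-- exact divisibility by a prime -/
noncomputable def ax (p : ℕ) (n : ℤ) : ℝ := ind p n - ind (p ^ 2) n

lemma ax_cases (p : ℕ) (n : ℤ) :
    (ax p n = 1 ∧ (p : ℤ) ∣ n ∧ ¬ (p : ℤ) ^ 2 ∣ n) ∨ ax p n = 0 := by
  unfold ax ind
  have h0 : ((p ^ 2 : ℕ) : ℤ) ∣ n ↔ (p : ℤ) ^ 2 ∣ n := by push_cast; rfl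
  simp only [h0]
  by_cases h1 : (p : ℤ) ∣ n
  · by_cases h2 : (p : ℤ) ^ 2 ∣ n
    · right
      simp [h1, h2]
    · left
      simp [h1, h2]
  · right
    have h2 : ¬ (p : ℤ) ^ 2 ∣ n := fun h3 => h1 ((dvd_pow_self _ (by norm_num)).trans h3)
    simp [h1, h2]

lemma ax_sq (p : ℕ) (n : ℤ) : ax p n * ax p n = ax p n := by
  rcases ax_cases p n with h | h
  · rw [h.1]; norm_num
  · rw [h]; norm_num

/-- the density -/
noncomputable def bx (p : ℕ) : ℝ := 1 / p - 1 / (p : ℝ) ^ 2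

lemma ax_mul {p r : ℕ} (hp : p.Prime) (hr : r.Prime) (h : p ≠ r) (n : ℤ) :
    ax p n * ax r n = ind (p * r) n - ind (p ^ 2 * r) n - ind (p * r ^ 2) n +
      ind (p ^ 2 * r ^ 2) n := by
  have hc : Nat.Coprime p r := (Nat.coprime_primes hp hr).2 h
  unfold ax
  rw [← ind_mul hc, ← ind_mul (Nat.Coprime.pow_left 2 hc), ← ind_mul (Nat.Coprime.pow_right 2 hc),
    ← ind_mul (Nat.Coprime.pow 2 2 hc)]
  ring

lemma bx_sum (P0 : ℕ) (K : ℝ) : ∃ T : Finset ℕ, (∀ p ∈ T, p.Prime ∧ P0 < p) ∧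
    K ≤ ∑ p ∈ T, bx p := by
  have h1 := Nat.Primes.not_summable_one_div
  have h2 : ¬ Summable (fun p : {p : ℕ // p.Prime ∧ P0 < p} => (1 : ℝ) / p) := by
    intro h3
    apply h1
    have h4 : Summable (Set.indicator {p : ℕ | p.Prime} (fun p : ℕ => (1 : ℝ) / p)) := by
      rw [← summable_nat_add_iff (P0 + 1)]
      have h5 : Summable (Set.indicator {p : ℕ | p.Prime ∧ P0 < p} (fun p : ℕ => (1 : ℝ) / p)) :=
        (summable_subtype_iff_indicator (f := fun p : ℕ => (1 : ℝ) / p)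
          (s := {p : ℕ | p.Prime ∧ P0 < p})).1 h3
      have h6 := (summable_nat_add_iff (P0 + 1)).2 h5
      refine h6.congr fun n => ?_
      unfold Set.indicator
      have h7 : P0 < n + (P0 + 1) := by omega
      simp [h7]
    exact (summable_subtype_iff_indicator (f := fun p : ℕ => (1 : ℝ) / p)
      (s := {p : ℕ | p.Prime})).2 h4
  by_contra hcon
  push Not at hcon
  apply h2
  refine summable_of_sum_le (c := 2 * K) (fun _ => by positivity) fun u => ?_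
  have h3 := hcon (u.map ⟨Subtype.val, Subtype.val_injective⟩) (by
    intro p hp
    rw [Finset.mem_map] at hp
    obtain ⟨z, _, rfl⟩ := hp
    exact z.2)
  rw [Finset.sum_map] at h3
  have h4 : ∑ x ∈ u, (1 : ℝ) / (x : ℕ) ≤ ∑ x ∈ u, 2 * bx x := by
    refine sum_le_sum fun x _ => ?_
    have h5 : (2 : ℝ) ≤ (x : ℕ) := by exact_mod_cast x.2.1.two_le
    unfold bx
    rw [mul_sub, le_sub_iff_add_le]
    have h6 : 2 * (1 / (((x : ℕ) : ℝ)) ^ 2) ≤ 1 / (x : ℕ) := by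
      rw [mul_one_div, div_le_div_iff₀ (by positivity) (by linarith)]
      nlinarith
    linarith
  rw [← Finset.mul_sum] at h4
  simp only [Function.Embedding.coeFn_mk] at h3
  linarith

/-- almost all the values are exactly divisible by a prime larger than `P0` -/
theorem few_nongen {f : ℝ → ℝ} {x0 : ℝ} {k0 : ℕ} (hf : Ord f x0 k0) (δ0 ε : ℝ) (hδ0 : 0 < δ0)
    (hε : 0 < ε) (hε2 : ε < 1 / 2) (κ : ℤ) (hκ : κ ≠ 0) (P0 : ℕ) (η : ℝ) (hη : 0 < η) :
    ∃ N0 : ℕ, ∀ M : ℕ, N0 ≤ M → ∀ U : ℝ, Rg k0 δ0 ε M U → ∀ c₀ : ℤ,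
    AlmostA f x0 U M κ c₀ η (fun n => ∃ p : ℕ, p.Prime ∧ P0 < p ∧ (p : ℤ) ∣ n ∧ ¬ (p : ℤ) ^ 2 ∣ n) := by
  classical
  obtain ⟨K, hK⟩ : ∃ K : ℝ, K = max 1 (2 / η) := ⟨_, rfl⟩
  have hK1 : 1 ≤ K := by rw [hK]; exact le_max_left _ _
  have hKη : 2 ≤ η * K := by
    have : 2 / η ≤ K := by rw [hK]; exact le_max_right _ _
    rw [div_le_iff₀ hη] at this
    linarith
  obtain ⟨T, hT, hTK⟩ := bx_sum (max P0 κ.natAbs) K
  obtain ⟨μ, hμ⟩ : ∃ μ : ℝ, μ = ∑ p ∈ T, bx p := ⟨_, rfl⟩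
  rw [← hμ] at hTK
  have hμ1 : 1 ≤ μ := hK1.trans hTK
  -- the moduli
  have hpos : ∀ p ∈ T, 1 ≤ p := fun p hp => (hT p hp).1.one_lt.le
  have hcop : ∀ p ∈ T, ∀ i : ℕ, IsCoprime κ ((p ^ i : ℕ) : ℤ) := by
    intro p hp i
    obtain ⟨h1, h2⟩ := hT p hp
    have h3 : Nat.Coprime κ.natAbs p := by
      apply Nat.Coprime.symm
      rw [Nat.Prime.coprime_iff_not_dvd h1]
      exact Nat.not_dvd_of_pos_of_lt (Int.natAbs_pos.2 hκ) (lt_of_le_of_lt (le_max_right _ _) h2)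
    push_cast
    exact IsCoprime.pow_right (by
      rw [Int.isCoprime_iff_gcd_eq_one, Int.gcd, Int.natAbs_natCast]
      exact h3)
  obtain ⟨n, hn⟩ : ∃ n : ℝ, n = T.card := ⟨_, rfl⟩
  have hn0 : 0 ≤ n := by rw [hn]; positivity
  obtain ⟨η', hη'⟩ : ∃ η' : ℝ, η' = 1 / (8 * (n ^ 2 + 1)) := ⟨_, rfl⟩
  have hη'0 : 0 < η' := by rw [hη']; positivity
  -- the moduli `p ^ i r ^ j`
  have hmod : ∀ z : (ℕ × ℕ) × (ℕ × ℕ), z ∈ (T ×ˢ T) ×ˢ (range 3 ×ˢ range 3) →
      ∃ N0 : ℕ, ∀ M : ℕ, N0 ≤ M → ∀ U : ℝ, Rg k0 δ0 ε M U → ∀ c₀ : ℤ,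
      |∑ m ∈ Finset.Ioc M (2 * M), ind (z.1.1 ^ z.2.1 * z.1.2 ^ z.2.2) (c₀ + κ * vl f x0 U m) -
        M / ((z.1.1 ^ z.2.1 * z.1.2 ^ z.2.2 : ℕ) : ℝ)| ≤ η' * M := by
    intro z hz
    rw [mem_product, mem_product] at hz
    refine count_mod hf δ0 ε hδ0 hε hε2 κ _ ?_ ?_ η' hη'0
    · exact Nat.one_le_iff_ne_zero.2 (Nat.mul_ne_zero
        (pow_ne_zero _ (by have := hpos _ hz.1.1; omega))
        (pow_ne_zero _ (by have := hpos _ hz.1.2; omega)))
    · push_cast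
      have h1 := hcop _ hz.1.1 z.2.1
      have h2 := hcop _ hz.1.2 z.2.2
      push_cast at h1 h2
      exact h1.mul_right h2
  choose! N1 hN1 using hmod
  refine ⟨(∑ z ∈ (T ×ˢ T) ×ˢ (range 3 ×ˢ range 3), N1 z) + 1, fun M hM U hU c₀ => ?_⟩
  have hM1 : 1 ≤ M := by omega
  have hM0 : (0 : ℝ) < M := by exact_mod_cast hM1
  obtain ⟨s, hs⟩ : ∃ s, s = Finset.Ioc M (2 * M) := ⟨_, rfl⟩
  obtain ⟨v, hv⟩ : ∃ v : ℕ → ℤ, v = fun m => c₀ + κ * vl f x0 U m := ⟨_, rfl⟩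
  have hcnt : ∀ p ∈ T, ∀ r ∈ T, ∀ i < 3, ∀ j < 3,
      |∑ m ∈ s, ind (p ^ i * r ^ j) (v m) - M / ((p : ℝ) ^ i * (r : ℝ) ^ j)| ≤ η' * M := by
    intro p hp r hr i hi j hj
    have hz : ((p, r), (i, j)) ∈ (T ×ˢ T) ×ˢ (range 3 ×ˢ range 3) := by
      simp [hp, hr, hi, hj]
    have h1 := hN1 ((p, r), (i, j)) hz M (by
      have := single_le_sum (f := N1) (fun _ _ => Nat.zero_le _) hz
      omega) U hU c₀
    rw [hs, hv]
    simpa using h1
  have hone : ∀ p ∈ T, |∑ m ∈ s, ax p (v m) - M * bx p| ≤ 2 * (η' * M) := by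
    intro p hp
    have h1 := hcnt p hp p hp 1 (by norm_num) 0 (by norm_num)
    have h2 := hcnt p hp p hp 2 (by norm_num) 0 (by norm_num)
    simp only [pow_one, pow_zero, mul_one] at h1 h2
    have h3 : ∑ m ∈ s, ax p (v m) - M * bx p = (∑ m ∈ s, ind p (v m) - M / p) -
        (∑ m ∈ s, ind (p ^ 2) (v m) - M / (p : ℝ) ^ 2) := by
      unfold ax bx
      rw [sum_sub_distrib]
      ring
    rw [h3]
    exact (abs_sub _ _).trans (by linarith)
  have htwo : ∀ p ∈ T, ∀ r ∈ T, p ≠ r →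
      |∑ m ∈ s, ax p (v m) * ax r (v m) - M * (bx p * bx r)| ≤ 4 * (η' * M) := by
    intro p hp r hr hpr
    have h1 := hcnt p hp r hr 1 (by norm_num) 1 (by norm_num)
    have h2 := hcnt p hp r hr 2 (by norm_num) 1 (by norm_num)
    have h3 := hcnt p hp r hr 1 (by norm_num) 2 (by norm_num)
    have h4 := hcnt p hp r hr 2 (by norm_num) 2 (by norm_num)
    simp only [pow_one] at h1 h2 h3 h4
    have hp0 : (p : ℝ) ≠ 0 := by
      have := hpos p hp
      exact_mod_cast (by omega : p ≠ 0)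
    have hr0 : (r : ℝ) ≠ 0 := by
      have := hpos r hr
      exact_mod_cast (by omega : r ≠ 0)
    have h5 : ∑ m ∈ s, ax p (v m) * ax r (v m) - M * (bx p * bx r) =
        (∑ m ∈ s, ind (p * r) (v m) - M / ((p : ℝ) * r)) -
        (∑ m ∈ s, ind (p ^ 2 * r) (v m) - M / ((p : ℝ) ^ 2 * r)) -
        (∑ m ∈ s, ind (p * r ^ 2) (v m) - M / ((p : ℝ) * (r : ℝ) ^ 2)) +
        (∑ m ∈ s, ind (p ^ 2 * r ^ 2) (v m) - M / ((p : ℝ) ^ 2 * (r : ℝ) ^ 2)) := by
      have h6 : ∀ m ∈ s, ax p (v m) * ax r (v m) = ind (p * r) (v m) - ind (p ^ 2 * r) (v m) -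
          ind (p * r ^ 2) (v m) + ind (p ^ 2 * r ^ 2) (v m) := fun m _ =>
        ax_mul (hT p hp).1 (hT r hr).1 hpr (v m)
      rw [sum_congr rfl h6, sum_add_distrib, sum_sub_distrib, sum_sub_distrib]
      unfold bx
      field_simp
      ring
    rw [h5, abs_le]
    rw [abs_le] at h1 h2 h3 h4
    constructor <;> linarith
  -- the second moment
  have hbx0 : ∀ p ∈ T, 0 ≤ bx p ∧ bx p ≤ 1 := by
    intro p hp
    have h1 : (1 : ℝ) ≤ p := by exact_mod_cast hpos p hp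
    unfold bx
    have h2 : 1 / (p : ℝ) ^ 2 ≤ 1 / p := by
      apply one_div_le_one_div_of_le (by linarith)
      nlinarith
    have h3 : 1 / (p : ℝ) ≤ 1 := by
      rw [div_le_one (by linarith)]
      exact h1
    have h4 : 0 ≤ 1 / (p : ℝ) ^ 2 := by positivity
    constructor <;> linarith
  have hcard : ((s.card : ℕ) : ℝ) = M := by
    rw [hs, Nat.card_Ioc]
    congr 1
    omega
  have hpair : ∀ p ∈ T, ∀ r ∈ T,
      ∑ m ∈ s, (ax p (v m) - bx p) * (ax r (v m) - bx r) ≤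
        8 * (η' * M) + if p = r then M * bx p else 0 := by
    intro p hp r hr
    have e1 : ∑ m ∈ s, (ax p (v m) - bx p) * (ax r (v m) - bx r) =
        ∑ m ∈ s, ax p (v m) * ax r (v m) - bx r * ∑ m ∈ s, ax p (v m) -
        bx p * ∑ m ∈ s, ax r (v m) + M * (bx p * bx r) := by
      rw [← hcard, Finset.mul_sum, Finset.mul_sum, ← nsmul_eq_mul, ← sum_const, ← sum_sub_distrib,
        ← sum_sub_distrib, ← sum_add_distrib]
      refine sum_congr rfl fun m _ => ?_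
      ring
    have h1 := hone p hp
    have h2 := hone r hr
    have h3 := hbx0 p hp
    have h4 := hbx0 r hr
    have hηM : 0 ≤ η' * M := by positivity
    rw [abs_le] at h1 h2
    have h5 : -(bx r * ∑ m ∈ s, ax p (v m)) ≤ -(M * (bx p * bx r)) + 2 * (η' * M) := by
      have : bx r * (M * bx p - 2 * (η' * M)) ≤ bx r * ∑ m ∈ s, ax p (v m) := by
        apply mul_le_mul_of_nonneg_left _ h4.1
        linarith
      have h6 : bx r * (2 * (η' * M)) ≤ 1 * (2 * (η' * M)) := by gcongr; exact h4.2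
      nlinarith
    have h6 : -(bx p * ∑ m ∈ s, ax r (v m)) ≤ -(M * (bx p * bx r)) + 2 * (η' * M) := by
      have : bx p * (M * bx r - 2 * (η' * M)) ≤ bx p * ∑ m ∈ s, ax r (v m) := by
        apply mul_le_mul_of_nonneg_left _ h3.1
        linarith
      have h6 : bx p * (2 * (η' * M)) ≤ 1 * (2 * (η' * M)) := by gcongr; exact h3.2
      nlinarith
    rw [e1]
    split_ifs with hpr
    · subst hpr
      have h7 : ∑ m ∈ s, ax p (v m) * ax p (v m) = ∑ m ∈ s, ax p (v m) :=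
        sum_congr rfl fun m _ => ax_sq p (v m)
      rw [h7]
      have h8 : 0 ≤ M * (bx p * bx p) := by
        have := h3.1
        positivity
      linarith
    · have h7 := htwo p hp r hr hpr
      rw [abs_le] at h7
      linarith
  have hsec : ∑ m ∈ s, (∑ p ∈ T, ax p (v m) - μ) ^ 2 ≤ M * (μ + 1) := by
    have e1 : ∀ m ∈ s, (∑ p ∈ T, ax p (v m) - μ) ^ 2 =
        ∑ p ∈ T, ∑ r ∈ T, (ax p (v m) - bx p) * (ax r (v m) - bx r) := by
      intro m _
      rw [hμ, ← sum_sub_distrib, sq, sum_mul_sum]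
    rw [sum_congr rfl e1, sum_comm]
    have e2 : ∀ p ∈ T, ∑ m ∈ s, ∑ r ∈ T, (ax p (v m) - bx p) * (ax r (v m) - bx r) ≤
        n * (8 * (η' * M)) + M * bx p := by
      intro p hp
      rw [sum_comm]
      refine (sum_le_sum fun r hr => hpair p hp r hr).trans ?_
      rw [sum_add_distrib, sum_const, nsmul_eq_mul, ← hn, sum_ite_eq, if_pos hp]
    refine (sum_le_sum e2).trans ?_
    rw [sum_add_distrib, sum_const, nsmul_eq_mul, ← hn, ← Finset.mul_sum, ← hμ]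
    have e3 : n * (n * (8 * (η' * M))) ≤ M := by
      rw [hη']
      have e4 : n * (n * (8 * (1 / (8 * (n ^ 2 + 1)) * (M : ℝ)))) = n ^ 2 / (n ^ 2 + 1) * (M : ℝ) := by
        have : n ^ 2 + 1 ≠ 0 := by positivity
        field_simp
      have e5 : n ^ 2 / (n ^ 2 + 1) ≤ 1 := by
        rw [div_le_one (by positivity)]
        linarith
      rw [e4]
      exact mul_le_of_le_one_left hM0.le e5
    linarith
  -- the bad values
  unfold AlmostA
  have hfin : ((s.filter (fun m : ℕ => ¬ ∃ p : ℕ, p.Prime ∧ P0 < p ∧ (p : ℤ) ∣ v m ∧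
      ¬ (p : ℤ) ^ 2 ∣ v m)).card : ℝ) * μ ^ 2 ≤ M * (μ + 1) := by
    refine le_trans ?_ hsec
    rw [← nsmul_eq_mul, ← sum_const]
    refine le_trans (sum_le_sum (g := fun m => (∑ p ∈ T, ax p (v m) - μ) ^ 2) fun m hm => ?_)
      (sum_le_sum_of_subset_of_nonneg (filter_subset _ _) fun m _ _ => sq_nonneg _)
    rw [mem_filter] at hm
    have h1 : ∑ p ∈ T, ax p (v m) = 0 := by
      refine sum_eq_zero fun p hp => ?_
      rcases ax_cases p (v m) with h2 | h2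
      · exact absurd ⟨p, (hT p hp).1, lt_of_le_of_lt (le_max_left _ _) (hT p hp).2, h2.2.1, h2.2.2⟩
          hm.2
      · exact h2
    rw [h1, zero_sub, neg_sq]
  rw [hs, hv] at hfin
  have h1 : μ + 1 ≤ η * μ ^ 2 := by
    have h2 : 2 ≤ η * μ := hKη.trans (by gcongr)
    nlinarith
  have h3 : (0 : ℝ) < μ ^ 2 := by positivity
  have h4 : (((Finset.Ioc M (2 * M)).filter (fun m : ℕ => ¬ ∃ p : ℕ, p.Prime ∧ P0 < p ∧
      (p : ℤ) ∣ c₀ + κ * vl f x0 U m ∧ ¬ (p : ℤ) ^ 2 ∣ c₀ + κ * vl f x0 U m)).card : ℝ) * μ ^ 2 ≤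
      (η * M) * μ ^ 2 := by
    refine hfin.trans ?_
    calc (M : ℝ) * (μ + 1) ≤ M * (η * μ ^ 2) := by gcongr
      _ = _ := by ring
  exact le_of_mul_le_mul_right h4 h3

end Pool.Agent.W2helper30.AN
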