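import Pool.Agent.W2helper30.AN.Fl

/-!
# The values `c₀ + κ ⌊U f(x0 + 1 / m)⌋`
-/

set_option autoImplicit false

namespace Pool.Agent.W2helper30.AN

open Finset Real Filter Topology

/-- the values -/
noncomputable def vl (f : ℝ → ℝ) (x0 U : ℝ) (m : ℕ) : ℤ := ⌊U * f (x0 + 1 / m)⌋

open Classical in
/-- the property `P` of `c₀ + κ ⌊U f(x0 + 1 / m)⌋` holds for all `m ∈ (M, 2 M]` up to a proportion of
at most `τ` -/
def AlmostA (f : ℝ → ℝ) (x0 U : ℝ) (M : ℕ) (κ c₀ : ℤ) (τ : ℝ) (P : ℤ → Prop) : Prop :=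
  (((Finset.Ioc M (2 * M)).filter (fun m : ℕ => ¬ P (c₀ + κ * vl f x0 U m))).card : ℝ) ≤ τ * M

lemma AlmostA.mono {f : ℝ → ℝ} {x0 U : ℝ} {M : ℕ} {κ c₀ : ℤ} {τ : ℝ} {P Q : ℤ → Prop}
    (h : AlmostA f x0 U M κ c₀ τ P) (hPQ : ∀ n, P n → Q n) : AlmostA f x0 U M κ c₀ τ Q := by
  classical
  unfold AlmostA at h ⊢
  refine le_trans (Nat.cast_le.2 (card_le_card fun n hn => ?_)) h
  rw [mem_filter] at hn ⊢
  exact ⟨hn.1, fun hcon => hn.2 (hPQ _ hcon)⟩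

lemma AlmostA.le {f : ℝ → ℝ} {x0 U : ℝ} {M : ℕ} {κ c₀ : ℤ} {τ τ' : ℝ} {P : ℤ → Prop}
    (h : AlmostA f x0 U M κ c₀ τ P) (hτ : τ ≤ τ') : AlmostA f x0 U M κ c₀ τ' P := by
  unfold AlmostA at h ⊢
  exact h.trans (mul_le_mul_of_nonneg_right hτ (Nat.cast_nonneg M))

lemma card_or {τ : Type} (A : Finset τ) (E E₁ E₂ : τ → Prop) [DecidablePred E] [DecidablePred E₁]
    [DecidablePred E₂] (h : ∀ x ∈ A, E x → E₁ x ∨ E₂ x) :
    ((A.filter E).card : ℝ) ≤ (A.filter E₁).card + (A.filter E₂).card := by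
  classical
  have h1 : A.filter E ⊆ A.filter E₁ ∪ A.filter E₂ := by
    intro x hx
    rw [mem_filter] at hx
    rw [mem_union, mem_filter, mem_filter]
    rcases h x hx.1 hx.2 with h2 | h2
    · exact Or.inl ⟨hx.1, h2⟩
    · exact Or.inr ⟨hx.1, h2⟩
  exact_mod_cast (card_le_card h1).trans (card_union_le _ _)

lemma AlmostA.and {f : ℝ → ℝ} {x0 U : ℝ} {M : ℕ} {κ c₀ : ℤ} {τ τ' : ℝ} {P Q : ℤ → Prop}
    (h : AlmostA f x0 U M κ c₀ τ P) (h' : AlmostA f x0 U M κ c₀ τ' Q) :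
    AlmostA f x0 U M κ c₀ (τ + τ') (fun n => P n ∧ Q n) := by
  unfold AlmostA at h h' ⊢
  rw [add_mul]
  refine (@card_or _ _ _ _ _ (fun _ => @instDecidableNot _ (Classical.propDecidable _))
    (fun _ => @instDecidableNot _ (Classical.propDecidable _))
    (fun _ => @instDecidableNot _ (Classical.propDecidable _)) fun n _ hn => ?_).trans (add_le_add h h')
  by_cases h1 : P (c₀ + κ * vl f x0 U n)
  · exact Or.inr fun h2 => hn ⟨h1, h2⟩
  · exact Or.inl h1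

/-- the size of `M` -/
lemma Rg.exp_sv_le {k0 : ℕ} {δ0 ε : ℝ} {M : ℕ} {U : ℝ} (h : Rg k0 δ0 ε M U) (hk0 : 1 ≤ k0)
    (hδ0 : 0 < δ0) : Real.exp (Sv M U) ≤ max 1 (M : ℝ) := by
  rcases Nat.eq_zero_or_pos M with h0 | h0
  · have h1 : Sv M U = 0 := by
      unfold Sv
      rw [h0]
      simp
    rw [h1, Real.exp_zero]
    exact le_max_left _ _
  · have hM0 : (0 : ℝ) < M := by exact_mod_cast h0
    calc Real.exp (Sv M U) ≤ Real.exp (log M) := Real.exp_le_exp.2 (h.sv_le hk0 hδ0)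
      _ = M := Real.exp_log hM0
      _ ≤ _ := le_max_right _ _

end Pool.Agent.W2helper30.AN
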