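import Pool.Agent.W2helper30.AN.FlG
import Pool.Agent.W2helper30.AN.Val

/-!
# The class of the distributions of the values `⌊U f(x0 + 1 / m)⌋`: the sizes of the parameters
-/

set_option autoImplicit false

namespace Pool.Agent.W2helper30.AN

open Finset Real Filter Topology
open Pool.Agent.W2helper30.PN (ev_loge ev_logpow lpow)

/-- the shifted values -/
noncomputable def sh (f : ℝ → ℝ) (x0 U : ℝ) (s : ℤ) (m : ℕ) : ℕ := (vl f x0 U m + s).toNat

/-- the conditions on the parameters of the class -/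
structure Par (f : ℝ → ℝ) (x0 : ℝ) (k0 : ℕ) (δ0 ε : ℝ) (a k M : ℕ) (U : ℝ) (s : ℤ) : Prop where
  one : 1 ≤ M
  rg : Rg k0 δ0 ε M U
  val : ∀ i ∈ Finset.Ioc M (2 * M), 0 ≤ vl f x0 U i + s ∧ vl f x0 U i + s < 2 ^ k
  size : (2 : ℝ) ^ k ≤ (k : ℝ) ^ a * (U / (M : ℝ) ^ k0)

/-- the class -/
def AC (f : ℝ → ℝ) (x0 : ℝ) (k0 : ℕ) (δ0 ε : ℝ) (a k : ℕ) (p : ℕ → ℝ) : Prop :=
  ∃ (M : ℕ) (U : ℝ) (s : ℤ), Par f x0 k0 δ0 ε a k M U s ∧
    ∀ v, p v = (((Finset.Ioc M (2 * M)).filter (fun i => sh f x0 U s i = v)).card : ℝ) / M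

lemma ev_mul_log (a : ℕ) (η : ℝ) (hη : 0 < η) : ∀ᶠ m : ℕ in atTop, (a : ℝ) * Real.log m ≤ η * m := by
  have h1 := Real.isLittleO_log_id_atTop.bound (show (0 : ℝ) < η / (a + 1) by positivity)
  have h2 := (tendsto_natCast_atTop_atTop (R := ℝ)).eventually (h1.and (eventually_ge_atTop (1 : ℝ)))
  filter_upwards [h2] with m hm
  obtain ⟨h3, h4⟩ := hm
  rw [Real.norm_of_nonneg (Real.log_nonneg h4), id, Real.norm_of_nonneg (by linarith)] at h3
  calc (a : ℝ) * Real.log m ≤ (a + 1) * (η / (a + 1) * m) := by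
        apply mul_le_mul (by linarith) h3 (Real.log_nonneg h4) (by positivity)
    _ = η * m := by field_simp

lemma exp_dom' (B : ℕ) : ∀ᶠ m : ℕ in atTop, (m : ℝ) ^ B ≤ Real.exp (((m : ℝ) / 4) ^ (2 / 3 : ℝ)) := by
  have h1 := (tendsto_natCast_atTop_atTop (R := ℝ)).eventually
    (exp_dom 1 (B : ℝ) ((1 / 4) ^ (2 / 3 : ℝ)) (by positivity) (2 / 3) (by norm_num))
  filter_upwards [h1] with m hm
  rw [one_mul, Real.rpow_natCast] at hm
  refine hm.trans (le_of_eq ?_)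
  congr 1
  rw [← Real.mul_rpow (by norm_num) (Nat.cast_nonneg m)]
  congr 1
  ring

lemma card_M (M : ℕ) : (Finset.Ioc M (2 * M)).card = M := by
  rw [Nat.card_Ioc]
  omega

/-- the sizes of the parameters -/
lemma par_sizes {f : ℝ → ℝ} {x0 : ℝ} {k0 : ℕ} (hf : Ord f x0 k0) (δ0 ε : ℝ) (hδ0 : 0 < δ0)
    (hε : 0 < ε) (hε2 : ε < 1 / 2) (a : ℕ) :
    ∃ C : ℝ, 1 ≤ C ∧ ∀ N B : ℕ, ∃ m₀ : ℕ, ∀ m : ℕ, m₀ ≤ m → ∀ (M : ℕ) (U : ℝ) (s : ℤ),
      Par f x0 k0 δ0 ε a m M U s → N ≤ M ∧ (m : ℝ) ^ B ≤ M ∧ Real.log U ≤ C * m ∧ (m : ℝ) ≤ C * Real.log U := by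
  have hk0 := hf.2.1
  have hk0R : (1 : ℝ) ≤ k0 := by exact_mod_cast hk0
  obtain ⟨σ, hσ, a', ha', N1, hN1, hgr⟩ := growth_f hf
  obtain ⟨C, hC⟩ : ∃ C : ℝ, C = 4 + 2 * ((k0 + δ0) / δ0) := ⟨_, rfl⟩
  have hr0 : 0 < (k0 + δ0) / δ0 := by positivity
  have hC1 : 1 ≤ C := by rw [hC]; linarith
  refine ⟨C, hC1, fun N B => ?_⟩
  obtain ⟨N2, hN2⟩ : ∃ N2, N2 = N + N1 + 2 := ⟨_, rfl⟩
  obtain ⟨K, hK⟩ := exists_nat_ge (4 * (Real.log N2) ^ (3 / 2 - ε) + 1)
  obtain ⟨m2, hm2⟩ := eventually_atTop.1 (((ev_mul_log a (1 / 4) (by norm_num)).and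
    (exp_dom' B)).and (eventually_ge_atTop (⌈Real.log (4 / a')⌉₊ + 1)))
  refine ⟨K + m2 + 8, fun m hm M U s hp => ?_⟩
  obtain ⟨hM1, hU, hval, hsize⟩ := hp
  obtain ⟨⟨g1, g2⟩, g3⟩ := hm2 m (by omega)
  have hm8 : (8 : ℝ) ≤ m := by exact_mod_cast (by omega : 8 ≤ m)
  have hmK : (K : ℝ) ≤ m := by exact_mod_cast (by omega : K ≤ m)
  have hM1R : (1 : ℝ) ≤ M := by exact_mod_cast hM1
  have hM0 : (0 : ℝ) < M := by linarith
  have hU0 : 0 < U := lt_of_lt_of_le (by positivity) hU.lo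
  have hL0 : 0 ≤ Real.log M := Real.log_nonneg hM1R
  have hlUhi : Real.log U ≤ (Real.log M) ^ (3 / 2 - ε) := by
    rw [Real.log_le_iff_le_exp hU0]
    exact hU.hi
  have hmU : (m : ℝ) ≤ 4 * Real.log U := by
    have h1 : (2 : ℝ) ^ m ≤ (m : ℝ) ^ a * U := by
      refine hsize.trans (mul_le_mul_of_nonneg_left ?_ (by positivity))
      exact div_le_self hU0.le (one_le_pow₀ hM1R)
    have h2 := Real.log_le_log (by positivity) h1
    rw [Real.log_pow, Real.log_mul (by positivity) hU0.ne', Real.log_pow] at h2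
    nlinarith [Real.log_two_gt_d9]
  have hMN : N2 ≤ M := by
    by_contra hcon
    push Not at hcon
    have h1 : (Real.log M) ^ (3 / 2 - ε) ≤ (Real.log N2) ^ (3 / 2 - ε) := by
      apply Real.rpow_le_rpow hL0 _ (by linarith)
      exact Real.log_le_log hM0 (by exact_mod_cast hcon.le)
    linarith
  have hL1 : 0 < Real.log M := Real.log_pos (by exact_mod_cast (by omega : 1 < M))
  have hlU0 : 0 < Real.log U := by linarith
  refine ⟨by omega, ?_, ?_, ?_⟩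
  · -- the size of `M`
    have h1 : (m : ℝ) / 4 ≤ (Real.log M) ^ (3 / 2 : ℝ) ∨ Real.log M < 1 := by
      rcases lt_or_ge (Real.log M) 1 with h | h
      · right; exact h
      · left
        have h2 : (Real.log M) ^ (3 / 2 - ε) ≤ (Real.log M) ^ (3 / 2 : ℝ) :=
          Real.rpow_le_rpow_of_exponent_le h (by linarith)
        linarith
    have h2 : ((m : ℝ) / 4) ^ (2 / 3 : ℝ) ≤ Real.log M := by
      rcases h1 with h | h
      · calc ((m : ℝ) / 4) ^ (2 / 3 : ℝ) ≤ ((Real.log M) ^ (3 / 2 : ℝ)) ^ (2 / 3 : ℝ) :=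
              Real.rpow_le_rpow (by positivity) h (by norm_num)
          _ = Real.log M := by
              rw [← Real.rpow_mul hL1.le]
              norm_num
      · exfalso
        have h3 : (Real.log M) ^ (3 / 2 - ε) ≤ 1 := Real.rpow_le_one hL1.le h.le (by linarith)
        linarith
    calc (m : ℝ) ^ B ≤ Real.exp (((m : ℝ) / 4) ^ (2 / 3 : ℝ)) := g2
      _ ≤ Real.exp (Real.log M) := Real.exp_le_exp.2 h2
      _ = M := Real.exp_log hM0
  · -- the size of `U`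
    have hM2 : 2 ≤ M := by omega
    obtain ⟨h1, -⟩ := hgr M (by omega) (M + 1) (2 * M) (by omega) (by omega) le_rfl
    have h2 := hval (M + 1) (by rw [mem_Ioc]; omega)
    have h3 := hval (2 * M) (by rw [mem_Ioc]; omega)
    have h4 : |σ * (U * f (x0 + 1 / ((M + 1 : ℕ) : ℝ))) - σ * (U * f (x0 + 1 / ((2 * M : ℕ) : ℝ)))| ≤ 2 ^ m + 1 := by
      rw [← mul_sub, abs_mul]
      have hσ1 : |σ| = 1 := by
        have : |σ| * |σ| = 1 := by rw [← abs_mul, hσ, abs_one]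
        nlinarith [abs_nonneg σ]
      rw [hσ1, one_mul, abs_le]
      have e1 := Int.floor_le (U * f (x0 + 1 / ((M + 1 : ℕ) : ℝ)))
      have e2 := Int.lt_floor_add_one (U * f (x0 + 1 / ((M + 1 : ℕ) : ℝ)))
      have e3 := Int.floor_le (U * f (x0 + 1 / ((2 * M : ℕ) : ℝ)))
      have e4 := Int.lt_floor_add_one (U * f (x0 + 1 / ((2 * M : ℕ) : ℝ)))
      have f1 : (0 : ℝ) ≤ vl f x0 U (M + 1) + s := by exact_mod_cast h2.1
      have f2 : (vl f x0 U (M + 1) + s : ℝ) < 2 ^ m := by exact_mod_cast h2.2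
      have f3 : (0 : ℝ) ≤ vl f x0 U (2 * M) + s := by exact_mod_cast h3.1
      have f4 : (vl f x0 U (2 * M) + s : ℝ) < 2 ^ m := by exact_mod_cast h3.2
      unfold vl at f1 f2 f3 f4
      constructor <;> linarith
    have h5 : U * (a' / (M : ℝ) ^ (k0 + 1) * (((2 * M : ℕ) : ℝ) - ((M + 1 : ℕ) : ℝ))) ≤ 2 ^ m + 1 := by
      refine le_trans ?_ ((le_abs_self _).trans h4)
      have := mul_le_mul_of_nonneg_left h1 hU0.le
      linarith
    have h6 : U * a' / (2 * (M : ℝ) ^ k0) ≤ 2 ^ m + 1 := by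
      refine le_trans ?_ h5
      have h7 : (M : ℝ) / 2 ≤ ((2 * M : ℕ) : ℝ) - ((M + 1 : ℕ) : ℝ) := by
        have : (2 : ℝ) ≤ M := by exact_mod_cast hM2
        push_cast
        linarith
      calc U * a' / (2 * (M : ℝ) ^ k0) = U * (a' / (M : ℝ) ^ (k0 + 1) * ((M : ℝ) / 2)) := by
            rw [pow_succ]
            field_simp
        _ ≤ _ := by gcongr
    have h8 : U ≤ 4 / a' * 2 ^ m * (M : ℝ) ^ k0 := by
      rw [div_le_iff₀ (by positivity)] at h6
      have h9 : (1 : ℝ) ≤ 2 ^ m := one_le_pow₀ (by norm_num)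
      have h10 : U * a' ≤ 4 * 2 ^ m * (M : ℝ) ^ k0 := by
        have h11 : (0 : ℝ) < (M : ℝ) ^ k0 := by positivity
        nlinarith
      calc U = (U * a') / a' := by field_simp
        _ ≤ (4 * 2 ^ m * (M : ℝ) ^ k0) / a' := div_le_div_of_nonneg_right h10 ha'.le
        _ = _ := by ring
    have h9 := Real.log_le_log hU0 h8
    rw [Real.log_mul (by positivity) (by positivity), Real.log_mul (by positivity) (by positivity),
      Real.log_pow, Real.log_pow] at h9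
    have h10 : ((k0 : ℝ) + δ0) * Real.log M ≤ Real.log U := by
      rw [← Real.log_rpow hM0]
      exact Real.log_le_log (by positivity) hU.lo
    have h11 : Real.log (4 / a') ≤ m := by
      refine (Nat.le_ceil _).trans ?_
      exact_mod_cast (by omega : ⌈Real.log (4 / a')⌉₊ ≤ m)
    have h12 : Real.log U * δ0 ≤ ((k0 : ℝ) + δ0) * (2 * m) := by
      have h13 : Real.log U ≤ 2 * m + k0 * Real.log M := by
        nlinarith [Real.log_two_lt_d9]
      have h14 : ((k0 : ℝ) + δ0) * Real.log U ≤ ((k0 : ℝ) + δ0) * (2 * m) + k0 * Real.log U := by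
        calc ((k0 : ℝ) + δ0) * Real.log U ≤ ((k0 : ℝ) + δ0) * (2 * m + k0 * Real.log M) := by gcongr
          _ = ((k0 : ℝ) + δ0) * (2 * m) + k0 * (((k0 : ℝ) + δ0) * Real.log M) := by ring
          _ ≤ _ := by gcongr
      linarith
    have h13 : Real.log U ≤ 2 * ((k0 + δ0) / δ0) * m := by
      rw [← le_div_iff₀ hδ0] at h12
      refine h12.trans (le_of_eq ?_)
      field_simp
    rw [hC]
    have : 0 ≤ (m : ℝ) := by linarith
    linarith
  · refine hmU.trans ?_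
    rw [hC]
    have h1 : 0 ≤ 2 * ((k0 + δ0) / δ0) * Real.log U := by positivity
    linarith

end Pool.Agent.W2helper30.AN
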