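import Pool.Agent.W2helper30.AN.Val

/-!
# The scale of the values is large
-/

set_option autoImplicit false

namespace Pool.Agent.W2helper30.AN

open Finset Real Filter Topology

lemma Rg.big (k0 B n₀ : ℕ) (δ0 ε : ℝ) (hδ0 : 0 < δ0) : ∃ M₀ : ℕ, ∀ M : ℕ, M₀ ≤ M → ∀ U : ℝ, Rg k0 δ0 ε M U →
    ∀ N : ℕ, U / (M : ℝ) ^ k0 ≤ B * N → n₀ ≤ N := by
  have h1 := ((tendsto_rpow_atTop hδ0).comp (tendsto_natCast_atTop_atTop (R := ℝ))).eventually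
    (eventually_gt_atTop ((B : ℝ) * n₀))
  obtain ⟨M₀, hM₀⟩ := eventually_atTop.1 h1
  refine ⟨M₀ + 1, fun M hM U hU N hN => ?_⟩
  have h2 : (B : ℝ) * n₀ < (M : ℝ) ^ δ0 := hM₀ M (by omega)
  have hM0 : (0 : ℝ) < M := by exact_mod_cast (by omega : 0 < M)
  have h3 : (M : ℝ) ^ δ0 ≤ U / (M : ℝ) ^ k0 := by
    rw [le_div_iff₀ (by positivity), ← Real.rpow_natCast (M : ℝ) k0, ← Real.rpow_add hM0, add_comm]
    exact hU.lo
  by_contra hcon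
  push Not at hcon
  have h4 : (N : ℝ) ≤ n₀ := by exact_mod_cast hcon.le
  have h5 : (B : ℝ) * N ≤ B * n₀ := mul_le_mul_of_nonneg_left h4 (Nat.cast_nonneg _)
  linarith

end Pool.Agent.W2helper30.AN
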