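import Pool.Agent.W2helper30.AN.Trans
import Pool.Agent.N625.DY.I

/-!
# Goldbach windows near the values `c₀ + κ ⌊U f(x0 + 1 / m)⌋`
-/

set_option autoImplicit false

namespace Pool.Agent.W2helper30.AN

open Finset Real Filter Topology
open Pool.Agent.N625.DY (Cls ClsV)

open Classical in
/-- the windows of Goldbach representations for all the even integers near almost all the values -/
theorem an_gold {f : ℝ → ℝ} {x0 : ℝ} {k0 : ℕ} (hf : Ord f x0 k0) (δ0 ε : ℝ) (hδ0 : 0 < δ0)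
    (hε : 0 < ε) (hε2 : ε < 1 / 2) (κ : ℤ) (hκ : κ ≠ 0) (A W u a m₀ : ℕ) (η : ℝ) (hη : 0 < η) (P : ℕ → Prop)
    (hP : ∀ m : ℕ, m₀ ≤ m → 2 ∣ m → Pool.Agent.W93.PG.WinP η A m → P m) :
    ∃ M₀ : ℕ, ∀ M : ℕ, M₀ ≤ M → ∀ U : ℝ, Rg k0 δ0 ε M U →
      ∀ c₀ : ℤ, |(c₀ : ℝ) + κ * (U * f x0)| ≤ U / (M : ℝ) ^ k0 * Real.log U ^ a →
        AlmostA f x0 U M κ c₀ (1 / Real.log U ^ u) (fun n => ∀ m : ℤ, |(m : ℝ) - n| ≤ Real.log U ^ W →
          0 < m → Even m → P m.toNat) := by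
  obtain ⟨Q, hQ⟩ : ∃ Q : ℤ → Prop, Q = fun m => (0 < m → Even m → P m.toNat) := ⟨_, rfl⟩
  obtain ⟨CC, hCC, H⟩ := an_trans hf δ0 ε hδ0 hε hε2 a κ hκ (u + 1)
    (fun k y => ∀ m : ℤ, |m - y| ≤ (k : ℤ) ^ (W + 1) → Q m) (fun C hC => by
    obtain ⟨k₀, h1⟩ := Pool.Agent.N625.DY.cls_gold hC.toCls 1 A (W + 1) (u + 1) m₀ η hη P hP Q (fun y hy => by
      rw [hQ] at hy
      push Not at hy
      exact ⟨hy.1, hy.2.1, hy.2.2⟩)
    exact ⟨k₀, fun k hk p hp c hc => h1 k hk p hp c (by rw [Nat.cast_one, one_mul]; exact hc)⟩)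
  obtain ⟨k₁, hk₁⟩ := exists_nat_ge (CC ^ W + CC ^ u + 1)
  obtain ⟨M₀, hM₀⟩ := H k₁
  refine ⟨M₀ + 2, fun M hM U hU c₀ hc₀ => ?_⟩
  obtain ⟨k, hk, g1, g2, g3, g4, g5⟩ := hM₀ M (by omega) U hU
  have hlU := hU.log_le hf.2.1 hδ0 (by omega)
  have hL0 : 0 < Real.log U := lt_of_lt_of_le (Real.log_pos (by exact_mod_cast (by omega : 1 < M))) hlU
  have hCC0 : 0 < CC := by linarith
  have hkR : CC ^ W + CC ^ u + 1 ≤ k := hk₁.trans (by exact_mod_cast hk)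
  have hW0 : 0 < CC ^ W := by positivity
  have hu0 : 0 < CC ^ u := by positivity
  have hk0 : (0 : ℝ) < k := by linarith
  refine ((g5 c₀ hc₀).le ?_).mono fun n hn m hm => ?_
  · apply one_div_le_one_div_of_le (by positivity)
    calc Real.log U ^ u ≤ (CC * k) ^ u := pow_le_pow_left₀ hL0.le g1 u
      _ = CC ^ u * (k : ℝ) ^ u := mul_pow _ _ _
      _ ≤ k * (k : ℝ) ^ u := by
          apply mul_le_mul_of_nonneg_right _ (by positivity)
          linarith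
      _ = (k : ℝ) ^ (u + 1) := by ring
  · have h1 : |m - n| ≤ ((k : ℕ) : ℤ) ^ (W + 1) := by
      have h2 : ((|m - n| : ℤ) : ℝ) ≤ ((((k : ℕ) : ℤ) ^ (W + 1) : ℤ) : ℝ) := by
        push_cast
        refine hm.trans ?_
        calc Real.log U ^ W ≤ (CC * k) ^ W := pow_le_pow_left₀ hL0.le g1 W
          _ = CC ^ W * (k : ℝ) ^ W := mul_pow _ _ _
          _ ≤ k * (k : ℝ) ^ W := by
              apply mul_le_mul_of_nonneg_right _ (by positivity)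
              linarith
          _ = (k : ℝ) ^ (W + 1) := by ring
      exact_mod_cast h2
    have h4 := hn m h1
    rw [hQ] at h4
    exact h4

end Pool.Agent.W2helper30.AN
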