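import Pool.Agent.W2helper30.AN.Tup
import Pool.Agent.N469.TL.Pair1

/-!
# Prime pairs whose difference is near a value `c₀ + κ ⌊U f(x0 + 1 / m)⌋`, at the scale of the values
-/

set_option autoImplicit false

namespace Pool.Agent.W2helper30.AN

open Finset Real Filter Topology
open Pool.Agent.W93.TD (HLs)

open Classical in
/-- prime pairs, one shift -/
theorem an_pair1 {f : ℝ → ℝ} {x0 : ℝ} {k0 : ℕ} (hf : Ord f x0 k0) (δ0 ε : ℝ) (hδ0 : 0 < δ0)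
    (hε : 0 < ε) (hε2 : ε < 1 / 2) (κ : ℤ) (hκ : κ ≠ 0) (r B u : ℕ) (η : ℝ) (hη : 0 < η) :
    ∃ M₀ : ℕ, ∀ M : ℕ, M₀ ≤ M → ∀ U : ℝ, Rg k0 δ0 ε M U → ∀ N : ℕ, U / (M : ℝ) ^ k0 ≤ B * N →
      (N : ℝ) ≤ U / (M : ℝ) ^ k0 * Real.log U ^ r → ∀ X : ℕ, X ≤ N → N ≤ B * X →
      ∀ c₀ : ℤ, |(c₀ : ℝ) + κ * (U * f x0)| ≤ B * N →
      AlmostA f x0 U M κ c₀ (1 / Real.log U ^ u) (fun n => 0 < n → HLs η (u + 1) X (fun _ : Fin 1 => n.toNat)) := by
  obtain ⟨CC, D, hCC, hD, hd⟩ := dig_n hf δ0 ε hδ0 r B κ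
  obtain ⟨C₀, m₀, htl⟩ := AC_tlaw hf δ0 ε hδ0 hε hε2 (r + 2) κ hκ 1 (2 * (2 * (u + 1) + 5 + 1 + 2) + 6)
  obtain ⟨e, he⟩ : ∃ e, e = κ.natAbs + 3 := ⟨_, rfl⟩
  obtain ⟨K₀, h3⟩ := Pool.Agent.Y885.tl_tuples 1 2 3 C₀ (2 ^ (e + 1) * D * B) (u + 1) le_rfl le_rfl (by norm_num) η hη
  obtain ⟨k₁, hk₁⟩ := exists_nat_ge (CC ^ u + 1)
  obtain ⟨T, hT⟩ : ∃ T : ℕ, T = 2 ^ e := ⟨_, rfl⟩
  obtain ⟨M₀, hM₀⟩ := hd (m₀ + K₀ + T + k₁)
  refine ⟨M₀ + 2, fun M hM U hU N hN1 hN2 X hX1 hX2 c₀ hc₀ => ?_⟩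
  obtain ⟨k, s, hk, g1, g2, g3, g4, hpar, hc⟩ := hM₀ M (by omega) U hU N hN1 hN2
  have hc1 := hc c₀ hc₀
  obtain ⟨c, hcd⟩ : ∃ c : ℤ, c = c₀ - κ * s := ⟨_, rfl⟩
  rw [← hcd] at hc1
  have hme : 2 ^ e ≤ k := by rw [← hT]; omega
  have hm1 : 1 ≤ k := le_trans Nat.one_le_two_pow hme
  have hm0 : (0 : ℝ) < k := by exact_mod_cast hm1
  have hm1r : (1 : ℝ) ≤ k := by exact_mod_cast hm1
  obtain ⟨Q, hQ⟩ : ∃ Q : ℕ → Prop, Q = fun v => (0 < c + κ * (v : ℕ) →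
          HLs η (u + 1) X (fun _ : Fin 1 => (c + κ * (v : ℕ)).toNat)) := ⟨_, rfl⟩
  have h1 := count_ac hpar Q (1 / (k : ℝ) ^ (u + 1)) (fun p hp => by
    have l1 := htl k (by omega) p hp e 1 (by rw [pow_one]; exact hme) le_rfl (by rw [pow_one]; exact hm1) c (k + e) rfl
    have hXk : X < 2 ^ k := lt_of_le_of_lt (hX1.trans (Nat.le_mul_of_pos_left N hD)) g3
    have hXz : (X : ℤ) < (2 : ℤ) ^ k := by exact_mod_cast hXk
    have hpos : (0 : ℤ) < (2 : ℤ) ^ k := by positivity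
    have hsz : ∀ v ∈ range (2 ^ k), |((1 : ℕ) : ℤ) * (c + κ * (v : ℕ))| ≤ (1 + κ.natAbs) * (2 : ℤ) ^ k := by
      intro v hv
      rw [mem_range] at hv
      rw [Nat.cast_one, one_mul]
      calc |c + κ * (v : ℕ)| ≤ |c| + |κ * (v : ℕ)| := abs_add_le _ _
        _ ≤ (2 : ℤ) ^ k + κ.natAbs * (2 : ℤ) ^ k := by
            apply add_le_add hc1
            rw [abs_mul, Int.abs_eq_natAbs κ, Nat.abs_cast]
            apply mul_le_mul_of_nonneg_left _ (Nat.cast_nonneg _)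
            exact_mod_cast hv.le
        _ = _ := by ring
    have hbig : ((1 : ℤ) + κ.natAbs) * (2 : ℤ) ^ k + 2 * (2 : ℤ) ^ k ≤ (2 : ℤ) ^ (k + e) := by
      have h5 : ((e : ℕ) : ℤ) ≤ (2 : ℤ) ^ e := by exact_mod_cast (Nat.lt_two_pow_self).le
      rw [pow_add, mul_comm ((2 : ℤ) ^ k)]
      have h6 : ((e : ℕ) : ℤ) * (2 : ℤ) ^ k ≤ (2 : ℤ) ^ e * (2 : ℤ) ^ k := mul_le_mul_of_nonneg_right h5 hpos.le
      have h7 : ((e : ℕ) : ℤ) = (κ.natAbs : ℤ) + 3 := by rw [he]; push_cast; ring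
      rw [h7] at h6
      linarith
    have key := h3 (k + e) (by omega) ℕ inferInstance (fun _ => range (2 ^ k)) (fun _ => p)
      (fun _ v => ((1 : ℕ) : ℤ) * (c + κ * (v : ℕ))) (fun _ => l1) (fun _ => AC_sum hp) X
      (by
        calc 2 ^ (k + e) = 2 ^ k * 2 ^ e := pow_add _ _ _
          _ ≤ (2 * (D * N)) * 2 ^ e := Nat.mul_le_mul_right _ g4
          _ ≤ (2 * (D * (B * X))) * 2 ^ e := by gcongr
          _ = 2 ^ (e + 1) * D * B * X := by rw [pow_succ]; ring)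
      (by
        have h0 : (X : ℤ) ≤ (2 : ℤ) ^ (k + e) := by
          have h0 : (0 : ℤ) ≤ ((1 : ℤ) + κ.natAbs) * (2 : ℤ) ^ k := by positivity
          linarith
        exact_mod_cast h0)
      (fun _ v hv => by
        have b1 := hsz v hv
        rw [abs_le] at b1
        push_cast at b1 hbig ⊢
        constructor
        · linarith [b1.1]
        · linarith [b1.2])
      (fun ω => ¬ Q (ω 0)) (Classical.decPred _) (fun ω _ hω => by
        rw [hQ] at hω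
        push Not at hω
        refine ⟨fun i => ?_, fun hcon => hω.2 ?_⟩
        · have : i = 0 := Subsingleton.elim _ _
          rw [this, Nat.cast_one, one_mul]
          exact hω.1.le
        · have e0 : (fun i : Fin 1 => (((1 : ℕ) : ℤ) * (c + κ * (ω i : ℕ))).toNat) = (fun _ : Fin 1 => (c + κ * (ω 0 : ℕ)).toNat) := by
            funext i
            have : i = 0 := Subsingleton.elim _ _
            rw [this, Nat.cast_one, one_mul]
          rw [← e0]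
          exact hcon)
    refine le_trans (le_of_eq ?_) (key.trans ?_)
    · rw [← Pool.Agent.N469.TL.pi_one (range (2 ^ k)) (fun v : ℕ => if Q v then 0 else p v)]
      apply sum_congr rfl
      intro ω _
      rw [Fin.prod_univ_one]
      by_cases hq : Q (ω 0)
      · rw [if_pos hq, if_neg (not_not.2 hq)]
      · rw [if_neg hq, if_pos hq]
    · apply one_div_le_one_div_of_le (by positivity)
      apply pow_le_pow_left₀ hm0.le
      push_cast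
      linarith)
  have hlU := hU.log_le hf.2.1 hδ0 (by omega)
  have hL0 : 0 < Real.log U := lt_of_lt_of_le (Real.log_pos (by exact_mod_cast (by omega : 1 < M))) hlU
  have hu0 : 0 < CC ^ u := by positivity
  have hkR : CC ^ u + 1 ≤ k := hk₁.trans (by exact_mod_cast (by omega : k₁ ≤ k))
  have h2 : AlmostA f x0 U M κ c₀ (1 / (k : ℝ) ^ (u + 1)) (fun n => 0 < n → HLs η (u + 1) X (fun _ : Fin 1 => n.toNat)) := by
    unfold AlmostA
    refine le_trans (Nat.cast_le.2 (card_le_card fun i hi => ?_)) h1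
    simp only [mem_filter] at hi ⊢
    refine ⟨hi.1, ?_⟩
    have e1 : c₀ + κ * vl f x0 U i = c + κ * ((sh f x0 U s i : ℕ) : ℤ) := by
      rw [hpar.sh_eq i hi.1, hcd]
      ring
    rw [hQ]
    rw [e1] at hi
    exact hi.2
  apply h2.le
  apply one_div_le_one_div_of_le (by positivity)
  calc Real.log U ^ u ≤ (CC * k) ^ u := pow_le_pow_left₀ hL0.le g1 u
    _ = CC ^ u * (k : ℝ) ^ u := mul_pow _ _ _
    _ ≤ k * (k : ℝ) ^ u := by
        apply mul_le_mul_of_nonneg_right _ (by positivity)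
        linarith
    _ = (k : ℝ) ^ (u + 1) := by ring

open Classical in
/-- prime pairs, all the integers near almost all the values -/
theorem an_pair {f : ℝ → ℝ} {x0 : ℝ} {k0 : ℕ} (hf : Ord f x0 k0) (δ0 ε : ℝ) (hδ0 : 0 < δ0)
    (hε : 0 < ε) (hε2 : ε < 1 / 2) (κ : ℤ) (hκ : κ ≠ 0) (r B u W : ℕ) (η : ℝ) (hη : 0 < η) :
    ∃ M₀ : ℕ, ∀ M : ℕ, M₀ ≤ M → ∀ U : ℝ, Rg k0 δ0 ε M U → ∀ N : ℕ, U / (M : ℝ) ^ k0 ≤ B * N →
      (N : ℝ) ≤ U / (M : ℝ) ^ k0 * Real.log U ^ r → ∀ X : ℕ, X ≤ N → N ≤ B * X →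
      ∀ c₀ : ℤ, |(c₀ : ℝ) + κ * (U * f x0)| ≤ B * N →
      AlmostA f x0 U M κ c₀ (1 / Real.log U ^ u) (fun n => ∀ y : ℤ, |(y : ℝ) - n| ≤ Real.log U ^ W →
        0 < y → HLs η (u + W + 2) X (fun _ : Fin 1 => y.toNat)) := by
  obtain ⟨M₁, h1⟩ := an_pair1 hf δ0 ε hδ0 hε hε2 κ hκ r (B + 1) (u + W + 1) η hη
  obtain ⟨CC, D, hCC, hD, hd⟩ := dig_n hf δ0 ε hδ0 r B κ
  have hlim := (Pool.Agent.W2helper30.AN.exp_dom (2 * D * CC ^ W + 1) (W : ℝ) (Real.log 2) (by positivity) 1 one_pos)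
  obtain ⟨k₁, hk₁⟩ := eventually_atTop.1 ((tendsto_natCast_atTop_atTop (R := ℝ)).eventually hlim)
  obtain ⟨M₂, hM₂⟩ := hd (k₁ + 1)
  obtain ⟨M₃, hM₃⟩ := eventually_atTop.1 (Pool.Agent.W2helper30.PN.ev_loge 3)
  refine ⟨M₁ + M₂ + M₃ + 2, fun M hM U hU N hN1 hN2 X hX1 hX2 c₀ hc₀ => ?_⟩
  obtain ⟨k, s, hk, g1, g2, g3, g4, hpar, hc⟩ := hM₂ M (by omega) U hU N hN1 hN2
  have hlU := hU.log_le hf.2.1 hδ0 (by omega)
  have hL3 : 3 ≤ Real.log U := (hM₃ M (by omega)).trans hlU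
  have hN0 : (0 : ℝ) ≤ N := Nat.cast_nonneg _
  have hWN : Real.log U ^ W ≤ N := by
    have e1 := hk₁ k (by omega)
    rw [Real.rpow_natCast, Real.rpow_one] at e1
    have e2 : Real.exp (Real.log 2 * (k : ℝ)) = 2 ^ k := by
      rw [mul_comm, Real.exp_nat_mul, Real.exp_log (by norm_num)]
    rw [e2] at e1
    have e3 : (2 : ℝ) ^ k ≤ 2 * (D * N) := by exact_mod_cast g4
    have hD0 : (0 : ℝ) < D := by exact_mod_cast hD
    have e4 : Real.log U ^ W ≤ (CC * k) ^ W := pow_le_pow_left₀ (by linarith) g1 W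
    have hkW : (0 : ℝ) ≤ (k : ℝ) ^ W := by positivity
    have e5 : 2 * D * Real.log U ^ W ≤ 2 * (D * N) := by
      calc 2 * D * Real.log U ^ W ≤ 2 * D * (CC * k) ^ W := by gcongr
        _ = (2 * D * CC ^ W) * (k : ℝ) ^ W := by rw [mul_pow]; ring
        _ ≤ (2 * D * CC ^ W + 1) * (k : ℝ) ^ W := mul_le_mul_of_nonneg_right (by linarith) hkW
        _ ≤ _ := e1.trans e3
    have e6 : (2 * D) * Real.log U ^ W ≤ (2 * D) * N := by linarith
    exact le_of_mul_le_mul_left e6 (by positivity)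
  refine near_an N W u (Real.log U) hL3 hWN (fun y => 0 < y → HLs η (u + W + 2) X (fun _ : Fin 1 => y.toNat)) (fun t ht => ?_)
  have h2 := h1 M (by omega) U hU N (hN1.trans (by push_cast; linarith)) hN2 X hX1
    (hX2.trans (Nat.mul_le_mul_right _ (by omega))) (c₀ + t) (by
      have ht' : |(t : ℝ)| ≤ N := by exact_mod_cast ht
      push_cast
      calc |(c₀ : ℝ) + t + κ * (U * f x0)| = |((c₀ : ℝ) + κ * (U * f x0)) + t| := by congr 1; ring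
        _ ≤ |(c₀ : ℝ) + κ * (U * f x0)| + |(t : ℝ)| := abs_add_le _ _
        _ ≤ B * N + N := add_le_add hc₀ ht'
        _ = (B + 1) * N := by ring)
  exact h2

end Pool.Agent.W2helper30.AN
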