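import Pool.Agent.W2helper30.AN.Pass
import Pool.Agent.R459.Eq7

/-!
# The data of Artin type for almost all the values `c₀ + κ ⌊U f(x0 + 1 / m)⌋`
-/

set_option autoImplicit false

namespace Pool.Agent.W2helper30.AN

open Finset Real Filter Topology
open Pool.Agent.R459.Eq (Decays)
open Pool.Agent.R459.EqD (cntZ dat_all)
open Pool.Agent.H771R4.SE (Dat)

/-- data of Artin type -/
theorem an_dat {f : ℝ → ℝ} {x0 : ℝ} {k0 : ℕ} (hf : Ord f x0 k0) (δ0 ε0 : ℝ) (hδ0 : 0 < δ0)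
    (hε0 : 0 < ε0) (hε2 : ε0 < 1 / 2) : ∃ W : ℕ, 1 ≤ W ∧
    ∀ κ : ℤ, κ ≠ 0 → ∀ (d : Dat) (ε : ℝ), 0 < ε → ∃ (C : ℝ) (X₀ : ℕ), 0 < C ∧ 1 ≤ X₀ ∧ ∀ X : ℕ, X₀ ≤ X →
      ∀ (M : ℕ) (U : ℝ), Rg k0 δ0 ε0 M U → ∀ (c₀ : ℤ),
      AlmostA f x0 U M κ c₀ (C * (Real.log X / X)) (fun n => ∀ x : ℕ, X ≤ x → (x : ℝ) ^ W ≤ Real.exp (Sv M U) →
        |(cntZ d n x : ℝ) - d.A * (Nat.primeCounting x : ℝ)| ≤ ε * (Nat.primeCounting x : ℝ)) := by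
  classical
  obtain ⟨W, hW, HK⟩ := dat_all 2 le_rfl 5 (1 / 2) (by norm_num) (by norm_num)
  obtain ⟨W₁, X₁, hW₁, hX₁, HP⟩ := an_pass hf δ0 ε0 hδ0 hε0 hε2
  refine ⟨W₁ * (W + 1), Nat.mul_pos (by omega) (by omega), fun κ hκ d ε hε => ?_⟩
  obtain ⟨C, X₀, hC, hX₀, J⟩ := HK 1 κ le_rfl hκ d ε hε
  refine ⟨C, X₁ + X₀, hC, by omega, fun X hX M U hU c₀ => ?_⟩
  refine HP W X (by omega) M U hU κ c₀ (fun x n => |(cntZ d n x : ℝ) - d.A * (Nat.primeCounting x : ℝ)| ≤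
    ε * (Nat.primeCounting x : ℝ)) _ ?_ fun k ι Ω w v hdec E hE hbad => ?_
  · apply mul_nonneg hC.le
    apply div_nonneg (Real.log_nonneg _) (Nat.cast_nonneg _)
    exact_mod_cast (by omega : 1 ≤ X)
  refine J k X (by omega) ι Ω w v hdec E hE fun i hi => ?_
  have h1 := hbad i hi
  push Not at h1
  exact h1

end Pool.Agent.W2helper30.AN
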