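import Pool.Agent.W2helper30.AN.Cls

/-!
# Anti-concentration of the values `⌊U f(x0 + 1 / m)⌋`, and the class
-/

set_option autoImplicit false

namespace Pool.Agent.W2helper30.AN

open Finset Real Filter Topology
open Pool.Agent.H807R2.Dav (ee norm_ee ee_add)
open Pool.Agent.W93.AU (Law)
open Pool.Agent.N625.DY (Cls ClsV)
open Pool.Agent.N193.PS (ne_dist card_of_growth)

lemma pow_dom (W : ℕ) : ∀ᶠ K : ℕ in atTop, (K : ℝ) ^ W ≤ 2 ^ K := by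
  have h1 := (isLittleO_pow_const_const_pow_of_one_lt (R := ℝ) W (by norm_num : (1 : ℝ) < 2)).bound
    (show (0 : ℝ) < 1 by norm_num)
  filter_upwards [h1] with K h2
  rw [Real.norm_of_nonneg (by positivity), Real.norm_of_nonneg (by positivity), one_mul] at h2
  exact h2

/-- the values are not concentrated on short intervals -/
theorem AC_anti {f : ℝ → ℝ} {x0 : ℝ} {k0 : ℕ} (hf : Ord f x0 k0) (δ0 ε : ℝ) (hδ0 : 0 < δ0)
    (hε : 0 < ε) (hε2 : ε < 1 / 2) (a e₀ U' : ℕ) (κ : ℤ) (hκ : κ ≠ 0) : ∃ W K₀ : ℕ, ∀ K : ℕ, K₀ ≤ K →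
    ∀ m, K = m + e₀ → ∀ (M : ℕ) (U : ℝ) (s : ℤ), Par f x0 k0 δ0 ε a m M U s → ∀ cc : ℤ,
    (((Finset.Ioc M (2 * M)).filter (fun i => 1 ≤ cc + κ * (sh f x0 U s i : ℕ) ∧
      ((cc + κ * (sh f x0 U s i : ℕ) : ℤ) : ℝ) < ((2 ^ K : ℕ) : ℝ) / Real.log ((2 ^ K : ℕ) : ℝ) ^ (W + 1))).card : ℝ) ≤
      M * (1 / (K : ℝ) ^ (U' + 1)) := by
  obtain ⟨σ, hσ, a', ha', N1, hN1, hgr⟩ := growth_f hf
  obtain ⟨C, hC, hsz⟩ := par_sizes hf δ0 ε hδ0 hε hε2 a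
  obtain ⟨m₀, hm₀⟩ := hsz (N1 + 2) (U' + 3)
  obtain ⟨W, hW⟩ : ∃ W, W = a + U' + 2 := ⟨_, rfl⟩
  obtain ⟨K₁, hK₁⟩ := exists_nat_ge ((2 : ℝ) ^ (W + 3 + e₀) / a')
  obtain ⟨K₂, hK₂⟩ := eventually_atTop.1 (pow_dom (W + 1))
  refine ⟨W, m₀ + K₁ + K₂ + 2 * e₀ + 2 ^ (U' + 2) + 8, fun K hK m hKm M U s hpar cc => ?_⟩
  have hpow2 : 1 ≤ 2 ^ (U' + 2) := Nat.one_le_two_pow
  obtain ⟨hMN, hMB, hs1, hs2⟩ := hm₀ m (by omega) M U s hpar
  have hKK₂ := hK₂ K (by omega)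
  have hK1 : (1 : ℝ) ≤ K := by exact_mod_cast (by omega : 1 ≤ K)
  have hK0 : (0 : ℝ) < K := by linarith
  have hm1 : (1 : ℝ) ≤ m := by exact_mod_cast (by omega : 1 ≤ m)
  have hmK : (m : ℝ) ≤ K := by exact_mod_cast (by omega : m ≤ K)
  have hM0 : (0 : ℝ) < M := by exact_mod_cast hpar.one
  have hU0 : 0 < U := lt_of_lt_of_le (by positivity) hpar.rg.lo
  have hMk : 0 < (M : ℝ) ^ k0 := by positivity
  obtain ⟨ℓ, hℓ⟩ : ∃ ℓ : ℝ, ℓ = ((2 ^ K : ℕ) : ℝ) / Real.log ((2 ^ K : ℕ) : ℝ) ^ (W + 1) := ⟨_, rfl⟩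
  rw [← hℓ]
  have hlogK : (K : ℝ) / 2 ≤ Real.log ((2 ^ K : ℕ) : ℝ) := by
    push_cast
    rw [Real.log_pow]
    nlinarith [Real.log_two_gt_d9]
  have hℓ0 : 0 ≤ ℓ := by
    rw [hℓ]
    have : 0 ≤ Real.log ((2 ^ K : ℕ) : ℝ) := by linarith
    positivity
  obtain ⟨S, hS⟩ : ∃ S : Finset ℕ, S = (Finset.Ioc M (2 * M)).filter (fun i => 1 ≤ cc + κ * (sh f x0 U s i : ℕ) ∧
      ((cc + κ * (sh f x0 U s i : ℕ) : ℤ) : ℝ) < ℓ) := ⟨_, rfl⟩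
  rw [← hS]
  obtain ⟨g, hg⟩ : ∃ g : ℝ, g = U * (a' / (M : ℝ) ^ (k0 + 1)) := ⟨_, rfl⟩
  have hg0 : 0 < g := by rw [hg]; positivity
  obtain ⟨F, hF⟩ : ∃ F : ℕ → ℝ, F = fun n : ℕ => -(σ * (U * f (x0 + 1 / n))) := ⟨_, rfl⟩
  have hmem : ∀ n ∈ S, n ∈ Finset.Ioc M (2 * M) ∧ 1 ≤ cc + κ * (sh f x0 U s n : ℕ) ∧
      ((cc + κ * (sh f x0 U s n : ℕ) : ℤ) : ℝ) < ℓ := by
    intro n hn
    rw [hS, mem_filter] at hn
    exact hn
  have hgrow : ∀ n ∈ S, ∀ n' ∈ S, n ≤ n' → g * ((n' : ℝ) - n) ≤ F n' - F n := by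
    intro n hn n' hn' hnn
    obtain ⟨h1, -, -⟩ := hmem n hn
    obtain ⟨h2, -, -⟩ := hmem n' hn'
    rw [mem_Ioc] at h1 h2
    obtain ⟨h3, -⟩ := hgr M (by omega) n n' h1.1 hnn h2.2
    have h4 := mul_le_mul_of_nonneg_left h3 hU0.le
    rw [hg, hF]
    linarith
  have hscard : (S.card : ℝ) ≤ (ℓ + 1) / g + 1 := by
    rcases S.eq_empty_or_nonempty with h1 | ⟨n₁, hn₁⟩
    · rw [h1, card_empty, Nat.cast_zero]
      positivity
    obtain ⟨n₂, hn₂, hmin⟩ := S.exists_min_image (fun n => F n) ⟨n₁, hn₁⟩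
    apply card_of_growth S F g (F n₂) (ℓ + 1) hg0 (by linarith) hgrow
    intro n hn
    refine ⟨hmin n hn, ?_⟩
    obtain ⟨q0, q1, q2⟩ := hmem n hn
    obtain ⟨r0, r1, r2⟩ := hmem n₂ hn₂
    have q1' : (1 : ℝ) ≤ cc + κ * (sh f x0 U s n : ℕ) := by exact_mod_cast q1
    have r1' : (1 : ℝ) ≤ cc + κ * (sh f x0 U s n₂ : ℕ) := by exact_mod_cast r1
    push_cast at q2 r2
    have hdiff : |(κ : ℝ)| * |((sh f x0 U s n : ℕ) : ℝ) - (sh f x0 U s n₂ : ℕ)| ≤ ℓ := by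
      rw [← abs_mul, abs_le]
      constructor <;> nlinarith
    have hκ1 : (1 : ℝ) ≤ |(κ : ℝ)| := by
      have := Int.one_le_abs hκ
      exact_mod_cast this
    have hdiff2 : |((sh f x0 U s n : ℕ) : ℝ) - (sh f x0 U s n₂ : ℕ)| ≤ ℓ := by
      have h6 := abs_nonneg (((sh f x0 U s n : ℕ) : ℝ) - (sh f x0 U s n₂ : ℕ))
      nlinarith
    have e1 : ((sh f x0 U s n : ℕ) : ℝ) = ((⌊U * f (x0 + 1 / n)⌋ : ℤ) : ℝ) + s := by
      have := hpar.sh_eq n q0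
      unfold vl at this
      exact_mod_cast this
    have e2 : ((sh f x0 U s n₂ : ℕ) : ℝ) = ((⌊U * f (x0 + 1 / n₂)⌋ : ℤ) : ℝ) + s := by
      have := hpar.sh_eq n₂ r0
      unfold vl at this
      exact_mod_cast this
    rw [e1, e2] at hdiff2
    have f1 := Int.floor_le (U * f (x0 + 1 / n))
    have f2 := Int.lt_floor_add_one (U * f (x0 + 1 / n))
    have f3 := Int.floor_le (U * f (x0 + 1 / n₂))
    have f4 := Int.lt_floor_add_one (U * f (x0 + 1 / n₂))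
    have h7 : |U * f (x0 + 1 / n) - U * f (x0 + 1 / n₂)| ≤ ℓ + 1 := by
      rw [abs_le] at hdiff2 ⊢
      constructor <;> linarith [hdiff2.1, hdiff2.2]
    have hσ1 : |σ| = 1 := by
      have : |σ| * |σ| = 1 := by rw [← abs_mul, hσ, abs_one]
      nlinarith [abs_nonneg σ]
    have h8 : |F n - F n₂| ≤ ℓ + 1 := by
      have e3 : F n - F n₂ = -(σ * (U * f (x0 + 1 / n) - U * f (x0 + 1 / n₂))) := by
        rw [hF]
        ring
      rw [e3, abs_neg, abs_mul, hσ1, one_mul]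
      exact h7
    have := (abs_le.1 h8).2
    linarith
  refine hscard.trans ?_
  have hℓK : ℓ + 1 ≤ 2 ^ (W + 2) * 2 ^ K / (K : ℝ) ^ (W + 1) := by
    have h1 : ℓ ≤ 2 ^ (W + 1) * 2 ^ K / (K : ℝ) ^ (W + 1) := by
      rw [hℓ]
      have h2 : ((K : ℝ) / 2) ^ (W + 1) ≤ Real.log ((2 ^ K : ℕ) : ℝ) ^ (W + 1) :=
        pow_le_pow_left₀ (by positivity) hlogK _
      refine (div_le_div_of_nonneg_left (by positivity) (by positivity) h2).trans (le_of_eq ?_)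
      rw [div_pow]
      push_cast
      field_simp
    have h2 : (1 : ℝ) ≤ 2 ^ (W + 1) * 2 ^ K / (K : ℝ) ^ (W + 1) := by
      rw [le_div_iff₀ (by positivity), one_mul]
      have h4 : (1 : ℝ) ≤ 2 ^ (W + 1) := one_le_pow₀ (by norm_num)
      have h5 : (0 : ℝ) < 2 ^ K := by positivity
      nlinarith
    have h3 : (2 : ℝ) ^ (W + 2) * 2 ^ K / (K : ℝ) ^ (W + 1) = 2 * (2 ^ (W + 1) * 2 ^ K / (K : ℝ) ^ (W + 1)) := by
      rw [pow_succ 2 (W + 1)]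
      ring
    rw [h3]
    linarith
  have hgK : a' * (2 ^ m / (m : ℝ) ^ a) / M ≤ g := by
    rw [hg]
    have h1 : (2 : ℝ) ^ m / (m : ℝ) ^ a ≤ U / (M : ℝ) ^ k0 := by
      rw [div_le_iff₀ (by positivity)]
      linarith [hpar.size]
    calc a' * (2 ^ m / (m : ℝ) ^ a) / M ≤ a' * (U / (M : ℝ) ^ k0) / M := by gcongr
      _ = U * (a' / (M : ℝ) ^ (k0 + 1)) := by
          rw [pow_succ]
          field_simp
  have hgK0 : 0 < a' * (2 ^ m / (m : ℝ) ^ a) / M := by positivity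
  have hpart : (ℓ + 1) / g ≤ M * (1 / (K : ℝ) ^ (U' + 1)) / 2 := by
    calc (ℓ + 1) / g ≤ (2 ^ (W + 2) * 2 ^ K / (K : ℝ) ^ (W + 1)) / (a' * (2 ^ m / (m : ℝ) ^ a) / M) :=
          div_le_div₀ (by positivity) hℓK hgK0 hgK
      _ = M * (2 ^ (W + 2) * 2 ^ e₀ * (m : ℝ) ^ a / (a' * (K : ℝ) ^ (W + 1))) := by
          rw [hKm, pow_add (2 : ℝ) m e₀]
          field_simp
      _ ≤ M * (2 ^ (W + 2) * 2 ^ e₀ * (K : ℝ) ^ a / (a' * (K : ℝ) ^ (W + 1))) := by gcongr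
      _ ≤ M * (1 / (K : ℝ) ^ (U' + 1) / 2) := by
          apply mul_le_mul_of_nonneg_left _ hM0.le
          rw [div_div, div_le_div_iff₀ (by positivity) (by positivity), one_mul]
          have h1 : (2 : ℝ) ^ (W + 3 + e₀) ≤ a' * K := by
            have h2 : (2 : ℝ) ^ (W + 3 + e₀) / a' ≤ K := hK₁.trans (by exact_mod_cast (by omega : K₁ ≤ K))
            rw [div_le_iff₀ ha'] at h2
            linarith
          have h3 : (2 : ℝ) ^ (W + 2) * 2 ^ e₀ * (K : ℝ) ^ a * ((K : ℝ) ^ (U' + 1) * 2) =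
              2 ^ (W + 3 + e₀) * (K : ℝ) ^ (a + U' + 1) := by
            rw [show W + 3 + e₀ = (W + 2) + 1 + e₀ by ring, pow_add (2 : ℝ) (W + 2 + 1) e₀,
              pow_add (2 : ℝ) (W + 2) 1, show a + U' + 1 = a + (U' + 1) by ring, pow_add (K : ℝ) a (U' + 1)]
            ring
          rw [h3]
          calc (2 : ℝ) ^ (W + 3 + e₀) * (K : ℝ) ^ (a + U' + 1) ≤ (a' * K) * (K : ℝ) ^ (a + U' + 1) := by gcongr
            _ = a' * (K : ℝ) ^ (a + U' + 2) := by rw [pow_succ _ (a + U' + 1)]; ring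
            _ ≤ a' * (K : ℝ) ^ (W + 1) := by
                apply mul_le_mul_of_nonneg_left _ ha'.le
                exact pow_le_pow_right₀ hK1 (by omega)
      _ = _ := by ring
  have hone : (1 : ℝ) ≤ M * (1 / (K : ℝ) ^ (U' + 1)) / 2 := by
    have h1 : 2 * (K : ℝ) ^ (U' + 1) ≤ M := by
      have h2 : (K : ℝ) ≤ 2 * m := by exact_mod_cast (by omega : K ≤ 2 * m)
      have h3 : (2 : ℝ) ^ (U' + 2) ≤ m := by exact_mod_cast (by omega : 2 ^ (U' + 2) ≤ m)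
      calc 2 * (K : ℝ) ^ (U' + 1) ≤ 2 * (2 * m) ^ (U' + 1) := by gcongr
        _ = 2 ^ (U' + 2) * (m : ℝ) ^ (U' + 1) := by rw [mul_pow, pow_succ 2 (U' + 1)]; ring
        _ ≤ m * (m : ℝ) ^ (U' + 1) := by gcongr
        _ = (m : ℝ) ^ (U' + 2) := by rw [pow_succ _ (U' + 1)]; ring
        _ ≤ (m : ℝ) ^ (U' + 3) := pow_le_pow_right₀ hm1 (by omega)
        _ ≤ M := hMB
    rw [mul_one_div, div_div, le_div_iff₀ (by positivity)]
    linarith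
  linarith

open Classical in
/-- The values form a class. -/
theorem AC_clsV {f : ℝ → ℝ} {x0 : ℝ} {k0 : ℕ} (hf : Ord f x0 k0) (δ0 ε : ℝ) (hδ0 : 0 < δ0)
    (hε : 0 < ε) (hε2 : ε < 1 / 2) (a : ℕ) (κ : ℤ) (hκ : κ ≠ 0) : ClsV 2 κ (AC f x0 k0 δ0 ε a) := by
  have hF : 1 ≤ κ.natAbs := Int.natAbs_pos.2 hκ
  refine ⟨⟨le_rfl, hκ, fun k p hp v => AC_nonneg hp v, fun k p hp => AC_sum hp, ⟨κ.natAbs, hF, ?_⟩, ?_⟩,
    ⟨κ.natAbs, hF, fun τ V => AC_law' hf δ0 ε hδ0 hε hε2 a κ τ V⟩⟩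
  · intro e V
    obtain ⟨D, K₀, hD⟩ := AC_law' hf δ0 ε hδ0 hε hε2 a κ e V
    refine ⟨D, K₀, fun K hK m hm p hp cc => ?_⟩
    refine hD K hK m e hm ?_ p hp cc
    exact Nat.le_mul_of_pos_right e (by omega)
  · intro e U'
    obtain ⟨W, K₀, hW⟩ := AC_anti hf δ0 ε hδ0 hε hε2 a e U' κ hκ
    refine ⟨W, K₀, fun K hK m hm p hp cc Sm _ hSm => ?_⟩
    obtain ⟨M, U, s, hpar, hpv⟩ := hp
    have h1 := hW K hK m hm M U s hpar cc
    have hx0 : (0 : ℝ) < M := by exact_mod_cast hpar.one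
    have h2 : ∑ v ∈ range (2 ^ m), (if Sm v then p v else 0) =
        (∑ n ∈ Finset.Ioc M (2 * M), (if Sm (sh f x0 U s n) then (1 : ℝ) else 0)) / M := by
      rw [← AC_sum' M (2 ^ m) hpar.sh_lt p hpv (fun v => if Sm v then (1 : ℝ) else 0)]
      refine sum_congr rfl fun v _ => ?_
      split_ifs <;> simp
    rw [h2, div_le_iff₀ hx0]
    refine le_trans ?_ (h1.trans_eq (mul_comm _ _))
    rw [← sum_filter, sum_const, nsmul_eq_mul, mul_one]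
    apply Nat.cast_le.2
    apply card_le_card
    intro n hn
    rw [mem_filter] at hn ⊢
    exact ⟨hn.1, hSm (sh f x0 U s n) (hpar.sh_lt n hn.1) hn.2⟩

end Pool.Agent.W2helper30.AN
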