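import Pool.Agent.W2helper30.AN.Siz

/-!
# The number of digits for the values `⌊U f(x0 + 1 / m)⌋`
-/

set_option autoImplicit false

namespace Pool.Agent.W2helper30.AN

open Finset Real Filter Topology
open Pool.Agent.W2helper30.PN (ev_loge ev_logpow lpow)

/-- the size of `f(x0 + 1 / m) - f(x0)` -/
lemma bnd_f {f : ℝ → ℝ} {x0 : ℝ} {k0 : ℕ} (hf : Ord f x0 k0) :
    ∃ B : ℝ, 0 < B ∧ ∃ N0 : ℕ, 1 ≤ N0 ∧ ∀ N : ℕ, N0 ≤ N → ∀ m : ℕ, N < m → m ≤ 2 * N →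
      |f (x0 + 1 / m) - f x0| ≤ B / (N : ℝ) ^ k0 := by
  obtain ⟨hfa, hk0, hz, hne⟩ := hf
  have h1 : analyticOrderAt (deriv f) x0 = ((k0 - 1 : ℕ) : ℕ∞) := by
    rw [analyticOrderAt_eq_nat_iff_iteratedDeriv_eq_zero hfa.deriv]
    refine ⟨fun k hk => ?_, ?_⟩
    · rw [← iteratedDeriv_succ']
      exact hz (k + 1) (by omega) (by omega)
    · rw [← iteratedDeriv_succ', Nat.sub_add_cancel hk0]
      exact hne
  have h2 : analyticOrderAt (deriv f) x0 + 1 = analyticOrderAt (fun x => f x - f x0) x0 :=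
    hfa.analyticOrderAt_deriv_add_one
  have h3 : analyticOrderAt (fun x => f x - f x0) x0 = ((k0 : ℕ) : ℕ∞) := by
    rw [← h2, h1]
    have : k0 = (k0 - 1) + 1 := by omega
    conv_rhs => rw [this]
    push_cast
    rfl
  have hfa' : AnalyticAt ℝ (fun x => f x - f x0) x0 := hfa.fun_sub analyticAt_const
  obtain ⟨g, hg1, _, hg3⟩ := (hfa'.analyticOrderAt_eq_natCast).1 h3
  have h4 : ∀ᶠ z in 𝓝 x0, |g z| < |g x0| + 1 :=
    (hg1.continuousAt.abs).eventually (gt_mem_nhds (by linarith))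
  have hev := (tends_inv x0).eventually (hg3.and h4)
  obtain ⟨Y1, hY1⟩ := eventually_atTop.1 hev
  obtain ⟨Y0, hY0⟩ := exists_nat_ge (max Y1 1)
  have hY01 : (1 : ℝ) ≤ Y0 := (le_max_right _ _).trans hY0
  have hY01' : Y1 ≤ Y0 := (le_max_left _ _).trans hY0
  refine ⟨|g x0| + 1, by positivity, Y0, by exact_mod_cast hY01, fun N hN m hm _ => ?_⟩
  have hNR : (Y0 : ℝ) ≤ N := by exact_mod_cast hN
  have hN1 : (1 : ℝ) ≤ N := hY01.trans hNR
  have hmN : (N : ℝ) ≤ m := by exact_mod_cast hm.le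
  have hm0 : (0 : ℝ) < m := by linarith
  obtain ⟨h5, h6⟩ := hY1 m (by linarith)
  rw [h5, smul_eq_mul]
  have h7 : x0 + 1 / (m : ℝ) - x0 = 1 / m := by ring
  have e1 : (1 / (m : ℝ)) ^ k0 = 1 / (m : ℝ) ^ k0 := by rw [one_div, inv_pow, one_div]
  rw [h7, abs_mul, abs_of_pos (by positivity : (0 : ℝ) < (1 / (m : ℝ)) ^ k0), e1, one_div_mul_eq_div]
  apply div_le_div₀ (by positivity) h6.le (by positivity)
  exact pow_le_pow_left₀ (by linarith) hmN _

/-- the number of digits -/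
lemma dig_f {f : ℝ → ℝ} {x0 : ℝ} {k0 : ℕ} (hf : Ord f x0 k0) (δ0 ε : ℝ) (hδ0 : 0 < δ0) (a : ℕ) (κ : ℤ) :
    ∃ CC : ℝ, 1 ≤ CC ∧ ∀ k₀ : ℕ, ∃ M₀ : ℕ, ∀ M : ℕ, M₀ ≤ M → ∀ U : ℝ, Rg k0 δ0 ε M U →
      ∃ (k : ℕ) (s : ℤ), k₀ ≤ k ∧ Real.log U ≤ CC * k ∧ (k : ℝ) ≤ CC * Real.log U ∧
      U / (M : ℝ) ^ k0 * Real.log U ^ a ≤ 2 ^ k ∧ (2 : ℝ) ^ k ≤ U / (M : ℝ) ^ k0 * Real.log U ^ (a + 2) ∧
      Par f x0 k0 δ0 ε (a + 3) k M U s ∧
      ∀ c₀ : ℤ, |(c₀ : ℝ) + κ * (U * f x0)| ≤ U / (M : ℝ) ^ k0 * Real.log U ^ a → |c₀ - κ * s| ≤ (2 : ℤ) ^ k := by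
  have hk0 := hf.2.1
  obtain ⟨B, hB, N1, hN1, hbd⟩ := bnd_f hf
  obtain ⟨CC, hCC⟩ : ∃ CC : ℝ, CC = ((k0 : ℝ) + δ0) / δ0 + 3 := ⟨_, rfl⟩
  have hq0 : 0 < ((k0 : ℝ) + δ0) / δ0 := by positivity
  have hCC1 : 1 ≤ CC := by rw [hCC]; linarith
  refine ⟨CC, hCC1, fun k₀ => ?_⟩
  obtain ⟨x1, hx1⟩ := eventually_atTop.1 (exp_dom 1 (a + 2 : ℝ) (1 / 10) (by norm_num) 1 one_pos)
  obtain ⟨M1, hM1⟩ := eventually_atTop.1 (ev_loge (max (max x1 (CC * (k₀ + CC ^ (a + 2) + 1)))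
    (max (2 * B + 8) (1 + |(κ : ℝ)| * (B + 3)))))
  refine ⟨M1 + N1 + 1, fun M hM U hU => ?_⟩
  have hev := hM1 M (by omega)
  have hMR : (1 : ℝ) ≤ M := by exact_mod_cast (by omega : 1 ≤ M)
  have hM0 : (0 : ℝ) < M := by linarith
  have hU0 : 0 < U := lt_of_lt_of_le (by positivity) hU.lo
  have hlU := hU.log_le hk0 hδ0 (by omega)
  obtain ⟨L, hL⟩ : ∃ L : ℝ, L = Real.log U := ⟨_, rfl⟩
  rw [← hL] at hlU ⊢
  have g1 : x1 ≤ L := (le_trans (le_max_left _ _) (le_max_left _ _)).trans (hev.trans hlU)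
  have g2 : CC * (k₀ + CC ^ (a + 2) + 1) ≤ L :=
    (le_trans (le_max_right _ _) (le_max_left _ _)).trans (hev.trans hlU)
  have g3 : 2 * B + 8 ≤ L := (le_trans (le_max_left _ _) (le_max_right _ _)).trans (hev.trans hlU)
  have g4 : 1 + |(κ : ℝ)| * (B + 3) ≤ L :=
    (le_trans (le_max_right _ _) (le_max_right _ _)).trans (hev.trans hlU)
  have hL8 : 8 ≤ L := by linarith
  have hL0 : 0 < L := by linarith
  have hMk : 0 < (M : ℝ) ^ k0 := by positivity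
  obtain ⟨R, hR⟩ : ∃ R : ℝ, R = U / (M : ℝ) ^ k0 := ⟨_, rfl⟩
  rw [← hR]
  have hUR : U = R * (M : ℝ) ^ k0 := by rw [hR]; field_simp
  have hR1 : 1 ≤ R := by
    rw [hR, le_div_iff₀ hMk, one_mul]
    refine le_trans ?_ hU.lo
    rw [Real.rpow_add hM0, Real.rpow_natCast]
    apply le_mul_of_one_le_right hMk.le
    exact Real.one_le_rpow hMR hδ0.le
  have hR0 : 0 < R := by linarith
  have hLa : ∀ j : ℕ, 1 ≤ L ^ j := fun j => one_le_pow₀ (by linarith)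
  obtain ⟨N, hN⟩ : ∃ N : ℕ, N = ⌈R * L ^ (a + 1)⌉₊ := ⟨_, rfl⟩
  have hNa : R * L ^ (a + 1) ≤ N := by rw [hN]; exact Nat.le_ceil _
  have hNb : (N : ℝ) < R * L ^ (a + 1) + 1 := by rw [hN]; exact Nat.ceil_lt_add_one (by positivity)
  have hRL : R * L ≤ R * L ^ (a + 1) := by
    apply mul_le_mul_of_nonneg_left _ hR0.le
    rw [pow_succ]
    exact le_mul_of_one_le_left hL0.le (hLa a)
  have hRN : R * 8 ≤ N := by
    have : R * 8 ≤ R * L := mul_le_mul_of_nonneg_left hL8 hR0.le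
    linarith
  have hN0 : N ≠ 0 := by
    rintro h
    rw [h, Nat.cast_zero] at hRN
    linarith
  obtain ⟨k, hk⟩ : ∃ k : ℕ, k = Nat.log 2 N + 1 := ⟨_, rfl⟩
  have hk1 : N < 2 ^ k := by rw [hk]; exact Nat.lt_pow_succ_log_self (by norm_num) N
  have hk2 : 2 ^ k ≤ 2 * N := by
    rw [hk, pow_succ]
    have := Nat.pow_log_le_self 2 hN0
    omega
  have hk1R : (N : ℝ) < 2 ^ k := by exact_mod_cast hk1
  have hk2R : (2 : ℝ) ^ k ≤ 2 * N := by exact_mod_cast hk2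
  have hup : (2 : ℝ) ^ k ≤ R * L ^ (a + 2) := by
    have h1 : 1 ≤ R * L ^ (a + 1) := one_le_mul_of_one_le_of_one_le hR1 (hLa _)
    calc (2 : ℝ) ^ k ≤ 2 * N := hk2R
      _ ≤ 4 * (R * L ^ (a + 1)) := by linarith
      _ ≤ L * (R * L ^ (a + 1)) := by
          apply mul_le_mul_of_nonneg_right _ (by positivity)
          linarith
      _ = R * L ^ (a + 2) := by rw [pow_succ _ (a + 1)]; ring
  have hk0' : (0 : ℝ) ≤ k := Nat.cast_nonneg _
  have hLk : L ≤ CC * k := by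
    have h1 : Real.log R ≤ k := by
      have h2 : Real.log R ≤ Real.log (2 ^ k) := Real.log_le_log hR0 (by linarith)
      rw [Real.log_pow] at h2
      nlinarith [Real.log_two_lt_d9]
    have h2 : L = Real.log R + k0 * Real.log M := by
      rw [hL, hUR, Real.log_mul hR0.ne' hMk.ne', Real.log_pow]
    have h3 : ((k0 : ℝ) + δ0) * Real.log M ≤ L := by
      rw [hL, ← Real.log_rpow hM0]
      exact Real.log_le_log (by positivity) hU.lo
    have h4 : L * δ0 ≤ ((k0 : ℝ) + δ0) * k := by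
      have h5 : ((k0 : ℝ) + δ0) * L = ((k0 : ℝ) + δ0) * Real.log R + k0 * (((k0 : ℝ) + δ0) * Real.log M) := by
        rw [h2]; ring
      have h6 : (k0 : ℝ) * (((k0 : ℝ) + δ0) * Real.log M) ≤ k0 * L := mul_le_mul_of_nonneg_left h3 (Nat.cast_nonneg _)
      have h7 : ((k0 : ℝ) + δ0) * Real.log R ≤ ((k0 : ℝ) + δ0) * k := mul_le_mul_of_nonneg_left h1 (by positivity)
      linarith
    rw [← le_div_iff₀ hδ0] at h4
    rw [hCC]
    calc L ≤ ((k0 : ℝ) + δ0) * k / δ0 := h4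
      _ = ((k0 : ℝ) + δ0) / δ0 * k := by ring
      _ ≤ _ := by nlinarith
  have hkL : (k : ℝ) ≤ CC * L := by
    have h1 : (2 : ℝ) ^ k ≤ U * L ^ (a + 2) := by
      refine hup.trans ?_
      apply mul_le_mul_of_nonneg_right _ (by positivity)
      rw [hUR]
      exact le_mul_of_one_le_right hR0.le (one_le_pow₀ hMR)
    have h2 := hx1 L g1
    rw [one_mul, Real.rpow_one] at h2
    have h3 : L ^ (a + 2 : ℝ) = L ^ (a + 2) := by
      have : (a + 2 : ℝ) = ((a + 2 : ℕ) : ℝ) := by push_cast; ring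
      rw [this, Real.rpow_natCast]
    rw [h3] at h2
    have h4 : (2 : ℝ) ^ k ≤ Real.exp (L + 1 / 10 * L) := by
      rw [Real.exp_add]
      have h5 : U = Real.exp L := by rw [hL, Real.exp_log hU0]
      rw [← h5]
      exact h1.trans (mul_le_mul_of_nonneg_left h2 hU0.le)
    have h5 := Real.log_le_log (by positivity) h4
    rw [Real.log_pow, Real.log_exp] at h5
    have h6 : (k : ℝ) ≤ 3 * L := by nlinarith [Real.log_two_gt_d9]
    rw [hCC]
    nlinarith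
  have hkk : (k₀ : ℝ) + CC ^ (a + 2) + 1 ≤ k := by
    have h1 : CC * (k₀ + CC ^ (a + 2) + 1) ≤ CC * k := g2.trans hLk
    exact le_of_mul_le_mul_left h1 (by linarith)
  have hCCa : 0 < CC ^ (a + 2) := by positivity
  obtain ⟨s, hs⟩ : ∃ s : ℤ, s = -⌊U * f x0⌋ + (⌈B * R⌉ + 1) := ⟨_, rfl⟩
  have hBR0 : 0 ≤ B * R := by positivity
  have c1 := Int.le_ceil (B * R)
  have c2 := Int.ceil_lt_add_one (B * R)
  have c3 := Int.floor_le (U * f x0)
  have c4 := Int.lt_floor_add_one (U * f x0)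
  refine ⟨k, s, ?_, hLk, hkL, ?_, hup, ⟨by omega, hU, ?_, ?_⟩, ?_⟩
  · have : (k₀ : ℝ) ≤ k := by linarith
    exact_mod_cast this
  · refine le_trans ?_ (hNa.trans hk1R.le)
    apply mul_le_mul_of_nonneg_left _ hR0.le
    exact pow_le_pow_right₀ (by linarith) (by omega)
  · intro i hi
    rw [mem_Ioc] at hi
    have h1 := hbd M (by omega) i hi.1 hi.2
    have h2 : |U * f (x0 + 1 / i) - U * f x0| ≤ B * R := by
      rw [← mul_sub, abs_mul, abs_of_pos hU0]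
      calc U * |f (x0 + 1 / i) - f x0| ≤ U * (B / (M : ℝ) ^ k0) := mul_le_mul_of_nonneg_left h1 hU0.le
        _ = B * R := by rw [hR]; ring
    rw [abs_le] at h2
    have e1 := Int.floor_le (U * f (x0 + 1 / i))
    have e2 := Int.lt_floor_add_one (U * f (x0 + 1 / i))
    have e3 : ((vl f x0 U i + s : ℤ) : ℝ) = (⌊U * f (x0 + 1 / i)⌋ : ℤ) - (⌊U * f x0⌋ : ℤ) + ((⌈B * R⌉ : ℤ) + 1) := by
      rw [hs]
      unfold vl
      push_cast
      ring
    constructor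
    · have h3 : (0 : ℝ) ≤ ((vl f x0 U i + s : ℤ) : ℝ) := by
        rw [e3]
        linarith [h2.1]
      exact_mod_cast h3
    · have h3 : ((vl f x0 U i + s : ℤ) : ℝ) < 2 ^ k := by
        rw [e3]
        have h4 : 2 * (B * R) + 3 ≤ R * L := by
          calc 2 * (B * R) + 3 ≤ 2 * (B * R) + 3 * R := by linarith
            _ = R * (2 * B + 3) := by ring
            _ ≤ R * L := mul_le_mul_of_nonneg_left (by linarith) hR0.le
        linarith [h2.2]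
      exact_mod_cast h3
  · rw [← hR]
    have hkpos : (0 : ℝ) < k := by linarith
    calc (2 : ℝ) ^ k ≤ R * L ^ (a + 2) := hup
      _ ≤ R * (CC * k) ^ (a + 2) := by gcongr
      _ = CC ^ (a + 2) * ((k : ℝ) ^ (a + 2) * R) := by rw [mul_pow]; ring
      _ ≤ k * ((k : ℝ) ^ (a + 2) * R) := by
          apply mul_le_mul_of_nonneg_right _ (by positivity)
          linarith
      _ = (k : ℝ) ^ (a + 3) * R := by rw [pow_succ _ (a + 2)]; ring
  · intro c₀ hc₀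
    have h1 : |((c₀ - κ * s : ℤ) : ℝ)| ≤ 2 ^ k := by
      have e1 : ((c₀ - κ * s : ℤ) : ℝ) = (c₀ + κ * (U * f x0)) + κ * (((⌊U * f x0⌋ : ℤ) : ℝ) - U * f x0 -
          ((⌈B * R⌉ : ℤ) + 1)) := by
        rw [hs]
        push_cast
        ring
      have h2 : |((⌊U * f x0⌋ : ℤ) : ℝ) - U * f x0 - ((⌈B * R⌉ : ℤ) + 1)| ≤ B * R + 3 := by
        rw [abs_le]
        constructor <;> linarith
      rw [e1]
      calc |(c₀ + κ * (U * f x0)) + κ * (((⌊U * f x0⌋ : ℤ) : ℝ) - U * f x0 - ((⌈B * R⌉ : ℤ) + 1))| ≤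
            |(c₀ + κ * (U * f x0))| + |κ * (((⌊U * f x0⌋ : ℤ) : ℝ) - U * f x0 - ((⌈B * R⌉ : ℤ) + 1))| :=
            abs_add_le _ _
        _ ≤ R * L ^ a + |(κ : ℝ)| * (B * R + 3) := by
            apply add_le_add hc₀
            rw [abs_mul]
            exact mul_le_mul_of_nonneg_left h2 (abs_nonneg _)
        _ ≤ R * L ^ a + |(κ : ℝ)| * (R * (B + 3)) := by
            apply add_le_add le_rfl
            apply mul_le_mul_of_nonneg_left _ (abs_nonneg _)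
            linarith
        _ ≤ R * L ^ a * (1 + |(κ : ℝ)| * (B + 3)) := by
            have h3 : |(κ : ℝ)| * (R * (B + 3)) ≤ |(κ : ℝ)| * (R * (B + 3)) * L ^ a :=
              le_mul_of_one_le_right (by positivity) (hLa a)
            linarith
        _ ≤ R * L ^ a * L := by gcongr
        _ = R * L ^ (a + 1) := by rw [pow_succ]; ring
        _ ≤ 2 ^ k := hNa.trans hk1R.le
    exact_mod_cast h1

end Pool.Agent.W2helper30.AN
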