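import Pool.Agent.W2helper30.AN.Siz
import Pool.Agent.N193.PS.Anti
import Pool.Agent.N625.DY.L

/-!
# The values `⌊U f(x0 + 1 / m)⌋` form a class of distributions in the sense of `Pool.Agent.N625.DY`
-/

set_option autoImplicit false

namespace Pool.Agent.W2helper30.AN

open Finset Real Filter Topology
open Pool.Agent.H807R2.Dav (ee norm_ee ee_add)
open Pool.Agent.W93.AU (Law)
open Pool.Agent.N625.DY (Cls ClsV)
open Pool.Agent.N193.PS (ne_dist card_of_growth)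

/-- room -/
lemma room' (τ : ℕ) : ∃ K₂ : ℕ, ∀ K : ℕ, K₂ ≤ K → τ * (Nat.log 2 K + 1) * 2 ≤ K := by
  have h1 := (Real.isLittleO_log_id_atTop.bound (show (0 : ℝ) < 1 / (8 * (τ + 1)) by positivity))
  have h2 := (tendsto_natCast_atTop_atTop (R := ℝ)).eventually (h1.and (eventually_ge_atTop (8 * (τ + 1) : ℝ)))
  obtain ⟨K₂, hK₂⟩ := eventually_atTop.mp h2
  refine ⟨K₂ + 1, fun K hK => ?_⟩
  obtain ⟨h3, h4⟩ := hK₂ K (by omega)
  have hK1 : (1 : ℝ) ≤ K := by exact_mod_cast (by omega : 1 ≤ K)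
  rw [Real.norm_of_nonneg (Real.log_nonneg hK1), id, Real.norm_of_nonneg (by linarith)] at h3
  have h5 : (Nat.log 2 K : ℝ) ≤ 2 * Real.log K := by
    have h6 := Real.natLog_le_logb K 2
    rw [Real.logb] at h6
    have h7 : Real.log K / Real.log 2 ≤ 2 * Real.log K := by
      rw [div_le_iff₀ (Real.log_pos (by norm_num))]
      nlinarith [Real.log_two_gt_d9, Real.log_nonneg hK1]
    exact_mod_cast h6.trans h7
  have hτ : (0 : ℝ) ≤ τ := Nat.cast_nonneg _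
  have h8 : (τ : ℝ) * (2 * Real.log K) ≤ K / 4 := by
    calc (τ : ℝ) * (2 * Real.log K) ≤ (τ + 1) * (2 * (1 / (8 * (τ + 1)) * K)) := by
          apply mul_le_mul (by linarith) _ (by have := Real.log_nonneg hK1; positivity) (by positivity)
          linarith
      _ = K / 4 := by field_simp; norm_num
  have h9 : (τ : ℝ) * (Nat.log 2 K + 1) * 2 ≤ K := by
    have h10 : (τ : ℝ) * (Nat.log 2 K) ≤ K / 4 := (mul_le_mul_of_nonneg_left h5 hτ).trans h8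
    nlinarith
  exact_mod_cast h9

lemma AC_nonneg {f : ℝ → ℝ} {x0 : ℝ} {k0 : ℕ} {δ0 ε : ℝ} {a k : ℕ} {p : ℕ → ℝ}
    (hp : AC f x0 k0 δ0 ε a k p) (v : ℕ) : 0 ≤ p v := by
  obtain ⟨M, U, s, _, h⟩ := hp
  rw [h]
  positivity

/-- sums over the values -/
lemma sum_sh {α : Type} [AddCommMonoid α] {f : ℝ → ℝ} {x0 U : ℝ} {s : ℤ} (M K : ℕ)
    (hM : ∀ i ∈ Finset.Ioc M (2 * M), sh f x0 U s i < K) (g : ℕ → α) :
    ∑ v ∈ range K, ((Finset.Ioc M (2 * M)).filter (fun i => sh f x0 U s i = v)).card • g v =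
      ∑ i ∈ Finset.Ioc M (2 * M), g (sh f x0 U s i) := by
  rw [← sum_fiberwise_of_maps_to (s := Finset.Ioc M (2 * M)) (t := range K) (g := sh f x0 U s)
    (fun i hi => mem_range.2 (hM i hi))]
  refine sum_congr rfl fun v _ => ?_
  rw [← sum_const]
  refine sum_congr rfl fun i hi => ?_
  rw [(mem_filter.1 hi).2]

lemma AC_sum' {f : ℝ → ℝ} {x0 U : ℝ} {s : ℤ} (M K : ℕ)
    (hM : ∀ i ∈ Finset.Ioc M (2 * M), sh f x0 U s i < K) (p : ℕ → ℝ)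
    (hp : ∀ v, p v = (((Finset.Ioc M (2 * M)).filter (fun i => sh f x0 U s i = v)).card : ℝ) / M)
    (g : ℕ → ℝ) : ∑ v ∈ range K, p v * g v = (∑ i ∈ Finset.Ioc M (2 * M), g (sh f x0 U s i)) / M := by
  rw [← sum_sh M K hM g, sum_div]
  refine sum_congr rfl fun v _ => ?_
  rw [hp, nsmul_eq_mul]
  ring

lemma Par.sh_lt {f : ℝ → ℝ} {x0 : ℝ} {k0 : ℕ} {δ0 ε : ℝ} {a k M : ℕ} {U : ℝ} {s : ℤ}
    (h : Par f x0 k0 δ0 ε a k M U s) : ∀ i ∈ Finset.Ioc M (2 * M), sh f x0 U s i < 2 ^ k := by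
  intro i hi
  obtain ⟨h1, h2⟩ := h.val i hi
  unfold sh
  have h3 : (((vl f x0 U i + s).toNat : ℕ) : ℤ) < ((2 ^ k : ℕ) : ℤ) := by
    rw [Int.toNat_of_nonneg h1]
    push_cast
    exact h2
  exact_mod_cast h3

lemma Par.sh_eq {f : ℝ → ℝ} {x0 : ℝ} {k0 : ℕ} {δ0 ε : ℝ} {a k M : ℕ} {U : ℝ} {s : ℤ}
    (h : Par f x0 k0 δ0 ε a k M U s) : ∀ i ∈ Finset.Ioc M (2 * M),
    ((sh f x0 U s i : ℕ) : ℤ) = vl f x0 U i + s := by
  intro i hi
  obtain ⟨h1, h2⟩ := h.val i hi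
  unfold sh
  exact Int.toNat_of_nonneg h1

lemma AC_sum {f : ℝ → ℝ} {x0 : ℝ} {k0 : ℕ} {δ0 ε : ℝ} {a k : ℕ} {p : ℕ → ℝ}
    (hp : AC f x0 k0 δ0 ε a k p) : ∑ v ∈ range (2 ^ k), p v = 1 := by
  obtain ⟨M, U, s, hpar, h⟩ := hp
  have h2 := AC_sum' M (2 ^ k) hpar.sh_lt p h (fun _ => 1)
  simp only [mul_one, sum_const, card_M, nsmul_eq_mul] at h2
  rw [h2, div_self]
  have : (0 : ℝ) < M := by exact_mod_cast hpar.one
  exact this.ne'

/-- the law, with room which is logarithmic in the number of digits -/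
theorem AC_law' {f : ℝ → ℝ} {x0 : ℝ} {k0 : ℕ} (hf : Ord f x0 k0) (δ0 ε : ℝ) (hδ0 : 0 < δ0)
    (hε : 0 < ε) (hε2 : ε < 1 / 2) (a : ℕ) (κ : ℤ) (τ V : ℕ) : ∃ D K₀ : ℕ, ∀ K : ℕ, K₀ ≤ K →
    ∀ m e, K = m + e → e ≤ τ * (Nat.log 2 K + 1) → ∀ p, AC f x0 k0 δ0 ε a m p → ∀ cc : ℤ,
    Law 2 κ.natAbs D V K (range (2 ^ m)) p (fun v => cc + κ * (v : ℕ)) := by
  obtain ⟨A, X₀, hX₀⟩ := floor_g hf δ0 ε hδ0 hε hε2 (V + 1)
  obtain ⟨C, hC, hsz⟩ := par_sizes hf δ0 ε hδ0 hε hε2 a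
  obtain ⟨m₀, hm₀⟩ := hsz (X₀ + 1) 0
  obtain ⟨K₁, hK₁⟩ := exists_nat_ge (4 * C ^ A + (2 * C) ^ (V + 1) + 1)
  obtain ⟨K₂, hK₂⟩ := room' τ
  refine ⟨τ + a + A + 2, 2 * m₀ + K₁ + K₂ + 2, fun K hK m e hKm he p hp cc => ?_⟩
  refine ⟨fun v _ => AC_nonneg hp v, (AC_sum hp).le, fun t ht => ?_⟩
  obtain ⟨M, U, s, hpar, hpv⟩ := hp
  have h2 := hK₂ K (by omega)
  have hm2 : K ≤ 2 * m := by omega
  obtain ⟨hxX, -, hs1, hs2⟩ := hm₀ m (by omega) M U s hpar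
  have hK1 : (1 : ℝ) ≤ K := by exact_mod_cast (by omega : 1 ≤ K)
  have hm1 : (1 : ℝ) ≤ m := by exact_mod_cast (by omega : 1 ≤ m)
  have hmK : (m : ℝ) ≤ K := by exact_mod_cast (by omega : m ≤ K)
  have hm2r : (K : ℝ) ≤ 2 * m := by exact_mod_cast hm2
  have hM0 : (0 : ℝ) < M := by exact_mod_cast hpar.one
  have hU0 : 0 < U := lt_of_lt_of_le (by positivity) hpar.rg.lo
  have hC0 : 0 < C := by linarith
  have hlU0 : 0 < log U := by
    by_contra hcon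
    push Not at hcon
    have : C * log U ≤ 0 := mul_nonpos_of_nonneg_of_nonpos hC0.le hcon
    linarith
  obtain ⟨l, hl⟩ : ∃ l, l = Nat.log 2 K + 1 := ⟨_, rfl⟩
  rw [← hl] at ht he
  have hl1 : 1 ≤ l := by omega
  have hKl : (K : ℝ) ≤ 2 ^ l := by
    have : K < 2 ^ l := by rw [hl]; exact Nat.lt_pow_succ_log_self (by norm_num) K
    exact_mod_cast this.le
  have hi : 1 ≤ (τ + a + A + 2) * l := Nat.mul_pos (by omega) hl1
  have hdist := ne_dist κ ((τ + a + A + 2) * l) K t hi ht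
  obtain ⟨θ0, hθ0⟩ : ∃ θ0, θ0 = (t : ℝ) / ((2 ^ (K + 1) : ℕ) : ℝ) := ⟨_, rfl⟩
  rw [← hθ0] at hdist ⊢
  obtain ⟨q0, hq0⟩ : ∃ q0 : ℤ, q0 = round ((κ : ℝ) * θ0) := ⟨_, rfl⟩
  obtain ⟨θ, hθ⟩ : ∃ θ : ℝ, θ = (κ : ℝ) * θ0 - q0 := ⟨_, rfl⟩
  have hθ2 : |θ| ≤ 1 / 2 := by rw [hθ, hq0]; exact abs_sub_round _
  -- the condition on the frequency
  have hcond : (M : ℝ) ^ k0 * (log U) ^ A ≤ |θ| * U := by
    have hMk : 0 < (M : ℝ) ^ k0 := by positivity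
    have h3 : (2 : ℝ) ^ m / (m : ℝ) ^ a * (M : ℝ) ^ k0 ≤ U := by
      have h4 := hpar.size
      have h5 : (2 : ℝ) ^ m / (m : ℝ) ^ a ≤ U / (M : ℝ) ^ k0 := by
        rw [div_le_iff₀ (by positivity)]
        linarith
      rw [le_div_iff₀ hMk] at h5
      exact h5
    have h4 : (2 : ℝ) ^ ((τ + a + A + 2) * l - 1) / 2 ^ (K + 1) * ((2 : ℝ) ^ m / (m : ℝ) ^ a * (M : ℝ) ^ k0) ≤
        |θ| * U := by
      rw [hθ]
      exact mul_le_mul (hdist q0) h3 (by positivity) (abs_nonneg _)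
    refine le_trans ?_ h4
    have h5 : (2 : ℝ) ^ ((τ + a + A + 2) * l - 1) / 2 ^ (K + 1) * ((2 : ℝ) ^ m / (m : ℝ) ^ a * (M : ℝ) ^ k0) =
        (M : ℝ) ^ k0 * ((2 ^ l) ^ (τ + a + A + 2) / (4 * 2 ^ e * (m : ℝ) ^ a)) := by
      have h6 : (2 : ℝ) ^ ((τ + a + A + 2) * l) = 2 ^ ((τ + a + A + 2) * l - 1) * 2 := by
        rw [← pow_succ]
        congr 1
        omega
      rw [← pow_mul, mul_comm l, h6, hKm, pow_succ, pow_add]
      field_simp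
      norm_num
    rw [h5]
    apply mul_le_mul_of_nonneg_left _ hMk.le
    rw [le_div_iff₀ (by positivity)]
    have h6 : (2 : ℝ) ^ e ≤ (2 ^ l) ^ τ := by
      rw [← pow_mul]
      apply pow_le_pow_right₀ (by norm_num)
      rw [mul_comm]
      exact he
    have h7 : (log U) ^ A ≤ C ^ A * (K : ℝ) ^ A := by
      rw [← mul_pow]
      apply pow_le_pow_left₀ hlU0.le
      exact hs1.trans (mul_le_mul_of_nonneg_left hmK (by linarith))
    have h8 : 4 * C ^ A ≤ (K : ℝ) := by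
      have h9 : (0 : ℝ) < (2 * C) ^ (V + 1) := by positivity
      have h10 : (K₁ : ℝ) ≤ K := by exact_mod_cast (by omega : K₁ ≤ K)
      linarith
    calc (log U) ^ A * (4 * 2 ^ e * (m : ℝ) ^ a) ≤ (C ^ A * (K : ℝ) ^ A) * (4 * (2 ^ l) ^ τ * (K : ℝ) ^ a) := by
          apply mul_le_mul h7 _ (by positivity) (by positivity)
          apply mul_le_mul _ (pow_le_pow_left₀ (by positivity) hmK a) (by positivity) (by positivity)
          exact mul_le_mul_of_nonneg_left h6 (by norm_num)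
      _ = (4 * C ^ A) * (K : ℝ) ^ (A + a) * (2 ^ l) ^ τ := by rw [pow_add]; ring
      _ ≤ K * (K : ℝ) ^ (A + a) * (2 ^ l) ^ τ := by
          apply mul_le_mul_of_nonneg_right _ (by positivity)
          exact mul_le_mul_of_nonneg_right h8 (by positivity)
      _ = (K : ℝ) ^ (A + a + 1) * (2 ^ l) ^ τ := by rw [pow_succ _ (A + a)]; ring
      _ ≤ (2 ^ l) ^ (A + a + 1) * (2 ^ l) ^ τ := by
          apply mul_le_mul_of_nonneg_right (pow_le_pow_left₀ (by positivity) hKl _) (by positivity)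
      _ = (2 ^ l) ^ (A + a + 1 + τ) := by rw [← pow_add]
      _ ≤ (2 ^ l) ^ (τ + a + A + 2) := pow_le_pow_right₀ (one_le_pow₀ (by norm_num)) (by omega)
  have hmain := hX₀ M (by omega) U hpar.rg θ hθ2 hcond
  have h3 : ∑ v ∈ range (2 ^ m), ((p v : ℝ) : ℂ) * ee (((cc + κ * (v : ℕ) : ℤ) : ℝ) * θ0) =
      (1 / (M : ℂ)) * (ee (cc * θ0) * ee ((κ : ℝ) * θ0 * s)) *
        ∑ i ∈ Finset.Ioc M (2 * M), Pool.Agent.Y933.KD.e (θ * ⌊U * f (x0 + 1 / i)⌋) := by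
    have h4 : ∀ i ∈ Finset.Ioc M (2 * M), Pool.Agent.Y933.KD.e (θ * ⌊U * f (x0 + 1 / i)⌋) *
        ee ((κ : ℝ) * θ0 * s) = ee ((κ : ℝ) * θ0 * (sh f x0 U s i : ℕ)) := by
      intro i hi
      have h5 : ((sh f x0 U s i : ℕ) : ℝ) = (vl f x0 U i : ℝ) + s := by
        exact_mod_cast hpar.sh_eq i hi
      have h6 : Pool.Agent.Y933.KD.e (θ * ⌊U * f (x0 + 1 / i)⌋) = ee ((κ : ℝ) * θ0 * (vl f x0 U i : ℝ)) := by
        rw [Pool.Agent.N193.PS.ee_eq_e]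
        have e1 : (κ : ℝ) * θ0 * (vl f x0 U i : ℝ) = θ * (vl f x0 U i : ℝ) + ((q0 * vl f x0 U i : ℤ) : ℝ) := by
          rw [hθ]
          push_cast
          ring
        rw [e1, Pool.Agent.H469R2.NK.e_add, Pool.Agent.N193.PS.e_int', mul_one]
        rfl
      rw [h6, ← ee_add, h5]
      congr 1
      ring
    have hS : ee ((κ : ℝ) * θ0 * s) *
        ∑ i ∈ Finset.Ioc M (2 * M), Pool.Agent.Y933.KD.e (θ * ⌊U * f (x0 + 1 / i)⌋) =
        ∑ i ∈ Finset.Ioc M (2 * M), ee ((κ : ℝ) * θ0 * (sh f x0 U s i : ℕ)) := by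
      rw [mul_sum]
      refine sum_congr rfl fun i hi => ?_
      rw [← h4 i hi, mul_comm]
    have hA : (1 / (M : ℂ)) * (ee (cc * θ0) * ee ((κ : ℝ) * θ0 * s)) *
        ∑ i ∈ Finset.Ioc M (2 * M), Pool.Agent.Y933.KD.e (θ * ⌊U * f (x0 + 1 / i)⌋) =
        (1 / (M : ℂ)) * ee (cc * θ0) * (ee ((κ : ℝ) * θ0 * s) *
        ∑ i ∈ Finset.Ioc M (2 * M), Pool.Agent.Y933.KD.e (θ * ⌊U * f (x0 + 1 / i)⌋)) := by ring
    rw [hA, hS, ← sum_sh M (2 ^ m) hpar.sh_lt (fun v => ee ((κ : ℝ) * θ0 * (v : ℕ))), mul_sum]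
    refine sum_congr rfl fun v _ => ?_
    rw [hpv, nsmul_eq_mul]
    have h4 : ee (((cc + κ * (v : ℕ) : ℤ) : ℝ) * θ0) = ee (cc * θ0) * ee ((κ : ℝ) * θ0 * (v : ℕ)) := by
      rw [← ee_add]
      congr 1
      push_cast
      ring
    rw [h4]
    push_cast
    ring
  rw [h3, norm_mul, norm_mul, norm_mul, norm_ee, norm_ee, mul_one, mul_one, norm_div, norm_one,
    Complex.norm_natCast]
  calc 1 / (M : ℝ) * ‖∑ i ∈ Finset.Ioc M (2 * M), Pool.Agent.Y933.KD.e (θ * ⌊U * f (x0 + 1 / i)⌋)‖ ≤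
      1 / (M : ℝ) * (M / (log U) ^ (V + 1)) := mul_le_mul_of_nonneg_left hmain (by positivity)
    _ = 1 / (log U) ^ (V + 1) := by field_simp
    _ ≤ 1 / (K : ℝ) ^ V := by
        apply one_div_le_one_div_of_le (by positivity)
        have h9 : (K : ℝ) / (2 * C) ≤ log U := by
          rw [div_le_iff₀ (by positivity)]
          nlinarith
        have h10 : (2 * C) ^ (V + 1) ≤ (K : ℝ) := by
          have h11 : (0 : ℝ) < C ^ A := by positivity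
          have h12 : (K₁ : ℝ) ≤ K := by exact_mod_cast (by omega : K₁ ≤ K)
          linarith
        calc (K : ℝ) ^ V ≤ ((K : ℝ) / (2 * C)) ^ (V + 1) := by
              rw [div_pow, le_div_iff₀ (by positivity), pow_succ]
              exact mul_le_mul_of_nonneg_left h10 (by positivity)
          _ ≤ _ := pow_le_pow_left₀ (by positivity) h9 _

end Pool.Agent.W2helper30.AN
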