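import Pool.Agent.W2helper30.AN.Val
import Pool.Agent.R459.Eq3

/-!
# The integer parts `⌊U f(x0 + 1 / m)⌋`: decay of the characteristic function
-/

set_option autoImplicit false

namespace Pool.Agent.W2helper30.AN

open Finset Real Filter Topology
open Pool.Agent.Y933.KD (e norm_e e_add)
open Pool.Agent.W2helper30.PN
open Pool.Agent.H807R2.Dav (ee norm_ee ee_add)
open Pool.Agent.TH872.Mir (Far farCount)
open Pool.Agent.R459.Eq (Decays)

/-- a frequency with many far places is not too close to the integers -/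
lemma far_dist (k M : ℕ) (hM : 1 ≤ M) (α : ℝ) (h : M ≤ farCount 2 1 k α) : M ≤ k ∧ (2 : ℝ) ^ M ≤ 8 * (|α - round α| * 2 ^ k) := by
  classical
  obtain ⟨S, hS⟩ : ∃ S : Finset ℕ, S = (range k).filter (fun j => Far (1 / ((2 : ℕ) : ℝ) ^ 2) (((1 : ℕ) : ℝ) * (((2 : ℕ) : ℝ) ^ j * α))) :=
    ⟨_, rfl⟩
  have hcard : M ≤ S.card := by
    rw [hS]
    unfold farCount at h
    convert h
  have hne : S.Nonempty := card_pos.1 (by omega)
  obtain ⟨j, hj⟩ : ∃ j, j = S.min' hne := ⟨_, rfl⟩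
  have hjS : j ∈ S := by rw [hj]; exact min'_mem _ _
  have hsub : S ⊆ Ico j k := by
    intro i hi
    rw [mem_Ico]
    refine ⟨by rw [hj]; exact min'_le _ _ hi, ?_⟩
    rw [hS, mem_filter, mem_range] at hi
    exact hi.1
  have hc := card_le_card hsub
  rw [Nat.card_Ico] at hc
  rw [hS, mem_filter, mem_range] at hjS
  obtain ⟨hjk, hfar⟩ := hjS
  refine ⟨by omega, ?_⟩
  have h1 := hfar (2 ^ j * round α)
  have h2 : |((1 : ℕ) : ℝ) * (((2 : ℕ) : ℝ) ^ j * α) - ((2 ^ j * round α : ℤ) : ℝ)| = 2 ^ j * |α - round α| := by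
    have : ((1 : ℕ) : ℝ) * (((2 : ℕ) : ℝ) ^ j * α) - ((2 ^ j * round α : ℤ) : ℝ) = 2 ^ j * (α - round α) := by
      push_cast
      ring
    rw [this, abs_mul, abs_of_pos (by positivity)]
  rw [h2] at h1
  have h3 : (1 : ℝ) / 4 ≤ 2 ^ j * |α - round α| := by
    refine le_trans (le_of_eq ?_) h1
    norm_num
  have h4 : (2 : ℝ) ^ (M + j) ≤ 2 ^ k := pow_le_pow_right₀ (by norm_num) (by omega)
  have h5 : 0 ≤ |α - round α| := abs_nonneg _
  rw [pow_add] at h4
  have h6 : (0 : ℝ) < 2 ^ M := by positivity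
  have h7 : (0 : ℝ) < 2 ^ j := by positivity
  calc (2 : ℝ) ^ M = 2 ^ M * (4 * (1 / 4)) := by ring
    _ ≤ 2 ^ M * (4 * (2 ^ j * |α - round α|)) := by
        apply mul_le_mul_of_nonneg_left _ h6.le
        linarith
    _ = 4 * (|α - round α| * (2 ^ M * 2 ^ j)) := by ring
    _ ≤ 4 * (|α - round α| * 2 ^ k) := by
        apply mul_le_mul_of_nonneg_left _ (by norm_num)
        exact mul_le_mul_of_nonneg_left h4 h5
    _ ≤ _ := by
        have : 0 ≤ |α - round α| * (2 : ℝ) ^ k := by positivity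
        linarith

/-- the decay of the characteristic function -/
theorem decays_f {f : ℝ → ℝ} {x0 : ℝ} {k0 : ℕ} (hf : Ord f x0 k0) (δ0 ε : ℝ) (hδ0 : 0 < δ0)
    (hε : 0 < ε) (hε2 : ε < 1 / 2) :
    ∃ c : ℝ, 0 < c ∧ ∃ N0 : ℕ, 1 ≤ N0 ∧ ∀ M : ℕ, N0 ≤ M → ∀ U : ℝ, Rg k0 δ0 ε M U → ∀ k : ℕ,
    (2 : ℝ) ^ k ≤ Real.exp (c * Sv M U) → ∀ c₀ κ : ℤ,
    Decays 2 1 5 k (1 / 2) κ (Finset.Ioc M (2 * M)) (fun _ => 1 / (M : ℝ))
      (fun m => c₀ + κ * vl f x0 U m) := by
  obtain ⟨c, hc, N1, hN1⟩ := floor_f hf δ0 ε hδ0 hε hε2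
  have hk0 := hf.2.1
  obtain ⟨N2, hN2⟩ := eventually_atTop.1 ((lpow (by linarith : (0 : ℝ) < 2 * ε)
    (2 / c * log 1042)))
  refine ⟨c / 2, by positivity, max (max N1 N2) 2, by omega, fun M hM U hU k hk c₀ κ => ?_⟩
  have hNN1 : N1 ≤ M := le_of_max_le_left (le_of_max_le_left hM)
  have ha := hN2 M (le_of_max_le_right (le_of_max_le_left hM))
  have hM2 : 2 ≤ M := le_of_max_le_right hM
  have hMR : (2 : ℝ) ≤ M := by exact_mod_cast hM2
  have hM0 : (0 : ℝ) < M := by linarith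
  have hSg := hU.sv_ge hk0 hδ0 hM2
  obtain ⟨S, hS⟩ : ∃ S : ℝ, S = Sv M U := ⟨_, rfl⟩
  rw [← hS] at hSg hk
  rw [Real.rpow_zero, mul_one] at ha
  have hS1 : log 1042 ≤ c / 2 * S := by
    have h1 : 2 / c * log 1042 ≤ S := ha.trans hSg
    calc log 1042 = c / 2 * (2 / c * log 1042) := by field_simp
      _ ≤ _ := by gcongr
  have hS2 : 1042 ≤ Real.exp (c / 2 * S) := by
    rw [← Real.log_le_iff_le_exp (by norm_num)]
    exact hS1
  have hS0 : 0 ≤ S := by
    have : (0 : ℝ) ≤ (log (M : ℝ)) ^ (2 * ε) := Real.rpow_nonneg (Real.log_natCast_nonneg M) _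
    linarith
  refine ⟨fun _ _ => by positivity, ?_, fun θ n hfar hAN => ?_⟩
  · rw [sum_const, Nat.card_Ioc, nsmul_eq_mul, mul_one_div]
    have : ((2 * M - M : ℕ) : ℝ) = M := by
      congr 1
      omega
    rw [this, div_self hM0.ne']
  obtain ⟨α, hα⟩ : ∃ α : ℝ, α = κ * θ := ⟨_, rfl⟩
  rw [← hα] at hfar
  have hnorm : ‖∑ m ∈ Finset.Ioc M (2 * M), ((1 / (M : ℝ) : ℝ) : ℂ) *
      ee (((c₀ + κ * vl f x0 U m : ℤ) : ℝ) * θ)‖ =
      1 / M * ‖∑ m ∈ Finset.Ioc M (2 * M), e ((α - round α) * (vl f x0 U m : ℤ))‖ := by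
    have h1 : ∀ m ∈ Finset.Ioc M (2 * M), ((1 / (M : ℝ) : ℝ) : ℂ) *
        ee (((c₀ + κ * vl f x0 U m : ℤ) : ℝ) * θ) =
        (ee (c₀ * θ) * (1 / (M : ℂ))) * e ((α - round α) * (vl f x0 U m : ℤ)) := by
      intro m _
      have e1 : ee (((c₀ + κ * vl f x0 U m : ℤ) : ℝ) * θ) =
          ee (c₀ * θ) * ee (α * (vl f x0 U m : ℤ)) := by
        rw [← ee_add]
        congr 1
        rw [hα]
        push_cast
        ring
      have e2 : ee (α * (vl f x0 U m : ℤ)) = e ((α - round α) * (vl f x0 U m : ℤ)) := by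
        have e3 : ee (α * (vl f x0 U m : ℤ)) = ee ((α - round α) * (vl f x0 U m : ℤ)) *
            ee ((round α * vl f x0 U m : ℤ) : ℝ) := by
          rw [← ee_add]
          congr 1
          push_cast
          ring
        have e4 : ∀ z : ℤ, ee (z : ℝ) = 1 := by
          intro z
          unfold Pool.Agent.H807R2.Dav.ee
          rw [Complex.exp_eq_one_iff]
          exact ⟨z, by push_cast; ring⟩
        rw [e3, e4, mul_one]
        unfold Pool.Agent.H807R2.Dav.ee Pool.Agent.Y933.KD.e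
        congr 1
        push_cast
        ring
      rw [e1, e2]
      push_cast
      ring
    rw [sum_congr rfl h1, ← mul_sum, norm_mul, norm_mul, norm_ee, one_mul, norm_div, norm_one,
      Complex.norm_natCast]
  rw [hnorm]
  rcases Nat.eq_zero_or_pos n with hN0 | hN0
  · rw [hN0, pow_zero]
    have h1 : ‖∑ m ∈ Finset.Ioc M (2 * M), e ((α - round α) * (vl f x0 U m : ℤ))‖ ≤ M := by
      refine (norm_sum_le _ _).trans ?_
      simp only [norm_e, sum_const, Nat.card_Ioc, nsmul_eq_mul, mul_one]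
      exact_mod_cast (by omega : 2 * M - M ≤ M)
    calc 1 / (M : ℝ) * _ ≤ 1 / M * M := by gcongr
      _ = 1 := by field_simp
  obtain ⟨hMk, hdist⟩ := far_dist k (5 * (n + 1)) (by omega) α hfar
  have hk0' : (0 : ℝ) < 2 ^ k := by positivity
  have hge : Real.exp (-(c * S)) ≤ |α - round α| := by
    have h1 : (32 : ℝ) ≤ 2 ^ (5 * (n + 1)) := by
      calc (32 : ℝ) = 2 ^ 5 := by norm_num
        _ ≤ _ := pow_le_pow_right₀ (by norm_num) (by omega)
    have h2 : 1 ≤ |α - round α| * 2 ^ k := by linarith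
    have h3 : (2 : ℝ) ^ k ≤ Real.exp (c * S) := by
      refine hk.trans (Real.exp_le_exp.2 ?_)
      have : 0 ≤ c * S := by positivity
      linarith
    have h4 : 1 ≤ |α - round α| * Real.exp (c * S) := by
      refine h2.trans ?_
      gcongr
    rw [Real.exp_neg]
    rw [inv_le_iff_one_le_mul₀ (Real.exp_pos _)]
    exact h4
  have hbd := hN1 M hNN1 U hU (α - round α) (abs_sub_round α) (by rw [← hS]; exact hge)
  rw [← hS] at hbd
  have h2n : (2 : ℝ) ^ n ≤ Real.exp (c / 2 * S) :=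
    (pow_le_pow_right₀ (by norm_num) (by omega)).trans hk
  calc 1 / (M : ℝ) * ‖∑ m ∈ Finset.Ioc M (2 * M), e ((α - round α) * (vl f x0 U m : ℤ))‖ ≤
        1 / M * (1042 * (M * Real.exp (-(c * S)))) := by
        unfold vl
        gcongr
    _ = 1042 * Real.exp (-(c * S)) := by field_simp
    _ ≤ Real.exp (c / 2 * S) * Real.exp (-(c * S)) := by gcongr
    _ = Real.exp (-(c / 2 * S)) := by
        rw [← Real.exp_add]
        congr 1
        ring
    _ ≤ (1 / 2) ^ n := by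
        rw [one_div_pow, Real.exp_neg, one_div]
        exact inv_anti₀ (by positivity) h2n

end Pool.Agent.W2helper30.AN
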