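import Pool.Agent.W2helper30.AN.Fun
import Pool.Agent.N193.PS.Frac

/-!
# The exponential sums over the integer parts `⌊U f(x0 + 1 / m)⌋`
-/

set_option autoImplicit false

namespace Pool.Agent.W2helper30.AN

open Finset Real Filter Topology
open Pool.Agent.Y933.KD (e norm_e e_add)
open Pool.Agent.W2helper30.PN

/-- the size of the saving -/
noncomputable def Sv (M : ℕ) (U : ℝ) : ℝ := (log M) ^ 3 / (log U) ^ 2

/-- the range of the multipliers -/
structure Rg (k0 : ℕ) (δ0 ε : ℝ) (M : ℕ) (U : ℝ) : Prop where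
  lo : (M : ℝ) ^ ((k0 : ℝ) + δ0) ≤ U
  hi : U ≤ Real.exp ((log M) ^ (3 / 2 - ε))

lemma Rg.log_le {k0 : ℕ} {δ0 ε : ℝ} {M : ℕ} {U : ℝ} (h : Rg k0 δ0 ε M U) (hk0 : 1 ≤ k0)
    (hδ0 : 0 < δ0) (hM : 1 ≤ M) : log M ≤ log U := by
  have hMR : (1 : ℝ) ≤ M := by exact_mod_cast hM
  have hk0R : (1 : ℝ) ≤ k0 := by exact_mod_cast hk0
  refine Real.log_le_log (by linarith) (le_trans ?_ h.lo)
  have := Real.rpow_le_rpow_of_exponent_le hMR (by linarith : (1 : ℝ) ≤ k0 + δ0)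
  rwa [Real.rpow_one] at this

lemma Rg.sv_le {k0 : ℕ} {δ0 ε : ℝ} {M : ℕ} {U : ℝ} (h : Rg k0 δ0 ε M U) (hk0 : 1 ≤ k0)
    (hδ0 : 0 < δ0) : Sv M U ≤ log M := by
  unfold Sv
  rcases Nat.lt_or_ge M 2 with hM | hM
  · have : log (M : ℝ) = 0 := by
      interval_cases M <;> simp
    rw [this]
    simp
  · have hMR : (2 : ℝ) ≤ M := by exact_mod_cast hM
    have hL0 : 0 < log (M : ℝ) := Real.log_pos (by linarith)
    have h1 := h.log_le hk0 hδ0 (by omega)
    have h3 : 0 < log U := by linarith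
    rw [div_le_iff₀ (by positivity)]
    have h2 : (log (M : ℝ)) ^ 2 ≤ (log U) ^ 2 := by gcongr
    calc (log (M : ℝ)) ^ 3 = log M * (log M) ^ 2 := by ring
      _ ≤ log M * (log U) ^ 2 := by gcongr

lemma Rg.sv_ge {k0 : ℕ} {δ0 ε : ℝ} {M : ℕ} {U : ℝ} (h : Rg k0 δ0 ε M U) (hk0 : 1 ≤ k0)
    (hδ0 : 0 < δ0) (hM : 2 ≤ M) : (log M) ^ (2 * ε) ≤ Sv M U := by
  have hMR : (2 : ℝ) ≤ M := by exact_mod_cast hM
  have hL0 : 0 < log (M : ℝ) := Real.log_pos (by linarith)
  have h1 := h.log_le hk0 hδ0 (by omega)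
  have hU0 : 0 < U := lt_of_lt_of_le (by positivity) h.lo
  have h2 : log U ≤ (log M) ^ (3 / 2 - ε) := by
    rw [Real.log_le_iff_le_exp hU0]
    exact h.hi
  have h3 : 0 < log U := by linarith
  unfold Sv
  rw [le_div_iff₀ (by positivity)]
  calc (log (M : ℝ)) ^ (2 * ε) * (log U) ^ 2 ≤
        (log (M : ℝ)) ^ (2 * ε) * ((log M) ^ (3 / 2 - ε)) ^ 2 := by gcongr
    _ = (log (M : ℝ)) ^ (2 * ε) * ((log M) ^ (3 / 2 - ε) * (log M) ^ (3 / 2 - ε)) := by ring
    _ = (log (M : ℝ)) ^ (3 : ℝ) := by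
        rw [← Real.rpow_add hL0, ← Real.rpow_add hL0]
        congr 1
        ring
    _ = (log M) ^ 3 := by norm_cast

/-- the sums over the integer parts -/
theorem floor_f {f : ℝ → ℝ} {x0 : ℝ} {k0 : ℕ} (hf : Ord f x0 k0) (δ0 ε : ℝ) (hδ0 : 0 < δ0)
    (hε : 0 < ε) (hε2 : ε < 1 / 2) :
    ∃ c : ℝ, 0 < c ∧ ∃ N0 : ℕ, ∀ M : ℕ, N0 ≤ M → ∀ U : ℝ, Rg k0 δ0 ε M U → ∀ θ : ℝ, |θ| ≤ 1 / 2 →
    Real.exp (-(c * Sv M U)) ≤ |θ| →
    ‖∑ m ∈ Finset.Ioc M (2 * M), e (θ * ⌊U * f (x0 + 1 / m)⌋)‖ ≤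
      1042 * (M * Real.exp (-(c * Sv M U))) := by
  obtain ⟨c1, hc1, N1, hN1⟩ := sum_f hf (δ0 / 2) (ε / 2) (by positivity) (by positivity)
    (by linarith)
  have hk0 := hf.2.1
  obtain ⟨c, hc⟩ : ∃ c : ℝ, c = min (min (δ0 / 2) (c1 / 16)) (1 / 12) := ⟨_, rfl⟩
  have hc0 : 0 < c := by
    rw [hc]
    exact lt_min (lt_min (by positivity) (by positivity)) (by norm_num)
  have hca : c ≤ δ0 / 2 := by rw [hc]; exact (min_le_left _ _).trans (min_le_left _ _)
  have hcb : c ≤ c1 / 16 := by rw [hc]; exact (min_le_left _ _).trans (min_le_right _ _)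
  have hcc : c ≤ 1 / 12 := by rw [hc]; exact min_le_right _ _
  obtain ⟨N2, hN2⟩ := eventually_atTop.1 (((ev_loge (2 * log 1025)).and
    (lpow (by linarith : (3 / 2 - ε : ℝ) < 3 / 2 - ε / 2) 2)).and (ev_loge 1))
  refine ⟨c, hc0, max (max N1 N2) 2, fun M hM U hU θ hθ2 hθ1 => ?_⟩
  obtain ⟨⟨ha, hb⟩, hL1⟩ := hN2 M (le_of_max_le_right (le_of_max_le_left hM))
  have hNN1 : N1 ≤ M := le_of_max_le_left (le_of_max_le_left hM)
  have hM2 : 2 ≤ M := le_of_max_le_right hM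
  have hMR : (2 : ℝ) ≤ M := by exact_mod_cast hM2
  have hM0 : (0 : ℝ) < M := by linarith
  have hlU := hU.log_le hk0 hδ0 (by omega)
  have hSL := hU.sv_le hk0 hδ0
  obtain ⟨S, hS⟩ : ∃ S : ℝ, S = Sv M U := ⟨_, rfl⟩
  have hS' : S = (log M) ^ 3 / (log U) ^ 2 := hS
  rw [← hS] at hSL hθ1 ⊢
  obtain ⟨L, hL⟩ : ∃ L : ℝ, L = log M := ⟨_, rfl⟩
  rw [← hL] at ha hb hlU hSL hL1 hS'
  have hL0 : 0 < L := by linarith
  have hlU0 : 0 < log U := by linarith
  have hS0 : 0 ≤ S := by rw [hS']; positivity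
  have hU0 : 0 < U := lt_of_lt_of_le (by positivity) hU.lo
  have hUhi : log U ≤ L ^ (3 / 2 - ε) := by
    rw [Real.log_le_iff_le_exp hU0, hL]
    exact hU.hi
  -- the number `Q`
  obtain ⟨Q, hQ⟩ : ∃ Q : ℕ, Q = ⌈Real.exp (c * S)⌉₊ := ⟨_, rfl⟩
  have hQ1 : Real.exp (c * S) ≤ Q := by rw [hQ]; exact Nat.le_ceil _
  have hone : 1 ≤ Real.exp (c * S) := Real.one_le_exp (by positivity)
  have hQ2 : (Q : ℝ) ≤ 2 * Real.exp (c * S) := by
    have : (Q : ℝ) < Real.exp (c * S) + 1 := by rw [hQ]; exact Nat.ceil_lt_add_one (by positivity)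
    linarith
  have hQ0 : (0 : ℝ) < Q := by linarith
  have hQ3 : 1 ≤ Q := by exact_mod_cast hQ0
  have hexp3 : Real.exp (c * S) ^ 3 = Real.exp (3 * c * S) := by
    rw [← Real.exp_nat_mul]
    congr 1
    push_cast
    ring
  have hone3 : 1 ≤ Real.exp (3 * c * S) := Real.one_le_exp (by positivity)
  have hQ4 : 128 * (Q : ℝ) ^ 3 ≤ 1024 * Real.exp (3 * c * S) := by
    calc 128 * (Q : ℝ) ^ 3 ≤ 128 * (2 * Real.exp (c * S)) ^ 3 := by gcongr
      _ = 1024 * Real.exp (c * S) ^ 3 := by ring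
      _ = _ := by rw [hexp3]
  obtain ⟨E, hE⟩ : ∃ E : ℝ, E = M * Real.exp (-(c1 / 4 * S)) := ⟨_, rfl⟩
  have hE0 : 0 ≤ E := by rw [hE]; positivity
  have hfreq : ∀ t : ℝ, Real.exp (-(c * S)) ≤ |t| → |t| ≤ 128 * (Q : ℝ) ^ 3 + 1 →
      ‖∑ m ∈ Finset.Ioc M (2 * M), e (t * (U * f (x0 + 1 / m)))‖ ≤ E := by
    intro t ht1 ht2
    have ht0 : 0 < |t| := lt_of_lt_of_le (Real.exp_pos _) ht1
    have habs : |t * U| = |t| * U := by rw [abs_mul, abs_of_pos hU0]
    have h1 : (M : ℝ) ^ ((k0 : ℝ) + δ0 / 2) ≤ |t * U| := by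
      rw [habs]
      calc (M : ℝ) ^ ((k0 : ℝ) + δ0 / 2) = (M : ℝ) ^ (-(δ0 / 2)) * (M : ℝ) ^ ((k0 : ℝ) + δ0) := by
            rw [← Real.rpow_add hM0]
            congr 1
            ring
        _ ≤ |t| * U := by
            have h2 : (M : ℝ) ^ (-(δ0 / 2)) ≤ |t| := by
              refine le_trans ?_ ht1
              rw [Real.rpow_def_of_pos hM0, ← hL]
              apply Real.exp_le_exp.2
              have : c * S ≤ δ0 / 2 * L := by gcongr
              linarith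
            exact mul_le_mul h2 hU.lo (by positivity) ht0.le
    have h2 : log |t * U| ≤ 2 * log U := by
      rw [habs, Real.log_mul ht0.ne' hU0.ne']
      have h3 : log |t| ≤ log 1025 + 3 * c * S := by
        have h4 : |t| ≤ 1025 * Real.exp (3 * c * S) := by linarith
        calc log |t| ≤ log (1025 * Real.exp (3 * c * S)) := Real.log_le_log ht0 h4
          _ = _ := by rw [Real.log_mul (by norm_num) (Real.exp_pos _).ne', Real.log_exp]
      have h5 : 3 * c * S ≤ 3 * (1 / 12) * L := by gcongr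
      linarith
    have h3 : |t * U| ≤ Real.exp (L ^ (3 / 2 - ε / 2)) := by
      rw [← Real.log_le_iff_le_exp (by rw [habs]; positivity)]
      linarith
    have h4 := hN1 M hNN1 (t * U) h1 (by rw [← hL]; exact h3)
    have h5 : ∀ m : ℕ, t * (U * f (x0 + 1 / m)) = t * U * f (x0 + 1 / m) := fun m => by ring
    simp only [h5]
    refine h4.trans ?_
    rw [hE]
    refine mul_le_mul_of_nonneg_left (Real.exp_le_exp.2 ?_) hM0.le
    have h6 : L ≤ log |t * U| := by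
      rw [hL]
      refine Real.log_le_log hM0 (le_trans ?_ h1)
      have hk0R : (1 : ℝ) ≤ k0 := by exact_mod_cast hk0
      have := Real.rpow_le_rpow_of_exponent_le (by linarith : (1 : ℝ) ≤ M)
        (by linarith : (1 : ℝ) ≤ k0 + δ0 / 2)
      rwa [Real.rpow_one] at this
    have h7 : S / 4 ≤ L ^ 3 / (log |t * U|) ^ 2 := by
      rw [hS', div_div]
      apply div_le_div_of_nonneg_left (by positivity) (by
        have : 0 < log |t * U| := by linarith
        positivity)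
      have h8 : 0 ≤ log |t * U| := by linarith
      calc (log |t * U|) ^ 2 ≤ (2 * log U) ^ 2 := by gcongr
        _ = _ := by ring
    have h8 : c1 / 4 * S ≤ c1 * (L ^ 3 / (log |t * U|) ^ 2) := by
      calc c1 / 4 * S = c1 * (S / 4) := by ring
        _ ≤ _ := by gcongr
    rw [← hL]
    linarith
  have hint : ∀ m : ℤ, |(m : ℝ)| < 128 * (Q : ℝ) ^ 3 → |θ + m| ≤ 128 * (Q : ℝ) ^ 3 + 1 := by
    intro m hm
    refine (abs_add_le _ _).trans ?_
    linarith
  have hmain := Pool.Agent.N193.PS.floor_sum (Finset.Ioc M (2 * M))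
    (fun m : ℕ => U * f (x0 + 1 / m)) Q hQ3 θ (by linarith) E hE0
    (fun m hm => by
      have hm' : |(m : ℝ)| < 128 * (Q : ℝ) ^ 3 := by exact_mod_cast hm
      refine hfreq (θ + m) ?_ (hint m hm')
      by_cases hm0 : m = 0
      · rw [hm0, Int.cast_zero, add_zero]
        exact hθ1
      · have h1 : (1 : ℝ) ≤ |(m : ℝ)| := by
          have := Int.one_le_abs hm0
          exact_mod_cast this
        have h2 : |(m : ℝ)| ≤ |θ + m| + |θ| := by
          have h3 : (m : ℝ) = (θ + m) + (-θ) := by ring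
          calc |(m : ℝ)| = |(θ + m) + (-θ)| := by rw [← h3]
            _ ≤ |θ + m| + |-θ| := abs_add_le _ _
            _ = _ := by rw [abs_neg]
        linarith)
    (fun m hm0 hm => by
      have h1 : (1 : ℝ) ≤ |(m : ℝ)| := by
        have := Int.one_le_abs hm0
        exact_mod_cast this
      have h2 : |(m : ℝ)| < Q := by exact_mod_cast hm
      have h3 : (Q : ℝ) ≤ 128 * (Q : ℝ) ^ 3 := by
        have hQR : (1 : ℝ) ≤ Q := by exact_mod_cast hQ3
        have h4 : (Q : ℝ) ^ 1 ≤ (Q : ℝ) ^ 3 := pow_le_pow_right₀ hQR (by norm_num)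
        rw [pow_one] at h4
        have : 0 ≤ (Q : ℝ) ^ 3 := by positivity
        linarith
      refine hfreq m ?_ (by linarith)
      have h5 : Real.exp (-(c * S)) ≤ 1 := Real.exp_le_one_iff.2 (by
        have : 0 ≤ c * S := by positivity
        linarith)
      linarith)
  have hcard : ((Finset.Ioc M (2 * M)).card : ℝ) = M := by
    rw [Nat.card_Ioc]
    congr 1
    omega
  rw [hcard] at hmain
  refine hmain.trans ?_
  have hp1 : (128 * (Q : ℝ) ^ 3 + 8) * E ≤ 1032 * (M * Real.exp (-(c * S))) := by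
    calc (128 * (Q : ℝ) ^ 3 + 8) * E ≤ (1032 * Real.exp (3 * c * S)) *
          (M * Real.exp (-(c1 / 4 * S))) := by
          rw [← hE]
          apply mul_le_mul_of_nonneg_right _ hE0
          linarith
      _ = 1032 * (M * Real.exp (3 * c * S + -(c1 / 4 * S))) := by rw [Real.exp_add]; ring
      _ ≤ _ := by
          have h1 : 4 * c * S ≤ c1 / 4 * S := by
            gcongr
            linarith
          have h2 : Real.exp (3 * c * S + -(c1 / 4 * S)) ≤ Real.exp (-(c * S)) :=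
            Real.exp_le_exp.2 (by linarith)
          gcongr
  have hp2 : 10 * ((M : ℝ) / Q) ≤ 10 * (M * Real.exp (-(c * S))) := by
    have h1 : (M : ℝ) / Q ≤ M / Real.exp (c * S) := div_le_div_of_nonneg_left hM0.le
      (Real.exp_pos _) hQ1
    rw [Real.exp_neg]
    rw [div_eq_mul_inv] at h1
    rw [div_eq_mul_inv] at h1
    rw [div_eq_mul_inv]
    linarith
  linarith

end Pool.Agent.W2helper30.AN
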