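import Pool.Agent.W2helper30.AN.Fun
import Pool.Agent.H469R2.NK.KL

/-!
# The differences of `f(x0 + 1 / m)`, and the inequality of Kusmin and Landau
-/

set_option autoImplicit false

namespace Pool.Agent.W2helper30.AN

open Finset Real Filter Topology

lemma der_f {f : ℝ → ℝ} {x0 : ℝ} {k0 : ℕ} (hf : Ord f x0 k0) :
    ∃ g : ℝ → ℝ, AnalyticAt ℝ g x0 ∧ g x0 ≠ 0 ∧
      ∀ᶠ z in 𝓝 x0, deriv f z = (z - x0) ^ (k0 - 1) * g z := by
  obtain ⟨hfa, hk0, hz, hne⟩ := hf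
  have h1 : analyticOrderAt (deriv f) x0 = ((k0 - 1 : ℕ) : ℕ∞) := by
    rw [analyticOrderAt_eq_nat_iff_iteratedDeriv_eq_zero hfa.deriv]
    refine ⟨fun k hk => ?_, ?_⟩
    · rw [← iteratedDeriv_succ']
      exact hz (k + 1) (by omega) (by omega)
    · rw [← iteratedDeriv_succ', Nat.sub_add_cancel hk0]
      exact hne
  obtain ⟨g, hg1, hg2, hg3⟩ := (hfa.deriv.analyticOrderAt_eq_natCast).1 h1
  refine ⟨g, hg1, hg2, ?_⟩
  filter_upwards [hg3] with z hz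
  rw [hz, smul_eq_mul]

lemma tends_inv (x0 : ℝ) : Tendsto (fun y : ℝ => x0 + 1 / y) atTop (𝓝 x0) := by
  have h0 : Tendsto (fun y : ℝ => 1 / y) atTop (𝓝 0) := by
    simp only [one_div]
    exact tendsto_inv_atTop_zero
  have h1 : Tendsto (fun y : ℝ => x0 + 1 / y) atTop (𝓝 (x0 + 0)) := tendsto_const_nhds.add h0
  rwa [add_zero] at h1

/-- the derivative of `f(x0 + 1 / y)` -/
lemma mono_f {f : ℝ → ℝ} {x0 : ℝ} {k0 : ℕ} (hf : Ord f x0 k0) :
    ∃ σ : ℝ, σ * σ = 1 ∧ ∃ a : ℝ, 0 < a ∧ ∃ Y0 : ℕ, 1 ≤ Y0 ∧ ∃ D : ℝ → ℝ,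
      (∀ y : ℝ, (Y0 : ℝ) ≤ y → a / y ^ (k0 + 1) ≤ D y ∧ D y ≤ 4 * a / y ^ (k0 + 1)) ∧
      AntitoneOn D (Set.Ici (Y0 : ℝ)) ∧
      ∀ y : ℝ, (Y0 : ℝ) ≤ y → HasDerivAt (fun y => f (x0 + 1 / y)) (-(σ * D y)) y := by
  obtain ⟨g, hg, hg0, hd⟩ := der_f hf
  obtain ⟨hfa, hk0, -, -⟩ := hf
  obtain ⟨σ, hσ, hσg⟩ : ∃ σ : ℝ, σ * σ = 1 ∧ 0 < σ * g x0 := by
    rcases lt_or_gt_of_ne hg0 with h | h
    · exact ⟨-1, by norm_num, by linarith⟩
    · exact ⟨1, by norm_num, by linarith⟩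
  obtain ⟨a, ha⟩ : ∃ a : ℝ, a = σ * g x0 / 2 := ⟨_, rfl⟩
  have ha0 : 0 < a := by rw [ha]; positivity
  have e1 : ∀ᶠ z in 𝓝 x0, AnalyticAt ℝ f z := hfa.eventually_analyticAt
  have e2 : ∀ᶠ z in 𝓝 x0, AnalyticAt ℝ g z := hg.eventually_analyticAt
  have e3 : ∀ᶠ z in 𝓝 x0, a < σ * g z ∧ σ * g z < 4 * a := by
    have h1 : ContinuousAt (fun z => σ * g z) x0 := continuousAt_const.mul hg.continuousAt
    exact (h1.eventually (lt_mem_nhds (by rw [ha]; linarith))).and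
      (h1.eventually (gt_mem_nhds (by rw [ha]; linarith)))
  have e4 : ∀ᶠ z in 𝓝 x0, |σ * deriv g z| < |σ * deriv g x0| + 1 := by
    have h1 : ContinuousAt (fun z => |σ * deriv g z|) x0 :=
      (continuousAt_const.mul hg.deriv.continuousAt).abs
    exact h1.eventually (gt_mem_nhds (by linarith))
  obtain ⟨B, hB⟩ : ∃ B : ℝ, B = |σ * deriv g x0| + 1 := ⟨_, rfl⟩
  rw [← hB] at e4
  have hev := (tends_inv x0).eventually (hd.and (e1.and (e2.and (e3.and e4))))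
  obtain ⟨Y1, hY1⟩ := eventually_atTop.1 (hev.and (eventually_ge_atTop (B / a)))
  obtain ⟨Y0, hY0⟩ := exists_nat_ge (max Y1 1)
  have hY01 : (1 : ℝ) ≤ Y0 := (le_max_right _ _).trans hY0
  have hY01' : Y1 ≤ Y0 := (le_max_left _ _).trans hY0
  obtain ⟨D, hD⟩ : ∃ D : ℝ → ℝ, D = fun y => σ * g (x0 + 1 / y) / y ^ (k0 + 1) := ⟨_, rfl⟩
  have hinv : ∀ y : ℝ, (Y0 : ℝ) ≤ y → HasDerivAt (fun y : ℝ => x0 + 1 / y) (-(1 / y ^ 2)) y := by
    intro y hy
    have hy0 : y ≠ 0 := by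
      have : (1 : ℝ) ≤ y := hY01.trans hy
      positivity
    have h1 := (hasDerivAt_inv hy0).const_add x0
    simpa [one_div, neg_div] using h1
  refine ⟨σ, hσ, a, ha0, Y0, by exact_mod_cast hY01, D, ?_, ?_, ?_⟩
  · intro y hy
    have hy1 : (1 : ℝ) ≤ y := hY01.trans hy
    obtain ⟨⟨_, _, _, ⟨h3, h4⟩, _⟩, _⟩ := hY1 y (hY01'.trans hy)
    rw [hD]
    constructor
    · exact div_le_div_of_nonneg_right h3.le (by positivity)
    · exact div_le_div_of_nonneg_right h4.le (by positivity)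
  · have hder : ∀ y : ℝ, (Y0 : ℝ) ≤ y → HasDerivAt D
        ((σ * (deriv g (x0 + 1 / y) * (-(1 / y ^ 2))) * y ^ (k0 + 1) -
          σ * g (x0 + 1 / y) * (((k0 + 1 : ℕ) : ℝ) * y ^ k0)) / (y ^ (k0 + 1)) ^ 2) y := by
      intro y hy
      have hy1 : (1 : ℝ) ≤ y := hY01.trans hy
      obtain ⟨⟨_, _, h2, _, _⟩, _⟩ := hY1 y (hY01'.trans hy)
      have h5 : HasDerivAt (fun y => σ * g (x0 + 1 / y))
          (σ * (deriv g (x0 + 1 / y) * (-(1 / y ^ 2)))) y :=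
        (h2.differentiableAt.hasDerivAt.comp y (hinv y hy)).const_mul σ
      have h6 : HasDerivAt (fun y : ℝ => y ^ (k0 + 1)) (((k0 + 1 : ℕ) : ℝ) * y ^ k0) y := by
        simpa using hasDerivAt_pow (k0 + 1) y
      rw [hD]
      exact h5.div h6 (by positivity)
    apply antitoneOn_of_deriv_nonpos (convex_Ici _)
    · intro y hy
      exact (hder y hy).continuousAt.continuousWithinAt
    · intro y hy
      rw [interior_Ici] at hy
      exact (hder y (le_of_lt hy)).differentiableAt.differentiableWithinAt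
    · intro y hy
      rw [interior_Ici] at hy
      have hy' : (Y0 : ℝ) ≤ y := le_of_lt hy
      rw [(hder y hy').deriv]
      have hy1 : (1 : ℝ) ≤ y := hY01.trans hy'
      obtain ⟨⟨_, _, _, ⟨h3, _⟩, h5⟩, h6⟩ := hY1 y (hY01'.trans hy')
      apply div_nonpos_of_nonpos_of_nonneg _ (by positivity)
      have h7 : σ * (deriv g (x0 + 1 / y) * (-(1 / y ^ 2))) * y ^ (k0 + 1) =
          (-(σ * deriv g (x0 + 1 / y)) / y) * y ^ k0 := by
        have hy0 : y ≠ 0 := by positivity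
        generalize deriv g (x0 + 1 / y) = d
        rw [pow_succ y k0]
        field_simp
      rw [h7]
      have h8 : -(σ * deriv g (x0 + 1 / y)) / y ≤ a := by
        rw [div_le_iff₀ (by linarith)]
        rw [div_le_iff₀ ha0] at h6
        have := neg_le_abs (σ * deriv g (x0 + 1 / y))
        nlinarith
      have h9 : a ≤ σ * g (x0 + 1 / y) * ((k0 + 1 : ℕ) : ℝ) := by
        push_cast
        have : (0 : ℝ) ≤ k0 := Nat.cast_nonneg _
        nlinarith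
      have h10 : (0 : ℝ) ≤ y ^ k0 := by positivity
      have h11 := mul_le_mul_of_nonneg_right (h8.trans h9) h10
      linarith
  · intro y hy
    have hy1 : (1 : ℝ) ≤ y := hY01.trans hy
    obtain ⟨⟨h1, h2, _, _, _⟩, _⟩ := hY1 y (hY01'.trans hy)
    have h5 := h2.differentiableAt.hasDerivAt.comp y (hinv y hy)
    have h6 : deriv f (x0 + 1 / y) * (-(1 / y ^ 2)) = -(σ * D y) := by
      rw [h1, hD]
      have hy0 : y ≠ 0 := by positivity
      have h7 : x0 + 1 / y - x0 = 1 / y := by ring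
      rw [h7]
      have h8 : σ * (σ * g (x0 + 1 / y) / y ^ (k0 + 1)) = (σ * σ) * g (x0 + 1 / y) / y ^ (k0 + 1) := by
        ring
      show (1 / y) ^ (k0 - 1) * g (x0 + 1 / y) * (-(1 / y ^ 2)) =
        -(σ * (σ * g (x0 + 1 / y) / y ^ (k0 + 1)))
      rw [h8, hσ]
      have h9 : y ^ (k0 + 1) = y ^ (k0 - 1) * y ^ 2 := by
        rw [← pow_add]
        congr 1
        omega
      rw [h9, one_div, inv_pow]
      field_simp
    rw [← h6]
    exact h5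

/-- the mean value theorem for `f(x0 + 1 / y)` -/
lemma mono_mv {F D : ℝ → ℝ} {σ : ℝ} {Y0 : ℝ} (hσ : σ * σ = 1) (hD : AntitoneOn D (Set.Ici Y0))
    (hF : ∀ y : ℝ, Y0 ≤ y → HasDerivAt F (-(σ * D y)) y) {y z : ℝ} (hy : Y0 ≤ y) (hz : y < z) :
    (z - y) * D z ≤ σ * (F y - F z) ∧ σ * (F y - F z) ≤ (z - y) * D y := by
  obtain ⟨c, hc, h⟩ := exists_hasDerivAt_eq_slope F (fun y => -(σ * D y)) hz
    (fun t ht => (hF t (hy.trans ht.1)).continuousAt.continuousWithinAt)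
    (fun t ht => hF t (hy.trans ht.1.le))
  have hzy : 0 < z - y := by linarith
  rw [eq_div_iff hzy.ne'] at h
  have e : σ * (F y - F z) = (z - y) * D c := by
    have h1 : F y - F z = σ * D c * (z - y) := by linarith
    rw [h1]
    calc σ * (σ * D c * (z - y)) = (σ * σ) * D c * (z - y) := by ring
      _ = _ := by rw [hσ]; ring
  rw [e]
  constructor
  · apply mul_le_mul_of_nonneg_left _ hzy.le
    exact hD (hy.trans hc.1.le) (hy.trans hz.le) hc.2.le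
  · apply mul_le_mul_of_nonneg_left _ hzy.le
    exact hD hy (hy.trans hc.1.le) hc.1.le

/-- the growth of `f(x0 + 1 / m)` -/
theorem growth_f {f : ℝ → ℝ} {x0 : ℝ} {k0 : ℕ} (hf : Ord f x0 k0) :
    ∃ σ : ℝ, σ * σ = 1 ∧ ∃ a : ℝ, 0 < a ∧ ∃ N0 : ℕ, 1 ≤ N0 ∧ ∀ N : ℕ, N0 ≤ N → ∀ m m' : ℕ, N < m → m ≤ m' →
      m' ≤ 2 * N → (a / (N : ℝ) ^ (k0 + 1)) * ((m' : ℝ) - m) ≤ σ * f (x0 + 1 / m) - σ * f (x0 + 1 / m') ∧
      σ * f (x0 + 1 / m) - σ * f (x0 + 1 / m') ≤ (a * (4 * 2 ^ (k0 + 1)) / (N : ℝ) ^ (k0 + 1)) * ((m' : ℝ) - m) := by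
  obtain ⟨σ, hσ, a, ha, Y0, hY0, D, hD1, hD2, hD3⟩ := mono_f hf
  refine ⟨σ, hσ, a / 2 ^ (k0 + 1), by positivity, Y0, hY0, fun N hN m m' hm hmm hm' => ?_⟩
  have hNR : (1 : ℝ) ≤ N := by exact_mod_cast hY0.trans hN
  rcases hmm.eq_or_lt with h | h
  · rw [h]
    simp
  have hmR : (Y0 : ℝ) ≤ m := by exact_mod_cast (by omega : Y0 ≤ m)
  have hmR' : (m : ℝ) < m' := by exact_mod_cast h
  have hNm : (N : ℝ) ≤ m := by exact_mod_cast hm.le
  obtain ⟨h1, h2⟩ := mono_mv hσ hD2 hD3 hmR hmR'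
  have hd : (0 : ℝ) < m' - m := by linarith
  have h3 := (hD1 m' (hmR.trans hmR'.le)).1
  have h4 := (hD1 m hmR).2
  have e1 : σ * f (x0 + 1 / m) - σ * f (x0 + 1 / m') = σ * (f (x0 + 1 / m) - f (x0 + 1 / m')) := by ring
  rw [e1]
  constructor
  · refine le_trans ?_ h1
    rw [mul_comm]
    apply mul_le_mul_of_nonneg_left _ hd.le
    refine le_trans ?_ h3
    have hm2 : (m' : ℝ) ≤ 2 * N := by exact_mod_cast hm'
    have hm0 : (0 : ℝ) < m' := by linarith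
    rw [div_div]
    apply div_le_div_of_nonneg_left ha.le (by positivity)
    rw [← mul_pow]
    exact pow_le_pow_left₀ hm0.le hm2 _
  · refine h2.trans ?_
    rw [mul_comm]
    apply mul_le_mul_of_nonneg_right _ hd.le
    refine h4.trans ?_
    have e2 : a / 2 ^ (k0 + 1) * (4 * 2 ^ (k0 + 1)) = 4 * a := by field_simp
    rw [e2]
    apply div_le_div_of_nonneg_left (by positivity) (by positivity)
    exact pow_le_pow_left₀ (by linarith) hNm _

open Pool.Agent.H469R2.NK (kusmin_landau_anti norm_sum_neg) in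
/-- the inequality of Kusmin and Landau -/
theorem kl_f {f : ℝ → ℝ} {x0 : ℝ} {k0 : ℕ} (hf : Ord f x0 k0) :
    ∃ b C : ℝ, 0 < b ∧ 0 < C ∧ ∃ N0 : ℕ, ∀ N : ℕ, N0 ≤ N → ∀ θ : ℝ, 0 < |θ| → b * |θ| ≤ (N : ℝ) ^ (k0 + 1) →
      ‖∑ m ∈ Finset.Ioc N (2 * N), Pool.Agent.H469R2.NK.e (θ * f (x0 + 1 / m))‖ ≤
        C * ((N : ℝ) ^ (k0 + 1) / |θ|) := by
  obtain ⟨σ, hσ, a, ha, Y0, hY0, D, hD1, hD2, hD3⟩ := mono_f hf
  obtain ⟨b, hb⟩ : ∃ b : ℝ, b = 8 * a := ⟨_, rfl⟩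
  refine ⟨b, 2 * 3 ^ (k0 + 1) / a, by rw [hb]; positivity, by positivity, Y0, fun N hN θ hθ hbθ => ?_⟩
  have hNR : (1 : ℝ) ≤ N := by exact_mod_cast hY0.trans hN
  have hN0 : (0 : ℝ) < N := by linarith
  -- the sign
  have hσ1 : σ = 1 ∨ σ = -1 := by
    have h1 : (σ - 1) * (σ + 1) = 0 := by linarith [hσ, sq_nonneg σ, (by ring : (σ - 1) * (σ + 1) = σ * σ - 1)]
    rcases mul_eq_zero.1 h1 with h | h
    · left; linarith
    · right; linarith
  have key : ∀ t : ℝ, 0 < t → b * t ≤ (N : ℝ) ^ (k0 + 1) →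
      ‖∑ n ∈ range N, Pool.Agent.H469R2.NK.e (-(σ * t) * f (x0 + 1 / ((N + 1 + n : ℕ) : ℝ)))‖ ≤
        2 * 3 ^ (k0 + 1) / a * ((N : ℝ) ^ (k0 + 1) / t) := by
    intro t ht hbt
    obtain ⟨μ, hμ⟩ : ∃ μ : ℝ, μ = t * a / (3 * N) ^ (k0 + 1) := ⟨_, rfl⟩
    have hμ0 : 0 < μ := by rw [hμ]; positivity
    have hμ1 : 4 * a * t / (N : ℝ) ^ (k0 + 1) ≤ 1 / 2 := by
      rw [div_le_iff₀ (by positivity)]
      rw [hb] at hbt
      linarith
    have hμ2 : μ ≤ 1 / 2 := by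
      refine le_trans ?_ hμ1
      rw [hμ]
      apply div_le_div₀ (by positivity) (by nlinarith [mul_pos ha ht]) (by positivity)
      exact pow_le_pow_left₀ hN0.le (by linarith) _
    have hdiff : ∀ n : ℕ, n ≤ N →
        t * D ((N + 1 + (n + 1) : ℕ) : ℝ) ≤ -(σ * t) * f (x0 + 1 / ((N + 1 + (n + 1) : ℕ) : ℝ)) -
          -(σ * t) * f (x0 + 1 / ((N + 1 + n : ℕ) : ℝ)) ∧
        -(σ * t) * f (x0 + 1 / ((N + 1 + (n + 1) : ℕ) : ℝ)) -
          -(σ * t) * f (x0 + 1 / ((N + 1 + n : ℕ) : ℝ)) ≤ t * D ((N + 1 + n : ℕ) : ℝ) := by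
      intro n _
      have h1 : (Y0 : ℝ) ≤ ((N + 1 + n : ℕ) : ℝ) := by exact_mod_cast (by omega : Y0 ≤ N + 1 + n)
      have h2 : ((N + 1 + n : ℕ) : ℝ) < ((N + 1 + (n + 1) : ℕ) : ℝ) := by
        exact_mod_cast (by omega : N + 1 + n < N + 1 + (n + 1))
      obtain ⟨h3, h4⟩ := mono_mv hσ hD2 hD3 h1 h2
      have h5 : ((N + 1 + (n + 1) : ℕ) : ℝ) - ((N + 1 + n : ℕ) : ℝ) = 1 := by push_cast; ring
      rw [h5, one_mul] at h3 h4
      have e1 : -(σ * t) * f (x0 + 1 / ((N + 1 + (n + 1) : ℕ) : ℝ)) -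
          -(σ * t) * f (x0 + 1 / ((N + 1 + n : ℕ) : ℝ)) =
          t * (σ * (f (x0 + 1 / ((N + 1 + n : ℕ) : ℝ)) - f (x0 + 1 / ((N + 1 + (n + 1) : ℕ) : ℝ)))) := by
        ring
      rw [e1]
      exact ⟨mul_le_mul_of_nonneg_left h3 ht.le, mul_le_mul_of_nonneg_left h4 ht.le⟩
    have hkl := kusmin_landau_anti
      (fun n => -(σ * t) * f (x0 + 1 / ((N + 1 + n : ℕ) : ℝ))) N hμ0 (fun n hn => by
        refine le_trans ?_ (hdiff n hn.le).1
        have h1 : (Y0 : ℝ) ≤ ((N + 1 + (n + 1) : ℕ) : ℝ) := by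
          exact_mod_cast (by omega : Y0 ≤ N + 1 + (n + 1))
        have h2 := (hD1 _ h1).1
        rw [hμ, mul_div_assoc]
        apply mul_le_mul_of_nonneg_left _ ht.le
        refine le_trans ?_ h2
        apply div_le_div_of_nonneg_left ha.le (by positivity)
        apply pow_le_pow_left₀ (Nat.cast_nonneg _)
        have : N + 1 + (n + 1) ≤ 3 * N := by omega
        exact_mod_cast this) (fun n hn => by
        refine (hdiff n hn.le).2.trans ?_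
        have h1 : (Y0 : ℝ) ≤ ((N + 1 + n : ℕ) : ℝ) := by
          exact_mod_cast (by omega : Y0 ≤ N + 1 + n)
        have h2 := (hD1 _ h1).2
        have h3 : t * D ((N + 1 + n : ℕ) : ℝ) ≤ 1 / 2 := by
          refine le_trans (mul_le_mul_of_nonneg_left h2 ht.le) (le_trans ?_ hμ1)
          rw [mul_div_assoc', mul_comm t]
          apply div_le_div_of_nonneg_left (by positivity) (by positivity)
          apply pow_le_pow_left₀ hN0.le
          exact_mod_cast (by omega : N ≤ N + 1 + n)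
        linarith) (fun n hn => by
        have h1 := (hdiff (n + 1) (by omega)).2
        have h2 := (hdiff n (by omega)).1
        have h3 := h1.trans h2
        exact h3)
    refine hkl.trans (le_of_eq ?_)
    rw [hμ, mul_pow]
    field_simp
  have hsum : ∀ t : ℝ, ‖∑ m ∈ Finset.Ioc N (2 * N), Pool.Agent.H469R2.NK.e (t * f (x0 + 1 / m))‖ =
      ‖∑ n ∈ range N, Pool.Agent.H469R2.NK.e (t * f (x0 + 1 / ((N + 1 + n : ℕ) : ℝ)))‖ := by
    intro t
    congr 1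
    have h1 : Finset.Ioc N (2 * N) = Finset.Ico (N + 1) (N + 1 + N) := by
      ext m
      rw [mem_Ioc, mem_Ico]
      omega
    rw [h1, Finset.sum_Ico_eq_sum_range]
    have h2 : N + 1 + N - (N + 1) = N := by omega
    rw [h2]
  rw [hsum]
  have h1 := key |θ| hθ hbθ
  have h2 : θ = -(σ * |θ|) ∨ θ = -(-(σ * |θ|)) := by
    rcases hσ1 with h | h <;> rcases abs_choice θ with h' | h' <;> rw [h, h']
    · right; ring
    · left; ring
    · left; ring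
    · right; ring
  rcases h2 with h2 | h2
  · have h4 : ∀ n : ℕ, θ * f (x0 + 1 / ((N + 1 + n : ℕ) : ℝ)) =
        -(σ * |θ|) * f (x0 + 1 / ((N + 1 + n : ℕ) : ℝ)) := by
      intro n
      conv_lhs => rw [h2]
    simp only [h4]
    exact h1
  · have h3 := norm_sum_neg (fun n : ℕ => -(σ * |θ|) * f (x0 + 1 / ((N + 1 + n : ℕ) : ℝ))) N
    have h4 : ∀ n : ℕ, θ * f (x0 + 1 / ((N + 1 + n : ℕ) : ℝ)) =
        -(-(σ * |θ|) * f (x0 + 1 / ((N + 1 + n : ℕ) : ℝ))) := by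
      intro n
      conv_lhs => rw [h2]
      ring
    simp only [h4]
    rw [h3]
    exact h1

end Pool.Agent.W2helper30.AN
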