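import Pool.Agent.W2helper30.AN.Fl
import Pool.Agent.W2helper30.AN.KL

/-!
# The exponential sums over the integer parts, for all frequencies which are not near integers
-/

set_option autoImplicit false

namespace Pool.Agent.W2helper30.AN

open Finset Real Filter Topology
open Pool.Agent.Y933.KD (e norm_e e_add)
open Pool.Agent.W2helper30.PN

lemma exp_dom (K s b : ℝ) (hb : 0 < b) (r : ℝ) (hr : 0 < r) :
    ∀ᶠ x : ℝ in atTop, K * x ^ s ≤ Real.exp (b * x ^ r) := by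
  have h1 := (isLittleO_rpow_exp_pos_mul_atTop (s / r) hb).bound
    (show (0 : ℝ) < 1 / (|K| + 1) by positivity)
  have h2 : Tendsto (fun x : ℝ => x ^ r) atTop atTop := tendsto_rpow_atTop hr
  filter_upwards [h2.eventually h1, eventually_ge_atTop (1 : ℝ)] with x hx hx1
  have hx0 : 0 < x := by linarith
  have e1 : (x ^ r) ^ (s / r) = x ^ s := by
    rw [← Real.rpow_mul hx0.le]
    congr 1
    field_simp
  rw [e1, Real.norm_of_nonneg (by positivity), Real.norm_of_nonneg (Real.exp_pos _).le] at hx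
  have hK : K ≤ |K| + 1 := by linarith [le_abs_self K]
  calc K * x ^ s ≤ (|K| + 1) * (1 / (|K| + 1) * Real.exp (b * x ^ r)) := by
        apply mul_le_mul hK hx (by positivity) (by positivity)
    _ = _ := by field_simp

lemma nat_rpow_ge (K s : ℝ) (hs : 0 < s) : ∀ᶠ N : ℕ in atTop, K ≤ (N : ℝ) ^ s :=
  ((tendsto_rpow_atTop hs).comp tendsto_natCast_atTop_atTop).eventually_ge_atTop K

/-- the sums over the integer parts, for all frequencies which are not near integers -/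
theorem floor_g {f : ℝ → ℝ} {x0 : ℝ} {k0 : ℕ} (hf : Ord f x0 k0) (δ0 ε : ℝ) (hδ0 : 0 < δ0)
    (hε : 0 < ε) (hε2 : ε < 1 / 2) (V : ℕ) :
    ∃ A N0 : ℕ, ∀ M : ℕ, N0 ≤ M → ∀ U : ℝ, Rg k0 δ0 ε M U → ∀ θ : ℝ, |θ| ≤ 1 / 2 →
    (M : ℝ) ^ k0 * (log U) ^ A ≤ |θ| * U →
    ‖∑ m ∈ Finset.Ioc M (2 * M), e (θ * ⌊U * f (x0 + 1 / m)⌋)‖ ≤ M / (log U) ^ V := by
  have hk0 := hf.2.1
  obtain ⟨δ1, hδ1⟩ : ∃ δ1 : ℝ, δ1 = min δ0 1 / 2 := ⟨_, rfl⟩
  have hδ10 : 0 < δ1 := by
    rw [hδ1]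
    have := lt_min hδ0 one_pos
    linarith
  have hδ1a : δ1 ≤ δ0 / 2 := by
    rw [hδ1]
    have := min_le_left δ0 1
    linarith
  have hδ1b : δ1 ≤ 1 / 2 := by
    rw [hδ1]
    have := min_le_right δ0 1
    linarith
  obtain ⟨c1, hc1, N1, hN1⟩ := sum_f hf δ1 (ε / 2) hδ10 (by positivity) (by linarith)
  obtain ⟨b, C, hb, hC, N2, hN2⟩ := kl_f hf
  obtain ⟨Z, hZ⟩ : ∃ Z : ℝ, Z = 2600000 := ⟨_, rfl⟩
  have hZ0 : 0 < Z := by rw [hZ]; norm_num
  obtain ⟨y1, hy1⟩ := eventually_atTop.1 (exp_dom 1200000 (3 * V : ℝ) 1 one_pos 1 one_pos)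
  obtain ⟨y2, hy2⟩ := eventually_atTop.1 (exp_dom Z (8 * V : ℝ) (c1 / 4) (by positivity)
    (2 * ε) (by positivity))
  obtain ⟨N3, hN3⟩ := eventually_atTop.1 ((((ev_loge (max (max y1 y2) (max 1 (C * Z)))).and
    (lpow (by linarith : (3 / 2 - ε : ℝ) < 3 / 2 - ε / 2) 2)).and
    (nat_rpow_ge b (1 / 2) (by norm_num))).and (nat_rpow_ge 2 (δ0 / 2) (by positivity)))
  refine ⟨4 * V + 1, max (max N1 N2) (max N3 2), fun M hM U hU θ hθ2 hθ1 => ?_⟩
  have hNN1 : N1 ≤ M := le_of_max_le_left (le_of_max_le_left hM)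
  have hNN2 : N2 ≤ M := le_of_max_le_right (le_of_max_le_left hM)
  have hNN3 : N3 ≤ M := le_of_max_le_left (le_of_max_le_right hM)
  have hM2 : 2 ≤ M := le_of_max_le_right (le_of_max_le_right hM)
  obtain ⟨⟨⟨ha, hlp⟩, hbM⟩, hM2δ⟩ := hN3 M hNN3
  have hMR : (2 : ℝ) ≤ M := by exact_mod_cast hM2
  have hM0 : (0 : ℝ) < M := by linarith
  have hM1 : (1 : ℝ) ≤ M := by linarith
  have hlU := hU.log_le hk0 hδ0 (by omega)
  have hSge := hU.sv_ge hk0 hδ0 hM2
  obtain ⟨L, hL⟩ : ∃ L : ℝ, L = log M := ⟨_, rfl⟩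
  obtain ⟨l, hl⟩ : ∃ l : ℝ, l = log U := ⟨_, rfl⟩
  rw [← hL] at ha hlp hlU hSge
  rw [← hl] at hlU hθ1 ⊢
  have hLy1 : y1 ≤ L := le_trans (le_trans (le_max_left _ _) (le_max_left _ _)) ha
  have hLy2 : y2 ≤ L := le_trans (le_trans (le_max_right _ _) (le_max_left _ _)) ha
  have hL1 : 1 ≤ L := le_trans (le_trans (le_max_left _ _) (le_max_right _ _)) ha
  have hLC : C * Z ≤ L := le_trans (le_trans (le_max_right _ _) (le_max_right _ _)) ha
  have hl1 : 1 ≤ l := hL1.trans hlU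
  have hL0 : 0 < L := by linarith
  have hl0 : 0 < l := by linarith
  have hU0 : 0 < U := lt_of_lt_of_le (by positivity) hU.lo
  have hUhi : l ≤ L ^ (3 / 2 - ε) := by
    rw [hl, Real.log_le_iff_le_exp hU0, hL]
    exact hU.hi
  have hlL2 : l ≤ L ^ (2 : ℝ) := hUhi.trans (Real.rpow_le_rpow_of_exponent_le hL1 (by linarith))
  -- the number `Q`
  obtain ⟨Q, hQ⟩ : ∃ Q : ℕ, Q = ⌈20 * l ^ V⌉₊ := ⟨_, rfl⟩
  have hlV : 1 ≤ l ^ V := one_le_pow₀ hl1
  have hQ1 : 20 * l ^ V ≤ Q := by rw [hQ]; exact Nat.le_ceil _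
  have hQ2 : (Q : ℝ) ≤ 21 * l ^ V := by
    have : (Q : ℝ) < 20 * l ^ V + 1 := by rw [hQ]; exact Nat.ceil_lt_add_one (by positivity)
    linarith
  have hQ0 : (0 : ℝ) < Q := by linarith
  have hQ3 : 1 ≤ Q := by exact_mod_cast hQ0
  have hQR : (1 : ℝ) ≤ Q := by exact_mod_cast hQ3
  have hQ4 : (Q : ℝ) ^ 3 ≤ 9261 * l ^ (3 * V) := by
    calc (Q : ℝ) ^ 3 ≤ (21 * l ^ V) ^ 3 := by gcongr
      _ = _ := by rw [mul_pow, ← pow_mul, mul_comm V 3]; norm_num
  have hQ31 : 1 ≤ (Q : ℝ) ^ 3 := one_le_pow₀ hQR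
  obtain ⟨E, hE⟩ : ∃ E : ℝ, E = M / (Z * l ^ (4 * V)) := ⟨_, rfl⟩
  have hE0 : 0 ≤ E := by rw [hE]; positivity
  have hQexp : 128 * (Q : ℝ) ^ 3 + 1 ≤ Real.exp l := by
    have h1 := hy1 l (hLy1.trans hlU)
    rw [Real.rpow_one, one_mul] at h1
    have h2 : l ^ (3 * V : ℝ) = l ^ (3 * V) := by
      have : (3 * V : ℝ) = ((3 * V : ℕ) : ℝ) := by push_cast; ring
      rw [this, Real.rpow_natCast]
    rw [h2] at h1
    have h3 : 1 ≤ l ^ (3 * V) := one_le_pow₀ hl1
    linarith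
  have hbigE : M * Real.exp (-(c1 / 4 * L ^ (2 * ε))) ≤ E := by
    rw [hE, Real.exp_neg, ← div_eq_mul_inv]
    apply div_le_div_of_nonneg_left hM0.le (by positivity)
    refine le_trans ?_ (hy2 L hLy2)
    apply mul_le_mul_of_nonneg_left _ hZ0.le
    calc l ^ (4 * V) ≤ (L ^ (2 : ℝ)) ^ (4 * V) := pow_le_pow_left₀ hl0.le hlL2 _
      _ = L ^ (8 * V : ℝ) := by
          rw [← Real.rpow_natCast, ← Real.rpow_mul hL0.le]
          congr 1
          push_cast
          ring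
  have hbig : ∀ t : ℝ, (M : ℝ) ^ ((k0 : ℝ) + δ1) ≤ |t| * U → |t| ≤ 128 * (Q : ℝ) ^ 3 + 1 →
      ‖∑ m ∈ Finset.Ioc M (2 * M), e (t * (U * f (x0 + 1 / m)))‖ ≤ E := by
    intro t ht1 ht2
    have habs : |t * U| = |t| * U := by rw [abs_mul, abs_of_pos hU0]
    have htU0 : 0 < |t| * U := lt_of_lt_of_le (by positivity) ht1
    have ht0 : 0 < |t| := by
      by_contra hcon
      have : |t| = 0 := le_antisymm (not_lt.1 hcon) (abs_nonneg t)
      rw [this, zero_mul] at htU0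
      exact lt_irrefl _ htU0
    have h2 : log |t * U| ≤ 2 * l := by
      rw [habs, Real.log_mul ht0.ne' hU0.ne', ← hl]
      have h3 : log |t| ≤ l := by
        rw [Real.log_le_iff_le_exp ht0]
        linarith
      linarith
    have h3 : |t * U| ≤ Real.exp (L ^ (3 / 2 - ε / 2)) := by
      rw [← Real.log_le_iff_le_exp (by rw [habs]; positivity)]
      linarith
    have h4 := hN1 M hNN1 (t * U) (by rw [habs]; exact ht1) (by rw [← hL]; exact h3)
    have h5 : ∀ m : ℕ, t * (U * f (x0 + 1 / m)) = t * U * f (x0 + 1 / m) := fun m => by ring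
    simp only [h5]
    refine h4.trans (le_trans ?_ hbigE)
    refine mul_le_mul_of_nonneg_left (Real.exp_le_exp.2 ?_) hM0.le
    rw [← hL]
    have h6 : L ≤ log |t * U| := by
      rw [hL, habs]
      refine Real.log_le_log hM0 (le_trans ?_ ht1)
      have hk0R : (1 : ℝ) ≤ k0 := by exact_mod_cast hk0
      have := Real.rpow_le_rpow_of_exponent_le hM1 (by linarith : (1 : ℝ) ≤ k0 + δ1)
      rwa [Real.rpow_one] at this
    have h7 : Sv M U / 4 ≤ L ^ 3 / (log |t * U|) ^ 2 := by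
      unfold Sv
      rw [← hL, ← hl, div_div]
      apply div_le_div_of_nonneg_left (by positivity) (by
        have : 0 < log |t * U| := by linarith
        positivity)
      have h8 : 0 ≤ log |t * U| := by linarith
      calc (log |t * U|) ^ 2 ≤ (2 * l) ^ 2 := by gcongr
        _ = _ := by ring
    have h8 : c1 / 4 * L ^ (2 * ε) ≤ c1 * (L ^ 3 / (log |t * U|) ^ 2) := by
      calc c1 / 4 * L ^ (2 * ε) ≤ c1 / 4 * Sv M U := by gcongr
        _ = c1 * (Sv M U / 4) := by ring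
        _ ≤ _ := by gcongr
    linarith
  have hhalf : ∀ t : ℝ, 1 / 2 ≤ |t| → (M : ℝ) ^ ((k0 : ℝ) + δ1) ≤ |t| * U := by
    intro t ht
    calc (M : ℝ) ^ ((k0 : ℝ) + δ1) ≤ (M : ℝ) ^ ((k0 : ℝ) + δ1) * ((M : ℝ) ^ (δ0 / 2) / 2) := by
          apply le_mul_of_one_le_right (by positivity)
          linarith
      _ = 1 / 2 * ((M : ℝ) ^ ((k0 : ℝ) + δ1) * (M : ℝ) ^ (δ0 / 2)) := by ring
      _ = 1 / 2 * (M : ℝ) ^ ((k0 : ℝ) + δ1 + δ0 / 2) := by rw [Real.rpow_add hM0 _ (δ0 / 2)]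
      _ ≤ 1 / 2 * (M : ℝ) ^ ((k0 : ℝ) + δ0) := by
          apply mul_le_mul_of_nonneg_left _ (by norm_num)
          exact Real.rpow_le_rpow_of_exponent_le hM1 (by linarith)
      _ ≤ |t| * U := mul_le_mul ht hU.lo (by positivity) (abs_nonneg t)
  have hsmall : ‖∑ m ∈ Finset.Ioc M (2 * M), e (θ * (U * f (x0 + 1 / m)))‖ ≤ E := by
    rcases le_or_gt ((M : ℝ) ^ ((k0 : ℝ) + δ1)) (|θ| * U) with h | h
    · exact hbig θ h (by linarith)
    · have habs : |θ * U| = |θ| * U := by rw [abs_mul, abs_of_pos hU0]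
      have hMk : 0 < (M : ℝ) ^ k0 := by positivity
      have hpos : 0 < |θ * U| := by
        rw [habs]
        exact lt_of_lt_of_le (by positivity) hθ1
      have h1 := hN2 M hNN2 (θ * U) hpos (by
        rw [habs]
        calc b * (|θ| * U) ≤ (M : ℝ) ^ (1 / 2 : ℝ) * (M : ℝ) ^ ((k0 : ℝ) + δ1) :=
              mul_le_mul hbM h.le (by rw [← habs]; exact hpos.le) (by positivity)
          _ = (M : ℝ) ^ ((k0 : ℝ) + (δ1 + 1 / 2)) := by
              rw [← Real.rpow_add hM0]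
              congr 1
              ring
          _ ≤ (M : ℝ) ^ ((k0 : ℝ) + 1) := Real.rpow_le_rpow_of_exponent_le hM1 (by linarith)
          _ = (M : ℝ) ^ (k0 + 1) := by norm_cast)
      have h5 : ∀ m : ℕ, θ * (U * f (x0 + 1 / m)) = θ * U * f (x0 + 1 / m) := fun m => by ring
      simp only [h5]
      refine h1.trans ?_
      rw [habs, hE]
      calc C * ((M : ℝ) ^ (k0 + 1) / (|θ| * U)) ≤ C * ((M : ℝ) ^ (k0 + 1) /
            ((M : ℝ) ^ k0 * l ^ (4 * V + 1))) := by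
            apply mul_le_mul_of_nonneg_left _ hC.le
            apply div_le_div_of_nonneg_left (by positivity) (by positivity) hθ1
        _ = C * M / (l * l ^ (4 * V)) := by
            rw [pow_succ (M : ℝ) k0, pow_succ l (4 * V)]
            field_simp
        _ ≤ M / (Z * l ^ (4 * V)) := by
            rw [div_le_div_iff₀ (by positivity) (by positivity)]
            have h6 : C * Z ≤ l := hLC.trans hlU
            have h7 : 0 ≤ M * l ^ (4 * V) := by positivity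
            have h8 := mul_le_mul_of_nonneg_right h6 h7
            linarith
  have hint : ∀ m : ℤ, |(m : ℝ)| < 128 * (Q : ℝ) ^ 3 → |θ + m| ≤ 128 * (Q : ℝ) ^ 3 + 1 := by
    intro m hm
    refine (abs_add_le _ _).trans ?_
    linarith
  have hmain := Pool.Agent.N193.PS.floor_sum (Finset.Ioc M (2 * M))
    (fun m : ℕ => U * f (x0 + 1 / m)) Q hQ3 θ (by linarith) E hE0
    (fun m hm => by
      have hm' : |(m : ℝ)| < 128 * (Q : ℝ) ^ 3 := by exact_mod_cast hm
      by_cases hm0 : m = 0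
      · rw [hm0, Int.cast_zero, add_zero]
        exact hsmall
      · have h1 : (1 : ℝ) ≤ |(m : ℝ)| := by
          have := Int.one_le_abs hm0
          exact_mod_cast this
        have h2 : |(m : ℝ)| ≤ |θ + m| + |θ| := by
          have h3 : (m : ℝ) = (θ + m) + (-θ) := by ring
          calc |(m : ℝ)| = |(θ + m) + (-θ)| := by rw [← h3]
            _ ≤ |θ + m| + |-θ| := abs_add_le _ _
            _ = _ := by rw [abs_neg]
        exact hbig (θ + m) (hhalf _ (by linarith)) (hint m hm'))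
    (fun m hm0 hm => by
      have h1 : (1 : ℝ) ≤ |(m : ℝ)| := by
        have := Int.one_le_abs hm0
        exact_mod_cast this
      have h2 : |(m : ℝ)| < Q := by exact_mod_cast hm
      have h3 : (Q : ℝ) ≤ (Q : ℝ) ^ 3 := by
        have h4 : (Q : ℝ) ^ 1 ≤ (Q : ℝ) ^ 3 := pow_le_pow_right₀ hQR (by norm_num)
        rwa [pow_one] at h4
      exact hbig m (hhalf _ (by linarith)) (by linarith))
  have hcard : ((Finset.Ioc M (2 * M)).card : ℝ) = M := by
    rw [Nat.card_Ioc]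
    congr 1
    omega
  rw [hcard] at hmain
  refine hmain.trans ?_
  have hp1 : (128 * (Q : ℝ) ^ 3 + 8) * E ≤ M / l ^ V / 2 := by
    calc (128 * (Q : ℝ) ^ 3 + 8) * E ≤ (136 * (9261 * l ^ (3 * V))) * E := by
          apply mul_le_mul_of_nonneg_right _ hE0
          linarith
      _ ≤ (1300000 * l ^ (3 * V)) * E := by
          apply mul_le_mul_of_nonneg_right _ hE0
          have : 0 ≤ l ^ (3 * V) := by positivity
          linarith
      _ = _ := by
          rw [hE, hZ, show 4 * V = 3 * V + V by ring, pow_add]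
          field_simp
          norm_num
  have hp2 : 10 * ((M : ℝ) / Q) ≤ M / l ^ V / 2 := by
    calc 10 * ((M : ℝ) / Q) ≤ 10 * (M / (20 * l ^ V)) := by
          apply mul_le_mul_of_nonneg_left _ (by norm_num)
          exact div_le_div_of_nonneg_left hM0.le (by positivity) hQ1
      _ = _ := by field_simp; norm_num
  linarith

end Pool.Agent.W2helper30.AN
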