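import Pool.Agent.W2helper30.AN.Sum

/-!
# The exponential sums over the values `θ f(x0 + 1 / m)` of one analytic function
-/

set_option autoImplicit false

namespace Pool.Agent.W2helper30.AN

open Finset Real Filter Topology
open Pool.Agent.Y933.KD (e norm_e e_add)
open Pool.Agent.W2helper30.PN

/-- `k0` is the order of `f - f(x0)` at `x0` -/
def Ord (f : ℝ → ℝ) (x0 : ℝ) (k0 : ℕ) : Prop :=
  AnalyticAt ℝ f x0 ∧ 1 ≤ k0 ∧ (∀ k, 1 ≤ k → k < k0 → iteratedDeriv k f x0 = 0) ∧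
    iteratedDeriv k0 f x0 ≠ 0

/-- sums of `e(θ f(x0 + 1 / m))` -/
theorem sum_f {f : ℝ → ℝ} {x0 : ℝ} {k0 : ℕ} (hf : Ord f x0 k0) (δ0 ε : ℝ) (hδ0 : 0 < δ0)
    (hε : 0 < ε) (hε2 : ε < 1 / 2) :
    ∃ c : ℝ, 0 < c ∧ ∃ N0 : ℕ, ∀ N : ℕ, N0 ≤ N → ∀ θ : ℝ, (N : ℝ) ^ ((k0 : ℝ) + δ0) ≤ |θ| →
    |θ| ≤ Real.exp ((log N) ^ (3 / 2 - ε)) →
    ‖∑ m ∈ Finset.Ioc N (2 * N), e (θ * f (x0 + 1 / m))‖ ≤
      N * Real.exp (-(c * ((log N) ^ 3 / (log |θ|) ^ 2))) := by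
  obtain ⟨hfa, hk0, hz, hne⟩ := hf
  obtain ⟨A, P, hF⟩ := fam (R := 1) (f := fun _ => f) (x0 := x0) (fun _ => hfa)
  have hP1 := hF.P1
  have hA0 := hF.A0
  have hz' : ∀ k, 1 ≤ k → k < k0 → ∑ _i : Fin 1, (1 : ℝ) * tc f x0 k = 0 := by
    intro k h1 h2
    simp [tc, hz k h1 h2]
  obtain ⟨lam, hlam⟩ : ∃ lam : ℝ, lam = |tc f x0 k0| := ⟨_, rfl⟩
  have hlam0 : 0 < lam := by
    rw [hlam]
    apply abs_pos.2
    unfold tc
    have : (k0.factorial : ℝ) ≠ 0 := by positivity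
    exact div_ne_zero hne this
  obtain ⟨c, hc, N1, hN1⟩ := sum_all2 k0 P (δ0 / 2) (ε / 2) (by linarith) (by positivity)
    (by positivity) (by linarith)
  -- conditions on `N`
  have hev1 : ∀ᶠ N : ℕ in atTop, 1 / lam ≤ (N : ℝ) ^ (δ0 / 2) :=
    ((tendsto_rpow_atTop (by positivity : 0 < δ0 / 2)).comp
      tendsto_natCast_atTop_atTop).eventually_ge_atTop _
  have hev2 : ∀ᶠ N : ℕ in atTop, A * P ^ k0 / lam ≤ (N : ℝ) ^ (1 / 4 : ℝ) :=
    ((tendsto_rpow_atTop (by norm_num : (0 : ℝ) < 1 / 4)).comp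
      tendsto_natCast_atTop_atTop).eventually_ge_atTop _
  obtain ⟨N2, hN2⟩ := eventually_atTop.1 (((hev1.and hev2).and
    ((ev_loge (max 1 |log lam|)).and (lpow (by linarith : (3 / 2 - ε : ℝ) < 3 / 2 - ε / 2) 2))).and
    (ev_loge 1))
  refine ⟨c / 9, by positivity, max N1 (max N2 (max 1 ⌈P⌉₊)), fun N hN θ hθ1 hθ2 => ?_⟩
  have hNN1 : N1 ≤ N := le_of_max_le_left hN
  obtain ⟨⟨⟨ha, hb⟩, hlg, hpw⟩, hL1'⟩ := hN2 N (le_of_max_le_left (le_of_max_le_right hN))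
  have hN1' : 1 ≤ N := le_of_max_le_left (le_of_max_le_right (le_of_max_le_right hN))
  have hNP : P ≤ N := (Nat.le_ceil P).trans (by
    exact_mod_cast le_of_max_le_right (le_of_max_le_right (le_of_max_le_right hN)))
  have hNR : (1 : ℝ) ≤ N := by exact_mod_cast hN1'
  have hNp : (0 : ℝ) < N := by linarith
  obtain ⟨L, hL⟩ : ∃ L : ℝ, L = log N := ⟨_, rfl⟩
  rw [← hL] at hlg hpw hθ2 hL1' ⊢
  have hL1 : 1 ≤ L := hL1'
  have hL0 : 0 < L := by linarith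
  have hlg2 : |log lam| ≤ L := (le_max_right _ _).trans hlg
  have hk0R : (1 : ℝ) ≤ k0 := by exact_mod_cast hk0
  have hθ0 : 0 < |θ| := lt_of_lt_of_le (by positivity) hθ1
  have hlθ : L ≤ log |θ| := by
    have h1 : (N : ℝ) ^ (1 : ℝ) ≤ |θ| := by
      refine le_trans ?_ hθ1
      exact Real.rpow_le_rpow_of_exponent_le hNR (by linarith)
    rw [Real.rpow_one] at h1
    rw [hL]
    exact Real.log_le_log hNp h1
  obtain ⟨γ, hγ⟩ : ∃ γ : ℕ → ℝ, γ = fun k => θ * ∑ _i : Fin 1, (1 : ℝ) * tc f x0 k := ⟨_, rfl⟩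
  have hγ' : ∀ k, |γ k| = |θ| * |tc f x0 k| := by
    intro k
    rw [hγ]
    simp [abs_mul]
  have hγk0 : |γ k0| = |θ| * lam := by rw [hγ', hlam]
  have hγ0 : 0 < |γ k0| := by rw [hγk0]; positivity
  obtain ⟨W, hWd⟩ : ∃ W : ℝ, W = A * P ^ k0 / lam := ⟨_, rfl⟩
  have hW0 : 0 ≤ W := by rw [hWd]; positivity
  have hWlam : W * lam = A * P ^ k0 := by
    rw [hWd]
    field_simp
  have hDm : ∀ k1, k0 ≤ k1 → Dm k0 k1 γ P W := by
    intro k1 hk1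
    refine ⟨hk0, hk1, abs_pos.1 hγ0, by linarith, hW0, fun k hk _ => ?_⟩
    have e1 : P ^ k = P ^ k0 * P ^ (k - k0) := by
      rw [← pow_add]
      congr 1
      omega
    have e2 := hF.co 0 k
    calc |γ k| = |θ| * |tc f x0 k| := hγ' k
      _ ≤ |θ| * (A * P ^ k) := by gcongr
      _ = |θ| * (A * P ^ k0) * P ^ (k - k0) := by rw [e1]; ring
      _ = W * (|θ| * lam) * P ^ (k - k0) := by rw [← hWlam]; ring
      _ = W * |γ k0| * P ^ (k - k0) := by rw [hγk0]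
  obtain ⟨T, hT⟩ : ∃ T : ℝ, T = |γ k0| / (N : ℝ) ^ k0 := ⟨_, rfl⟩
  have hT0 : 0 < T := by rw [hT]; positivity
  have hT1 : (N : ℝ) ^ (δ0 / 2) ≤ T := by
    rw [hT, hγk0, le_div_iff₀ (by positivity)]
    rw [div_le_iff₀ hlam0] at ha
    calc (N : ℝ) ^ (δ0 / 2) * (N : ℝ) ^ k0 ≤
          (N : ℝ) ^ (δ0 / 2) * (N : ℝ) ^ k0 * ((N : ℝ) ^ (δ0 / 2) * lam) :=
          le_mul_of_one_le_right (by positivity) ha
      _ = (N : ℝ) ^ ((k0 : ℝ) + δ0) * lam := by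
          rw [Real.rpow_add hNp, Real.rpow_natCast, ← add_halves δ0, Real.rpow_add hNp, add_halves]
          ring
      _ ≤ |θ| * lam := by gcongr
  have hTle : T ≤ |θ| * lam := by
    rw [hT, hγk0]
    exact div_le_self (by positivity) (one_le_pow₀ hNR)
  have hT2 : T ≤ Real.exp (L ^ (3 / 2 - ε / 2)) := by
    have h1 : lam ≤ Real.exp L := by
      rw [← Real.log_le_iff_le_exp hlam0]
      exact (le_abs_self _).trans hlg2
    have h2 : L ≤ L ^ (3 / 2 - ε) := by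
      have := Real.rpow_le_rpow_of_exponent_le hL1 (by linarith : (1 : ℝ) ≤ 3 / 2 - ε)
      rwa [Real.rpow_one] at this
    calc T ≤ |θ| * lam := hTle
      _ ≤ Real.exp (L ^ (3 / 2 - ε)) * Real.exp L := by gcongr
      _ = Real.exp (L ^ (3 / 2 - ε) + L) := by rw [Real.exp_add]
      _ ≤ _ := Real.exp_le_exp.2 (by linarith)
  -- the limit
  have hlim : Tendsto (fun k1 : ℕ => ‖∑ m ∈ Finset.Ioc N (2 * N), e (fz k0 k1 γ m)‖) atTop
      (𝓝 ‖∑ m ∈ Finset.Ioc N (2 * N), e (θ * ∑ _i : Fin 1, (1 : ℝ) * f (x0 + 1 / m) -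
        θ * ∑ _i : Fin 1, (1 : ℝ) * tc f x0 0)‖) := by
    refine Tendsto.norm (tendsto_finsetSum _ fun m hm => ?_)
    rw [Finset.mem_Ioc] at hm
    have h1 : P ≤ (m : ℝ) := hNP.trans (by exact_mod_cast hm.1.le)
    have h2 := fz_lim hF (fun _ => 1) θ k0 hk0 hz' h1
    rw [hγ]
    exact (cont_e.tendsto _).comp h2
  have h3 : ‖∑ m ∈ Finset.Ioc N (2 * N), e (θ * ∑ _i : Fin 1, (1 : ℝ) * f (x0 + 1 / m) -
        θ * ∑ _i : Fin 1, (1 : ℝ) * tc f x0 0)‖ ≤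
        N * Real.exp (-(c * (L ^ 3 / (L + log T) ^ 2))) := by
    refine le_of_tendsto hlim ?_
    filter_upwards [eventually_ge_atTop k0] with k1 hk1
    have h5 := hN1 N hNN1 k0 k1 γ W (hDm k1 hk1) le_rfl (by rw [hWd]; exact hb)
      (by rw [← hT]; exact hT1) (by rw [← hT, ← hL]; exact hT2)
    rw [← hT, ← hL] at h5
    exact h5
  have h4 : ‖∑ m ∈ Finset.Ioc N (2 * N), e (θ * f (x0 + 1 / m))‖ =
      ‖∑ m ∈ Finset.Ioc N (2 * N),
        e (θ * ∑ _i : Fin 1, (1 : ℝ) * f (x0 + 1 / m) - θ * ∑ _i : Fin 1, (1 : ℝ) * tc f x0 0)‖ := by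
    have h5 : ∑ m ∈ Finset.Ioc N (2 * N), e (θ * f (x0 + 1 / m)) =
        e (θ * tc f x0 0) * ∑ m ∈ Finset.Ioc N (2 * N),
        e (θ * ∑ _i : Fin 1, (1 : ℝ) * f (x0 + 1 / m) - θ * ∑ _i : Fin 1, (1 : ℝ) * tc f x0 0) := by
      rw [Finset.mul_sum]
      refine Finset.sum_congr rfl fun m _ => ?_
      rw [← e_add]
      congr 1
      simp
    rw [h5, norm_mul, norm_e, one_mul]
  rw [h4]
  refine h3.trans (mul_le_mul_of_nonneg_left (Real.exp_le_exp.2 ?_) hNp.le)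
  have hlT0 : 0 ≤ log T := by
    apply Real.log_nonneg
    refine le_trans ?_ hT1
    exact Real.one_le_rpow hNR (by positivity)
  have hlT : L + log T ≤ 3 * log |θ| := by
    have h6 : log T ≤ log |θ| + log lam := by
      rw [← Real.log_mul hθ0.ne' hlam0.ne']
      exact Real.log_le_log hT0 hTle
    have h7 := le_abs_self (log lam)
    linarith
  have h8 : c / 9 * (L ^ 3 / (log |θ|) ^ 2) ≤ c * (L ^ 3 / (L + log T) ^ 2) := by
    have h9 : 0 < L + log T := by linarith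
    have h10 : 0 < log |θ| := by linarith
    have h11 : L ^ 3 / (log |θ|) ^ 2 / 9 ≤ L ^ 3 / (L + log T) ^ 2 := by
      rw [div_div]
      apply div_le_div_of_nonneg_left (by positivity) (by positivity)
      calc (L + log T) ^ 2 ≤ (3 * log |θ|) ^ 2 := by gcongr
        _ = _ := by ring
    calc c / 9 * (L ^ 3 / (log |θ|) ^ 2) = c * (L ^ 3 / (log |θ|) ^ 2 / 9) := by ring
      _ ≤ _ := by gcongr
  linarith

end Pool.Agent.W2helper30.AN
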