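import Pool.Agent.W2helper30.AN.Tup
import Pool.Agent.Y958.RM.Main
import Pool.Agent.Y958.RM.Cor
import Pool.Agent.R501.LP1

/-!
# The values `c₀ + κ ⌊U f(x0 + 1 / m)⌋` as moduli: the variance of the primes in the residue classes, least primes
-/

set_option autoImplicit false

namespace Pool.Agent.W2helper30.AN

open Finset Real Filter Topology
open Pool.Agent.Y885 (TLaw)
open Pool.Agent.Y958.RM (BadQ eH)
open Pool.Agent.R501.LP (LpG)

open Classical in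
/-- the variance for the moduli `cc + κ v`, in terms of the class -/
theorem AC_badq {f : ℝ → ℝ} {x0 : ℝ} {k0 : ℕ} (hf : Ord f x0 k0) (δ0 ε : ℝ) (hδ0 : 0 < δ0)
    (hε : 0 < ε) (hε2 : ε < 1 / 2) (a : ℕ) (κ : ℤ) (hκ : κ ≠ 0) (e₀ A U : ℕ) (η : ℝ) (hη : 0 < η) (hη1 : η ≤ 1) :
    ∃ m₀ : ℕ, ∀ m : ℕ, m₀ ≤ m → ∀ p, AC f x0 k0 δ0 ε a m p → ∀ cc : ℤ,
    (∀ v : ℕ, v < 2 ^ m → |cc + κ * (v : ℕ)| ≤ 2 ^ (m + e₀)) →
    ∑ v ∈ range (2 ^ m), (if BadQ η A (m + e₀) 2 (cc + κ * (v : ℕ)) then p v else 0) ≤ 1 / ((m : ℕ) : ℝ) ^ U := by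
  obtain ⟨V, hV⟩ := Pool.Agent.Y958.RM.main Pool.Agent.Y958.RM.cor A U 2 3 le_rfl (by norm_num)
  obtain ⟨H, hH⟩ : ∃ H, H = 2 * (A + 1) := ⟨_, rfl⟩
  rw [← hH] at hV
  obtain ⟨C₀, m₁, h1⟩ := AC_tlaw hf δ0 ε hδ0 hε hε2 a κ hκ (H * 2 + e₀ + 4) V
  obtain ⟨k₀, h2⟩ := hV η hη hη1 C₀
  refine ⟨m₁ + k₀ + e₀ + 4, fun m hm p hp cc hcc => ?_⟩
  have hsum := AC_sum hp
  -- the sizes
  obtain ⟨e, he⟩ : ∃ e, e = eH 2 H (m + e₀) := ⟨_, rfl⟩
  have hm4 : 4 ≤ m := by omega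
  have hpow : 2 ^ (e + 1) ≤ 8 * (m + e₀) ^ H := by
    have h3 : (m + e₀) ^ H ≠ 0 := by
      apply pow_ne_zero
      omega
    have h4 := Nat.pow_log_le_self 2 h3
    rw [he]
    unfold eH
    rw [show Nat.log 2 ((m + e₀) ^ H) + 2 + 1 = Nat.log 2 ((m + e₀) ^ H) + 3 by ring, pow_add]
    omega
  have hpow2 : 8 * (m + e₀) ^ H ≤ m ^ (H * 2 + 2) := by
    have h3 : m + e₀ ≤ m ^ 2 := by nlinarith
    calc 8 * (m + e₀) ^ H ≤ m ^ 2 * (m ^ 2) ^ H := by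
          apply Nat.mul_le_mul _ (Nat.pow_le_pow_left h3 H)
          nlinarith
      _ = m ^ (H * 2 + 2) := by rw [← pow_mul, ← pow_add]; congr 1; ring
  have h2e0 : 2 ^ e₀ ≤ m ^ e₀ := Nat.pow_le_pow_left (by omega) e₀
  have key := h2 (m + e₀) (by omega) ℕ (range (2 ^ m)) p (fun v => cc + κ * (v : ℕ)) hsum (fun g hg1 hg2 => by
      rw [← he] at hg2 ⊢
      rw [show m + e₀ + e = m + (e₀ + e) by ring]
      refine h1 m (by omega) p hp (e₀ + e) g ?_ hg1 ?_ cc _ rfl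
      · rw [pow_add]
        calc 2 ^ e₀ * 2 ^ e ≤ m ^ e₀ * m ^ (H * 2 + 2) := by
              apply Nat.mul_le_mul h2e0
              refine le_trans ?_ (hpow.trans hpow2)
              exact Nat.pow_le_pow_right (by norm_num) (by omega)
          _ = m ^ (e₀ + (H * 2 + 2)) := by rw [← pow_add]
          _ ≤ m ^ (H * 2 + e₀ + 4) := Nat.pow_le_pow_right (by omega) (by omega)
      · have h3 : g < 2 ^ (e + 1) := by
          have h4 := Nat.lt_pow_succ_log_self (b := 2) (by norm_num) g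
          exact lt_of_lt_of_le h4 (Nat.pow_le_pow_right (by norm_num) (by omega))
        calc g ≤ 2 ^ (e + 1) := h3.le
          _ ≤ m ^ (H * 2 + 2) := hpow.trans hpow2
          _ ≤ m ^ (H * 2 + e₀ + 4) := Nat.pow_le_pow_right (by omega) (by omega))
    (fun v hv => by
      rw [mem_range] at hv
      exact_mod_cast hcc v hv)
    (fun v => BadQ η A (m + e₀) 2 (cc + κ * (v : ℕ))) (fun _ => Classical.propDecidable _) (fun v _ hb => ?_)
  · refine le_trans (le_of_eq ?_) (key.trans ?_)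
    · congr!
    · apply one_div_le_one_div_of_le
      · have : (0 : ℝ) < m := by exact_mod_cast (by omega : 0 < m)
        positivity
      · apply pow_le_pow_left₀ (Nat.cast_nonneg _)
        exact_mod_cast (by omega : m ≤ m + e₀)
  · obtain ⟨g1, y, g2, g3, g4⟩ := hb
    refine ⟨by exact_mod_cast g1, y, g2, g3, g4⟩

/-- the property of the modulus for different exponents -/
lemma LpG_mono {η : ℝ} {A A' Q : ℕ} (hA : A ≤ A') (hQ : 3 ≤ Q) (h : LpG η A' Q) : LpG η A Q := by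
  intro x hx1 hx2
  apply h x hx1 (hx2.trans _)
  apply mul_le_mul_of_nonneg_left _ (Nat.cast_nonneg _)
  have hQ3 : (3 : ℝ) ≤ Q := by exact_mod_cast hQ
  have hlog1 : 1 ≤ Real.log Q := by
    rw [Real.le_log_iff_exp_le (by linarith)]
    have := Real.exp_one_lt_d9
    linarith
  exact pow_le_pow_right₀ hlog1 hA

open Classical in
/-- least primes for almost all the positive moduli -/
theorem AC_lp {f : ℝ → ℝ} {x0 : ℝ} {k0 : ℕ} (hf : Ord f x0 k0) (δ0 ε : ℝ) (hδ0 : 0 < δ0)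
    (hε : 0 < ε) (hε2 : ε < 1 / 2) (a : ℕ) (κ : ℤ) (hκ : κ ≠ 0) (e₀ A U : ℕ) (η : ℝ) (hη : 0 < η) (hη1 : η ≤ 1) :
    ∃ m₀ : ℕ, ∀ m : ℕ, m₀ ≤ m → ∀ p, AC f x0 k0 δ0 ε a m p → ∀ cc : ℤ,
    (∀ v : ℕ, v < 2 ^ m → |cc + κ * (v : ℕ)| ≤ 2 ^ (m + e₀)) →
    ∑ v ∈ range (2 ^ m), (if (0 < cc + κ * (v : ℕ) → LpG η A (cc + κ * (v : ℕ)).toNat) then 0 else p v) ≤
      1 / ((m : ℕ) : ℝ) ^ U := by
  obtain ⟨W, K₁, hanti⟩ := (AC_clsV hf δ0 ε hδ0 hε hε2 a κ hκ).toCls.anti e₀ U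
  obtain ⟨B, hB⟩ : ∃ B, B = max A (W + 1) := ⟨_, rfl⟩
  obtain ⟨m₁, hbad⟩ := AC_badq hf δ0 ε hδ0 hε hε2 a κ hκ e₀ (B + 1) (U + 1) (η / 4) (by linarith) (by linarith)
  obtain ⟨k₀, hlp⟩ := Pool.Agent.R501.LP.badq_of_lp 2 0 B le_rfl η hη hη1
  obtain ⟨k₂, hk₂⟩ : ∃ k₂ : ℕ, ∀ k : ℕ, k₂ ≤ k → 3 * (k : ℝ) ^ B < (2 : ℝ) ^ k := by
    have h := (isLittleO_pow_const_const_pow_of_one_lt (R := ℝ) B (by norm_num : (1 : ℝ) < 2)).bound
      (show (0 : ℝ) < 1 / 6 by norm_num)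
    obtain ⟨x1, hx1⟩ := eventually_atTop.1 h
    refine ⟨x1, fun k hk => ?_⟩
    have h3 := hx1 k hk
    have hbk : (0 : ℝ) < (2 : ℝ) ^ k := by positivity
    rw [Real.norm_of_nonneg (by positivity), Real.norm_of_nonneg hbk.le] at h3
    linarith
  refine ⟨K₁ + m₁ + k₀ + k₂ + 4, fun m hm p hp cc hcc => ?_⟩
  obtain ⟨K, hK⟩ : ∃ K, K = m + e₀ := ⟨_, rfl⟩
  have hm1 : (1 : ℝ) ≤ m := by exact_mod_cast (by omega : 1 ≤ m)
  have hm0 : (0 : ℝ) < m := by linarith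
  have hmK : (m : ℝ) ≤ K := by exact_mod_cast (by omega : m ≤ K)
  have hK1 : (1 : ℝ) ≤ K := by linarith
  obtain ⟨Sm, hSm⟩ : ∃ Sm : ℕ → Prop, Sm = fun v => 1 ≤ cc + κ * (v : ℕ) ∧
      ((cc + κ * (v : ℕ) : ℤ) : ℝ) < ((2 ^ K : ℕ) : ℝ) / Real.log ((2 ^ K : ℕ) : ℝ) ^ (W + 1) := ⟨_, rfl⟩
  have h1 := hanti K (by omega) m hK p hp cc Sm (fun v _ hv => by rw [hSm] at hv; exact hv)
  have h2 := hbad m (by omega) p hp cc hcc
  rw [← hK] at h2
  have hlogK : Real.log ((2 ^ K : ℕ) : ℝ) ≤ K := by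
    push_cast
    rw [Real.log_pow]
    nlinarith [Real.log_two_lt_d9]
  have hlogK0 : 0 < Real.log ((2 ^ K : ℕ) : ℝ) := by
    push_cast
    rw [Real.log_pow]
    have := Real.log_two_gt_d9
    positivity
  have hpt : ∀ v ∈ range (2 ^ m), (if (0 < cc + κ * (v : ℕ) → LpG η A (cc + κ * (v : ℕ)).toNat) then 0 else p v) ≤
      (if Sm v then p v else 0) + (if BadQ (η / 4) (B + 1) K 2 (cc + κ * (v : ℕ)) then p v else 0) := by
    intro v hv
    rw [mem_range] at hv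
    have hp0 := AC_nonneg hp v
    have ha0 : 0 ≤ (if Sm v then p v else 0) := by split_ifs <;> simp [hp0]
    have hb0 : 0 ≤ (if BadQ (η / 4) (B + 1) K 2 (cc + κ * (v : ℕ)) then p v else 0) := by split_ifs <;> simp [hp0]
    by_cases hgood : (0 < cc + κ * (v : ℕ) → LpG η A (cc + κ * (v : ℕ)).toNat)
    · rw [if_pos hgood]
      linarith
    · rw [if_neg hgood]
      push Not at hgood
      obtain ⟨hpos, hnot⟩ := hgood
      by_cases hs : Sm v
      · rw [if_pos hs]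
        linarith
      · obtain ⟨Q, hQ⟩ : ∃ Q : ℤ, Q = cc + κ * (v : ℕ) := ⟨_, rfl⟩
        have hle := hcc v hv
        rw [hSm] at hs
        push Not at hs
        rw [← hQ] at hpos hnot hs hle hb0 ⊢
        have hlow := hs (by omega)
        rw [div_le_iff₀ (by positivity)] at hlow
        have hQ0 : (0 : ℝ) < Q := by exact_mod_cast hpos
        have hlow2 : (2 : ℝ) ^ K ≤ Q * (K : ℝ) ^ B := by
          push_cast at hlow
          refine hlow.trans (mul_le_mul_of_nonneg_left ?_ hQ0.le)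
          calc Real.log ((2 : ℝ) ^ K) ^ (W + 1) ≤ (K : ℝ) ^ (W + 1) := by
                apply pow_le_pow_left₀
                · push_cast at hlogK0
                  exact hlogK0.le
                · push_cast at hlogK
                  exact hlogK
            _ ≤ (K : ℝ) ^ B := pow_le_pow_right₀ hK1 (by rw [hB]; exact le_max_right _ _)
        have hQ3 : 3 ≤ Q.toNat := by
          have h5 := hk₂ K (by omega)
          have h6 : (3 : ℝ) * (K : ℝ) ^ B < Q * (K : ℝ) ^ B := lt_of_lt_of_le h5 hlow2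
          have h7 : (3 : ℝ) < Q := lt_of_mul_lt_mul_right h6 (by positivity)
          have h8 : (3 : ℤ) < Q := by exact_mod_cast h7
          omega
        have hbad2 : BadQ (η / 4) (B + 1) K 2 Q := by
          apply hlp K (by omega) Q
          · push_cast
            exact_mod_cast hlow2
          · rw [add_zero, hK]
            push_cast
            exact (le_abs_self Q).trans hle
          · exact fun hcon => hnot (LpG_mono (by rw [hB]; exact le_max_left _ _) hQ3 hcon)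
        rw [if_pos hbad2]
        linarith
  refine (sum_le_sum hpt).trans ?_
  rw [sum_add_distrib]
  refine (add_le_add h1 h2).trans ?_
  have h5 : 1 / (K : ℝ) ^ (U + 1) ≤ 1 / (m : ℝ) ^ (U + 1) := by
    apply one_div_le_one_div_of_le (by positivity)
    exact pow_le_pow_left₀ hm0.le hmK _
  have hm2 : (2 : ℝ) ≤ m := by exact_mod_cast (by omega : 2 ≤ m)
  calc 1 / (K : ℝ) ^ (U + 1) + 1 / (m : ℝ) ^ (U + 1) ≤ 2 / (m : ℝ) ^ (U + 1) := by
        have : 2 / (m : ℝ) ^ (U + 1) = 1 / (m : ℝ) ^ (U + 1) + 1 / (m : ℝ) ^ (U + 1) := by ring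
        linarith
    _ ≤ 1 / (m : ℝ) ^ U := by
        rw [div_le_div_iff₀ (by positivity) (by positivity), pow_succ]
        have : 0 < (m : ℝ) ^ U := by positivity
        nlinarith

open Classical in
/-- least primes for all the positive moduli near almost all the values -/
theorem an_lp {f : ℝ → ℝ} {x0 : ℝ} {k0 : ℕ} (hf : Ord f x0 k0) (δ0 ε : ℝ) (hδ0 : 0 < δ0)
    (hε : 0 < ε) (hε2 : ε < 1 / 2) (κ : ℤ) (hκ : κ ≠ 0) (A W u a : ℕ) (η : ℝ) (hη : 0 < η) (hη1 : η ≤ 1) :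
    ∃ M₀ : ℕ, ∀ M : ℕ, M₀ ≤ M → ∀ U : ℝ, Rg k0 δ0 ε M U →
      ∀ c₀ : ℤ, |(c₀ : ℝ) + κ * (U * f x0)| ≤ U / (M : ℝ) ^ k0 * Real.log U ^ a →
        AlmostA f x0 U M κ c₀ (1 / Real.log U ^ u) (fun n => ∀ q : ℤ, |(q : ℝ) - n| ≤ Real.log U ^ W →
          0 < q → LpG η A q.toNat) := by
  obtain ⟨CC, hCC, hd⟩ := dig_f hf δ0 ε hδ0 (a + 1) κ
  obtain ⟨e₀, he₀⟩ : ∃ e₀, e₀ = κ.natAbs + 1 := ⟨_, rfl⟩
  obtain ⟨v, hv⟩ : ∃ v, v = u + W + 1 := ⟨_, rfl⟩
  obtain ⟨m₀, h1⟩ := AC_lp hf δ0 ε hδ0 hε hε2 (a + 4) κ hκ e₀ A (v + 1) η hη hη1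
  obtain ⟨k₁, hk₁⟩ := exists_nat_ge (CC ^ v + 1)
  have hlim := exp_dom (CC ^ (a + 3 + W) + 1) ((a + 3 + W : ℕ) : ℝ) (Real.log 2) (by positivity) 1 one_pos
  obtain ⟨k₂, hk₂⟩ := eventually_atTop.1 ((tendsto_natCast_atTop_atTop (R := ℝ)).eventually hlim)
  obtain ⟨M₁, hM₁⟩ := hd (m₀ + k₁ + k₂ + 1)
  obtain ⟨M₂, hM₂⟩ := eventually_atTop.1 (Pool.Agent.W2helper30.PN.ev_loge 3)
  refine ⟨M₁ + M₂ + 2, fun M hM U hU c₀ hc₀ => ?_⟩
  obtain ⟨k, s, hk, g1, g2, g3, g4, hpar, hc⟩ := hM₁ M (by omega) U hU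
  have hlU := hU.log_le hf.2.1 hδ0 (by omega)
  have hL3 : 3 ≤ Real.log U := (hM₂ M (by omega)).trans hlU
  have hL0 : 0 < Real.log U := by linarith
  obtain ⟨hR1, hlR⟩ := hU.log_R hf.2.1 hδ0 (by omega)
  obtain ⟨R, hR⟩ : ∃ R : ℝ, R = U / (M : ℝ) ^ k0 := ⟨_, rfl⟩
  rw [← hR] at g3 g4 hR1 hlR hc₀
  have hkR : CC ^ v + 1 ≤ k := hk₁.trans (by exact_mod_cast (by omega : k₁ ≤ k))
  have hCC0 : 0 < CC := by linarith
  have hv0 : 0 < CC ^ v := by positivity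
  have hk0' : (0 : ℝ) < k := by linarith
  have hW1 : 1 ≤ Real.log U ^ W := one_le_pow₀ (by linarith)
  -- `log ^ W U` is smaller than `R`
  have hWR : Real.log U ^ W ≤ R := by
    have e1 := hk₂ k (by omega)
    rw [Real.rpow_natCast, Real.rpow_one] at e1
    have e2 : Real.exp (Real.log 2 * (k : ℝ)) = 2 ^ k := by
      rw [mul_comm, Real.exp_nat_mul, Real.exp_log (by norm_num)]
    rw [e2] at e1
    have e4 : Real.log U ^ (a + 3 + W) ≤ (CC * k) ^ (a + 3 + W) := pow_le_pow_left₀ hL0.le g1 _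
    have e5 : Real.log U ^ (a + 3) * Real.log U ^ W ≤ Real.log U ^ (a + 3) * R := by
      calc Real.log U ^ (a + 3) * Real.log U ^ W = Real.log U ^ (a + 3 + W) := by rw [pow_add _ (a + 3) W]
        _ ≤ (CC * k) ^ (a + 3 + W) := e4
        _ = CC ^ (a + 3 + W) * (k : ℝ) ^ (a + 3 + W) := mul_pow _ _ _
        _ ≤ (CC ^ (a + 3 + W) + 1) * (k : ℝ) ^ (a + 3 + W) :=
            mul_le_mul_of_nonneg_right (by linarith) (by positivity)
        _ ≤ 2 ^ k := e1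
        _ ≤ R * Real.log U ^ (a + 1 + 2) := g4
        _ = Real.log U ^ (a + 3) * R := by ring
    exact le_of_mul_le_mul_left e5 (by positivity)
  obtain ⟨N, hN⟩ : ∃ N : ℕ, N = ⌈Real.log U ^ W⌉₊ := ⟨_, rfl⟩
  have hN1 : Real.log U ^ W ≤ N := by rw [hN]; exact Nat.le_ceil _
  have hN2 : (N : ℝ) < Real.log U ^ W + 1 := by rw [hN]; exact Nat.ceil_lt_add_one (by positivity)
  refine near_an N W u (Real.log U) hL3 hN1 (fun q => 0 < q → LpG η A q.toNat) (fun t ht => ?_)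
  have ht' : |(t : ℝ)| ≤ N := by exact_mod_cast ht
  have hc1 := hc (c₀ + t) (by
    rw [← hR]
    push_cast
    calc |(c₀ : ℝ) + t + κ * (U * f x0)| = |((c₀ : ℝ) + κ * (U * f x0)) + t| := by congr 1; ring
      _ ≤ |(c₀ : ℝ) + κ * (U * f x0)| + |(t : ℝ)| := abs_add_le _ _
      _ ≤ R * Real.log U ^ a + N := add_le_add hc₀ ht'
      _ ≤ R * Real.log U ^ a + 2 * R := by linarith
      _ ≤ R * Real.log U ^ a + 2 * (R * Real.log U ^ a) := by
          have : R ≤ R * Real.log U ^ a := le_mul_of_one_le_right (by linarith) (one_le_pow₀ (by linarith))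
          linarith
      _ = (R * Real.log U ^ a) * 3 := by ring
      _ ≤ (R * Real.log U ^ a) * Real.log U := mul_le_mul_of_nonneg_left hL3 (by positivity)
      _ = R * Real.log U ^ (a + 1) := by rw [pow_succ]; ring)
  obtain ⟨c, hcd⟩ : ∃ c : ℤ, c = c₀ + t - κ * s := ⟨_, rfl⟩
  rw [← hcd] at hc1
  have h2 := count_ac hpar (fun v => (0 < c + κ * (v : ℕ) → LpG η A (c + κ * (v : ℕ)).toNat)) (1 / (k : ℝ) ^ (v + 1))
    (fun p hp => (le_of_eq (by congr!)).trans (h1 k (by omega) p hp c (fun w hw => by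
      have hpos : (0 : ℤ) < (2 : ℤ) ^ k := by positivity
      have h5 : ((e₀ : ℕ) : ℤ) ≤ (2 : ℤ) ^ e₀ := by exact_mod_cast Nat.lt_two_pow_self.le
      calc |c + κ * (w : ℕ)| ≤ |c| + |κ * (w : ℕ)| := abs_add_le _ _
        _ ≤ (2 : ℤ) ^ k + κ.natAbs * (2 : ℤ) ^ k := by
            apply add_le_add hc1
            rw [abs_mul, Int.abs_eq_natAbs κ, Nat.abs_cast]
            apply mul_le_mul_of_nonneg_left _ (Nat.cast_nonneg _)
            exact_mod_cast hw.le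
        _ = ((e₀ : ℕ) : ℤ) * (2 : ℤ) ^ k := by rw [he₀]; push_cast; ring
        _ ≤ (2 : ℤ) ^ e₀ * (2 : ℤ) ^ k := mul_le_mul_of_nonneg_right h5 hpos.le
        _ = 2 ^ (k + e₀) := by rw [pow_add]; ring)))
  have h3 : AlmostA f x0 U M κ (c₀ + t) (1 / (k : ℝ) ^ (v + 1)) (fun q => 0 < q → LpG η A q.toNat) := by
    unfold AlmostA
    refine le_trans (Nat.cast_le.2 (card_le_card fun i hi => ?_)) h2
    simp only [mem_filter] at hi ⊢
    refine ⟨hi.1, ?_⟩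
    have e1 : c₀ + t + κ * vl f x0 U i = c + κ * ((sh f x0 U s i : ℕ) : ℤ) := by
      rw [hpar.sh_eq i hi.1, hcd]
      ring
    rw [e1] at hi
    exact hi.2
  rw [← hv]
  apply h3.le
  apply one_div_le_one_div_of_le (by positivity)
  calc Real.log U ^ v ≤ (CC * k) ^ v := pow_le_pow_left₀ hL0.le g1 v
    _ = CC ^ v * (k : ℝ) ^ v := mul_pow _ _ _
    _ ≤ k * (k : ℝ) ^ v := by
        apply mul_le_mul_of_nonneg_right _ (by positivity)
        linarith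
    _ = (k : ℝ) ^ (v + 1) := by ring

end Pool.Agent.W2helper30.AN
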