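import Pool.Agent.W2helper30.AN.Trans

/-!
# Prime pairs whose difference is near a value `c₀ + κ ⌊U f(x0 + 1 / m)⌋`
-/

set_option autoImplicit false

namespace Pool.Agent.W2helper30.AN

open Finset Real Filter Topology
open Pool.Agent.N625.DY (Cls ClsV)
open Pool.Agent.W2helper30.PN (ev_loge)

/-- the length of the interval of the values -/
lemma Rg.log_R {k0 : ℕ} {δ0 ε : ℝ} {M : ℕ} {U : ℝ} (h : Rg k0 δ0 ε M U) (hk0 : 1 ≤ k0)
    (hδ0 : 0 < δ0) (hM : 1 ≤ M) : 1 ≤ U / (M : ℝ) ^ k0 ∧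
    Real.log U ≤ ((k0 : ℝ) + δ0) / δ0 * Real.log (U / (M : ℝ) ^ k0) := by
  have hMR : (1 : ℝ) ≤ M := by exact_mod_cast hM
  have hM0 : (0 : ℝ) < M := by linarith
  have hU0 : 0 < U := lt_of_lt_of_le (by positivity) h.lo
  have hMk : 0 < (M : ℝ) ^ k0 := by positivity
  constructor
  · rw [le_div_iff₀ hMk, one_mul]
    refine le_trans ?_ h.lo
    rw [Real.rpow_add hM0, Real.rpow_natCast]
    apply le_mul_of_one_le_right hMk.le
    exact Real.one_le_rpow hMR hδ0.le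
  · rw [Real.log_div hU0.ne' hMk.ne', Real.log_pow]
    have h3 : ((k0 : ℝ) + δ0) * Real.log M ≤ Real.log U := by
      rw [← Real.log_rpow hM0]
      exact Real.log_le_log (by positivity) h.lo
    have hk0R : (1 : ℝ) ≤ k0 := by exact_mod_cast hk0
    rw [div_mul_eq_mul_div, le_div_iff₀ hδ0]
    have h4 : (k0 : ℝ) * (((k0 : ℝ) + δ0) * Real.log M) ≤ k0 * Real.log U :=
      mul_le_mul_of_nonneg_left h3 (by linarith)
    linarith

open Classical in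
/-- prime pairs in progressions for the differences above almost all the values -/
theorem an_pairs {f : ℝ → ℝ} {x0 : ℝ} {k0 : ℕ} (hf : Ord f x0 k0) (δ0 ε : ℝ) (hδ0 : 0 < δ0)
    (hε : 0 < ε) (hε2 : ε < 1 / 2) (κ : ℤ) (hκ : κ ≠ 0) (A₁ A₂ C u W a : ℕ) :
    ∃ M₀ : ℕ, ∀ M : ℕ, M₀ ≤ M → ∀ U : ℝ, Rg k0 δ0 ε M U →
    ∀ X : ℕ, U / (M : ℝ) ^ k0 ≤ X → U / (M : ℝ) ^ k0 * Real.log X ^ (a + C + 9) ≤ X →
    (X : ℝ) ≤ U / (M : ℝ) ^ k0 * Real.log X ^ W →
    ∀ c₀ : ℤ, |(c₀ : ℝ) + κ * (U * f x0)| ≤ U / (M : ℝ) ^ k0 * Real.log U ^ a → ∀ P : ℤ → Prop,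
      (∀ m : ℤ, 0 < m → Pool.Agent.W93.PP.GoodD A₁ A₂ C X m.toNat → P m) →
      AlmostA f x0 U M κ c₀ (1 / Real.log U ^ u) (fun n => 0 < n → P n) := by
  have hk0 := hf.2.1
  obtain ⟨CC, hCC, H⟩ := an_transX (Θ := ℕ) hf δ0 ε hδ0 hε hε2 a κ hκ (u + 1)
    (fun k (X : ℕ) => 2 ^ k ≤ X ∧ (2 : ℝ) ^ k * Real.log X ^ (C + 6) ≤ X ∧ (X : ℝ) ≤ (2 : ℝ) ^ k * Real.log X ^ W)
    (fun (X : ℕ) y => 0 < y → Pool.Agent.W93.PP.GoodD A₁ A₂ C X y.toNat) (fun Cl hC => by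
      obtain ⟨k₀, h1⟩ := Pool.Agent.N625.DY.cls_pairs hC 1 (u + 1) A₁ A₂ C W
      refine ⟨k₀, fun k hk X hX p hp c hc => ?_⟩
      exact h1 k hk X hX.1 (by push_cast; exact hX.2.1) (by push_cast; exact hX.2.2) p hp c
        (by rw [Nat.cast_one, one_mul]; exact hc) (fun y => 0 < y → Pool.Agent.W93.PP.GoodD A₁ A₂ C X y.toNat) (fun y hy => by
          push Not at hy
          exact hy))
  obtain ⟨q, hq⟩ : ∃ q : ℝ, q = ((k0 : ℝ) + δ0) / δ0 := ⟨_, rfl⟩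
  have hq1 : 1 ≤ q := by
    rw [hq, le_div_iff₀ hδ0]
    have : (0 : ℝ) ≤ k0 := Nat.cast_nonneg _
    linarith
  obtain ⟨k₁, hk₁⟩ := exists_nat_ge (CC ^ u + 1)
  obtain ⟨M₁, hM₁⟩ := H k₁
  obtain ⟨M₂, hM₂⟩ := eventually_atTop.1 (ev_loge (q * (q ^ (a + 2) + 1)))
  refine ⟨M₁ + M₂ + 2, fun M hM U hU X hX0 hX1 hX2 c₀ hc₀ P hP => ?_⟩
  obtain ⟨k, hk, g1, g2, g3, g4, g5⟩ := hM₁ M (by omega) U hU
  have hlU := hU.log_le hk0 hδ0 (by omega)
  have hbig := (hM₂ M (by omega)).trans hlU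
  obtain ⟨hR1, hlR⟩ := hU.log_R hk0 hδ0 (by omega)
  obtain ⟨R, hR⟩ : ∃ R : ℝ, R = U / (M : ℝ) ^ k0 := ⟨_, rfl⟩
  rw [← hR] at hR1 hlR hX0 hX1 hX2 g3 g4
  have hR0 : 0 < R := by linarith
  have hqa : 0 < q ^ (a + 2) := by positivity
  have hL1 : 1 ≤ Real.log U := by nlinarith
  have hL0 : 0 < Real.log U := by linarith
  have hXpos : (0 : ℝ) < X := by linarith
  have hlRX : Real.log R ≤ Real.log X := Real.log_le_log hR0 hX0
  rw [← hq] at hlR
  have hq0 : 0 < q := by linarith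
  have hLX : Real.log U ≤ q * Real.log X := hlR.trans (mul_le_mul_of_nonneg_left hlRX hq0.le)
  have hlX : q ^ (a + 2) + 1 ≤ Real.log X := by
    have h1 : q * (q ^ (a + 2) + 1) ≤ q * Real.log X := hbig.trans hLX
    exact le_of_mul_le_mul_left h1 hq0
  have hlX1 : 1 ≤ Real.log X := by linarith
  -- the size of `X`
  have hX3 : (2 : ℝ) ^ k * Real.log X ^ (C + 6) ≤ X := by
    refine le_trans ?_ hX1
    calc (2 : ℝ) ^ k * Real.log X ^ (C + 6) ≤ (R * Real.log U ^ (a + 2)) * Real.log X ^ (C + 6) :=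
          mul_le_mul_of_nonneg_right g4 (by positivity)
      _ ≤ (R * (q * Real.log X) ^ (a + 2)) * Real.log X ^ (C + 6) := by gcongr
      _ = R * (q ^ (a + 2) * (Real.log X ^ (a + 2) * Real.log X ^ (C + 6))) := by rw [mul_pow]; ring
      _ ≤ R * (Real.log X * (Real.log X ^ (a + 2) * Real.log X ^ (C + 6))) := by
          have : q ^ (a + 2) ≤ Real.log X := by linarith
          gcongr
      _ = R * Real.log X ^ (a + C + 9) := by
          congr 1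
          rw [← pow_add, ← pow_succ']
          congr 1
          ring
  have hX4 : (X : ℝ) ≤ (2 : ℝ) ^ k * Real.log X ^ W := by
    refine hX2.trans (mul_le_mul_of_nonneg_right ?_ (by positivity))
    refine le_trans ?_ g3
    exact le_mul_of_one_le_right hR0.le (one_le_pow₀ hL1)
  have hX5 : 2 ^ k ≤ X := by
    have h1 : (1 : ℝ) ≤ Real.log X ^ (C + 6) := one_le_pow₀ hlX1
    have h2 : (2 : ℝ) ^ k ≤ X := by
      refine le_trans ?_ hX3
      exact le_mul_of_one_le_right (by positivity) h1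
    exact_mod_cast h2
  have h3 := g5 X ⟨hX5, hX3, hX4⟩ c₀ hc₀
  have hkR : CC ^ u + 1 ≤ k := hk₁.trans (by exact_mod_cast hk)
  have hCC0 : 0 < CC := by linarith
  have hu0 : 0 < CC ^ u := by positivity
  have hk0' : (0 : ℝ) < k := by linarith
  refine (h3.le ?_).mono fun n hn hpos => hP n hpos (hn hpos)
  apply one_div_le_one_div_of_le (by positivity)
  calc Real.log U ^ u ≤ (CC * k) ^ u := pow_le_pow_left₀ hL0.le g1 u
    _ = CC ^ u * (k : ℝ) ^ u := mul_pow _ _ _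
    _ ≤ k * (k : ℝ) ^ u := by
        apply mul_le_mul_of_nonneg_right _ (by positivity)
        linarith
    _ = (k : ℝ) ^ (u + 1) := by ring

end Pool.Agent.W2helper30.AN
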