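import Pool.Agent.W2helper30.AN.Dec

/-!
# From the decay of the characteristic function to almost all the values `c₀ + κ ⌊U f(x0 + 1 / m)⌋`
-/

set_option autoImplicit false

namespace Pool.Agent.W2helper30.AN

open Finset Real Filter Topology
open Pool.Agent.W2helper30.PN
open Pool.Agent.R459.Eq (Decays)

/-- from the decay of the characteristic function to almost all the values -/
theorem an_pass {f : ℝ → ℝ} {x0 : ℝ} {k0 : ℕ} (hf : Ord f x0 k0) (δ0 ε : ℝ) (hδ0 : 0 < δ0)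
    (hε : 0 < ε) (hε2 : ε < 1 / 2) :
    ∃ W₁ X₁ : ℕ, 1 ≤ W₁ ∧ 2 ≤ X₁ ∧ ∀ W X : ℕ, X₁ ≤ X → ∀ (M : ℕ) (U : ℝ), Rg k0 δ0 ε M U →
    ∀ (κ c₀ : ℤ) (Q : ℕ → ℤ → Prop) (τ : ℝ), 0 ≤ τ →
    (∀ (k : ℕ) (ι : Type) (Ω : Finset ι) (w : ι → ℝ) (v : ι → ℤ), Decays 2 1 5 k (1 / 2) κ Ω w v →
      ∀ E : Finset ι, E ⊆ Ω → (∀ i ∈ E, ¬ ∀ x : ℕ, X ≤ x → x ^ W ≤ 2 ^ k → Q x (v i)) →
        ∑ i ∈ E, w i ≤ τ) →
    AlmostA f x0 U M κ c₀ τ
      (fun n => ∀ x : ℕ, X ≤ x → (x : ℝ) ^ (W₁ * (W + 1)) ≤ Real.exp (Sv M U) → Q x n) := by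
  classical
  have hk0 := hf.2.1
  obtain ⟨c, hc, N0, hN01, hdec⟩ := decays_f hf δ0 ε hδ0 hε hε2
  obtain ⟨W₁, hW₁⟩ := exists_nat_ge (1 / c)
  refine ⟨W₁ + 1, N0 + 2, by omega, by omega, fun W X hX M U hU κ c₀ Q τ hτ H => ?_⟩
  unfold AlmostA
  have hM0 : (0 : ℝ) ≤ M := Nat.cast_nonneg _
  by_cases hne : ∃ x : ℕ, X ≤ x ∧ (x : ℝ) ^ ((W₁ + 1) * (W + 1)) ≤ Real.exp (Sv M U)
  swap
  · have : (Finset.Ioc M (2 * M)).filter (fun m : ℕ => ¬ ∀ x : ℕ, X ≤ x →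
        (x : ℝ) ^ ((W₁ + 1) * (W + 1)) ≤ Real.exp (Sv M U) → Q x (c₀ + κ * vl f x0 U m)) = ∅ := by
      apply filter_false_of_mem
      intro n _ hcon
      exact hcon fun x hx hxW => absurd ⟨x, hx, hxW⟩ hne
    rw [this, card_empty, Nat.cast_zero]
    positivity
  obtain ⟨x₀, hx₀, hx₀W⟩ := hne
  have hx₀1 : (1 : ℝ) ≤ x₀ := by exact_mod_cast (by omega : 1 ≤ x₀)
  have hMM : N0 ≤ M := by
    have h1 : (x₀ : ℝ) ≤ max 1 (M : ℝ) :=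
      ((le_self_pow₀ hx₀1 (by positivity)).trans hx₀W).trans (hU.exp_sv_le hk0 hδ0)
    have h2 : (N0 : ℝ) + 2 ≤ x₀ := by exact_mod_cast hX.trans hx₀
    rcases le_max_iff.1 h1 with h3 | h3
    · have : (0 : ℝ) ≤ N0 := Nat.cast_nonneg _
      linarith
    · have : (N0 : ℝ) ≤ M := by linarith
      exact_mod_cast this
  have hW1' : 1 ≤ c * ((W₁ + 1 : ℕ) : ℝ) := by
    rw [div_le_iff₀ hc] at hW₁
    push_cast
    linarith
  -- the bound for `x`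
  obtain ⟨T, hT⟩ : ∃ T, T = Real.exp (c * Sv M U) := ⟨_, rfl⟩
  have hxT : ∀ x : ℕ, 2 ≤ x → (x : ℝ) ^ ((W₁ + 1) * (W + 1)) ≤ Real.exp (Sv M U) →
      (x : ℝ) ^ (W + 1) ≤ T := by
    intro x hx h1
    have hx1 : (1 : ℝ) ≤ x := by exact_mod_cast (by omega : 1 ≤ x)
    have hx0 : (0 : ℝ) < x := by linarith
    have h2 : ((W₁ + 1) * (W + 1) : ℕ) * log x ≤ Sv M U := by
      rw [← Real.log_pow, Real.log_le_iff_le_exp (by positivity)]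
      exact h1
    rw [hT, ← Real.log_le_iff_le_exp (by positivity), Real.log_pow]
    have h3 : 0 ≤ log (x : ℝ) := Real.log_nonneg hx1
    push_cast at h2 hW1' ⊢
    calc ((W : ℝ) + 1) * log x ≤ (c * (W₁ + 1)) * ((W + 1) * log x) :=
          le_mul_of_one_le_left (by positivity) hW1'
      _ = c * ((W₁ + 1) * (W + 1) * log x) := by ring
      _ ≤ _ := by gcongr
  have hT1 : (1 : ℝ) ≤ T := (one_le_pow₀ hx₀1).trans (hxT x₀ (by omega) hx₀W)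
  obtain ⟨k, hk⟩ : ∃ k, k = Nat.log 2 ⌊T⌋₊ := ⟨_, rfl⟩
  have hfl : 1 ≤ ⌊T⌋₊ := by
    rw [Nat.one_le_floor_iff]
    linarith
  have hf0 : 0 ≤ T := by linarith
  have hk1 : (2 : ℝ) ^ k ≤ T := by
    have h1 : 2 ^ k ≤ ⌊T⌋₊ := by
      rw [hk]
      exact Nat.pow_log_le_self 2 (by omega)
    calc (2 : ℝ) ^ k ≤ (⌊T⌋₊ : ℝ) := by exact_mod_cast h1
      _ ≤ T := Nat.floor_le hf0
  have hk2 : T < 2 ^ (k + 1) := by
    have h1 : ⌊T⌋₊ < 2 ^ (k + 1) := by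
      rw [hk]
      exact Nat.lt_pow_succ_log_self (by norm_num) _
    have h2 : T < (⌊T⌋₊ : ℝ) + 1 := Nat.lt_floor_add_one _
    have h3 : (⌊T⌋₊ : ℝ) + 1 ≤ 2 ^ (k + 1) := by exact_mod_cast h1
    linarith
  have hd := hdec M hMM U hU k (by rw [← hT]; exact hk1) c₀ κ
  have hM1' : (0 : ℝ) < M := by exact_mod_cast (by omega : 0 < M)
  have h1 := H k ℕ (Finset.Ioc M (2 * M)) (fun _ => 1 / (M : ℝ)) _ hd
    ((Finset.Ioc M (2 * M)).filter (fun m : ℕ => ¬ ∀ x : ℕ, X ≤ x →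
        (x : ℝ) ^ ((W₁ + 1) * (W + 1)) ≤ Real.exp (Sv M U) → Q x (c₀ + κ * vl f x0 U m)))
    (filter_subset _ _) (fun n hn hcon => by
      rw [mem_filter] at hn
      apply hn.2
      intro x hx hxW
      exact hcon x hx (by
        have hx2 : (2 : ℝ) ≤ x := by exact_mod_cast (by omega : 2 ≤ x)
        have h3 : (x : ℝ) ^ W * 2 < 2 ^ k * 2 := by
          calc (x : ℝ) ^ W * 2 ≤ (x : ℝ) ^ W * x := mul_le_mul_of_nonneg_left hx2 (by positivity)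
            _ = (x : ℝ) ^ (W + 1) := (pow_succ _ _).symm
            _ ≤ T := hxT x (by omega) hxW
            _ < 2 ^ (k + 1) := hk2
            _ = 2 ^ k * 2 := pow_succ _ _
        have h4 : (x : ℝ) ^ W ≤ 2 ^ k := by linarith
        exact_mod_cast h4))
  rw [sum_const, nsmul_eq_mul, mul_one_div, div_le_iff₀ hM1'] at h1
  exact h1

end Pool.Agent.W2helper30.AN
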