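import Pool.Agent.W2helper30.PN.Fn

/-!
# The sums with a saving of the shape `exp (- c (log N) ^ 3 / (log θ) ^ 2)`
-/

set_option autoImplicit false

namespace Pool.Agent.W2helper30.AN

open Finset Real Filter Topology
open Pool.Agent.Y933.KD (e norm_e e_add)
open Pool.Agent.Y933.KD.VdC (ev_le)
open Pool.Agent.W2helper30.PN

/-- phases of all sizes up to `exp ((log N) ^ (3 / 2 - ε))` -/
theorem sum_all2 (K0 : ℕ) (P δ0 ε : ℝ) (hP : 0 ≤ P) (hδ0 : 0 < δ0) (hε : 0 < ε) (hε2 : ε < 1 / 2) :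
    ∃ c : ℝ, 0 < c ∧ ∃ N0 : ℕ, ∀ N : ℕ, N0 ≤ N →
    ∀ (k0 k1 : ℕ) (γ : ℕ → ℝ) (W : ℝ), Dm k0 k1 γ P W → k0 ≤ K0 →
    W ≤ (N : ℝ) ^ (1 / 4 : ℝ) → (N : ℝ) ^ δ0 ≤ |γ k0| / (N : ℝ) ^ k0 →
    |γ k0| / (N : ℝ) ^ k0 ≤ Real.exp ((log N) ^ (3 / 2 - ε)) →
    ‖∑ n ∈ Finset.Ioc N (2 * N), e (fz k0 k1 γ n)‖ ≤
      N * Real.exp (-(c * ((log N) ^ 3 / (log N + log (|γ k0| / (N : ℝ) ^ k0)) ^ 2))) := by
  obtain ⟨ρ, hρ, N1, h1⟩ := sum_small K0 P δ0 hP hδ0
  obtain ⟨C, hC0, N2, h2⟩ := sum_big K0 P hP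
  obtain ⟨N4, h4⟩ := exists_kappa K0
  have h2ε : 0 < 2 * ε := by linarith
  obtain ⟨N3, h3⟩ := eventually_atTop.1 (((lpow (by linarith : (3 / 2 - ε : ℝ) < 2) 1).and
    (ev_loge (max 1 (26 ^ K0 * 2 + C)))).and (lpow (by linarith : ε < 2 * ε)
    (32 * 10 ^ 10 * 4 * (K0 + 1))))
  have hll : ∀ᶠ M : ℕ in atTop, log (log M) ≤ (log M) ^ ε := by
    have hlog : Tendsto (fun N : ℕ => log (N : ℝ)) atTop atTop :=
      Real.tendsto_log_atTop.comp tendsto_natCast_atTop_atTop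
    have h1 := (isLittleO_log_rpow_atTop hε).bound
      (by norm_num : (0 : ℝ) < 1)
    filter_upwards [hlog.eventually h1, ev_loge 1] with M h2 h3
    rw [one_mul, Real.norm_eq_abs, Real.norm_eq_abs] at h2
    rw [abs_of_nonneg (Real.rpow_nonneg (by linarith) ε)] at h2
    exact (le_abs_self _).trans h2
  obtain ⟨N5, h5⟩ := eventually_atTop.1 hll
  refine ⟨min ρ (1 / 10 ^ 10 / 8), lt_min hρ (by norm_num),
    max (max (max N1 N2) (max N3 N4)) (max N5 2), ?_⟩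
  intro N hN k0 k1 γ W h hkK hW hT1 hT2
  have hNN1 : N1 ≤ N := le_of_max_le_left (le_of_max_le_left (le_of_max_le_left hN))
  have hNN2 : N2 ≤ N := le_of_max_le_right (le_of_max_le_left (le_of_max_le_left hN))
  have hNN3 : N3 ≤ N := le_of_max_le_left (le_of_max_le_right (le_of_max_le_left hN))
  have hNN4 : N4 ≤ N := le_of_max_le_right (le_of_max_le_right (le_of_max_le_left hN))
  obtain ⟨⟨hc, hl1⟩, hf⟩ := h3 N hNN3
  have hk := h5 N (le_of_max_le_left (le_of_max_le_right hN))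
  have hN2 : 2 ≤ N := le_of_max_le_right (le_of_max_le_right hN)
  have hNR : (2 : ℝ) ≤ N := by exact_mod_cast hN2
  have hNp : (0 : ℝ) < N := by linarith
  obtain ⟨L, hL⟩ : ∃ L : ℝ, L = log N := ⟨_, rfl⟩
  rw [← hL] at hc hl1 hf hk hT2 ⊢
  have hL1 : 1 ≤ L := (le_max_left _ _).trans hl1
  have hLC : 26 ^ K0 * 2 + C ≤ L := (le_max_right _ _).trans hl1
  have hL0 : 0 < L := lt_of_lt_of_le one_pos hL1
  have hexp : ∀ x : ℝ, (N : ℝ) ^ x = Real.exp (x * L) := by
    intro x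
    rw [Real.rpow_def_of_pos hNp, hL, mul_comm]
  obtain ⟨T, hT⟩ : ∃ T : ℝ, T = |γ k0| / (N : ℝ) ^ k0 := ⟨_, rfl⟩
  rw [← hT]
  have hT0 : 0 < T := by
    rw [hT]
    have := abs_pos.2 h.ne
    positivity
  have hlT0 : 0 ≤ log T := by
    apply Real.log_nonneg
    rw [← hT] at hT1
    refine le_trans ?_ hT1
    exact Real.one_le_rpow (by linarith) hδ0.le
  obtain ⟨S, hS⟩ : ∃ S : ℝ, S = L ^ 3 / (L + log T) ^ 2 := ⟨_, rfl⟩
  rw [← hS]
  have hLT : 0 < L + log T := by linarith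
  have hS0 : 0 ≤ S := by rw [hS]; positivity
  have hSL : S ≤ L := by
    rw [hS, div_le_iff₀ (by positivity)]
    have h6 : L ^ 2 ≤ (L + log T) ^ 2 := by gcongr; linarith
    nlinarith
  rcases le_or_gt T N with hs | hs
  · refine (h1 N hNN1 k0 k1 γ W h hkK hW hT1 (by rw [← hT]; exact hs)).trans ?_
    rw [sub_eq_add_neg, Real.rpow_add hNp, Real.rpow_one, hexp]
    refine mul_le_mul_of_nonneg_left (Real.exp_le_exp.2 ?_) hNp.le
    have h6 : min ρ (1 / 10 ^ 10 / 8) * S ≤ ρ * L := by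
      gcongr
      exact min_le_left _ _
    linarith
  · have hlT : log T ≤ L ^ (3 / 2 - ε) := by
      rw [Real.log_le_iff_le_exp hT0, hT]
      exact hT2
    have hlT2 : log T ≤ (log N) ^ 2 := by
      rw [← hL]
      refine hlT.trans ?_
      rw [one_mul] at hc
      refine hc.trans (le_of_eq ?_)
      norm_cast
    obtain ⟨κ, hκ0, hκ, hκa, hκb⟩ := h4 N hNN4 k0 T hkK (by linarith) hlT2
    rw [← hL] at hκa hκb
    have hLlT : L ≤ log T := by
      rw [hL]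
      exact Real.log_le_log hNp hs.le
    have hκ1 : 1 ≤ κ := by
      by_contra hcon
      push Not at hcon
      nlinarith
    have hκ4 : (1 + κ) * L ≤ 2 * (L + log T) := by linarith
    have hLsq : L + log T ≤ 2 * L ^ (3 / 2 - ε) := by linarith
    have hκL : κ ≤ 2 * L := by
      have h6 : log T ≤ L ^ 2 := by rw [hL]; exact hlT2
      have h7' : L ≤ L ^ 2 := by
        rw [sq]
        exact le_mul_of_one_le_left hL0.le hL1
      have h7 : κ * L ≤ 2 * L * L := by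
        calc κ * L ≤ log T + L := hκb
          _ ≤ L ^ 2 + L ^ 2 := add_le_add h6 h7'
          _ = _ := by ring
      exact le_of_mul_le_mul_right h7 hL0
    have hκ' := hκ
    rw [hT] at hκ'
    have key := h2 N hNN2 k0 k1 γ W h hkK hW (by rw [← hT]; exact hs.le) κ hκ' hκ1
      (by rw [← hL]; exact hκL)
    refine key.trans ?_
    rw [sub_eq_add_neg, Real.rpow_add hNp, Real.rpow_one, hexp, mul_left_comm]
    refine mul_le_mul_of_nonneg_left ?_ hNp.le
    -- the constant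
    have hcon : C + 2 * (13 * κ) ^ K0 ≤ Real.exp ((K0 + 1) * log L) := by
      have hLL : C + 2 * (13 * κ) ^ K0 ≤ L ^ (K0 + 1) := by
        calc C + 2 * (13 * κ) ^ K0 ≤ C * L ^ K0 + 2 * (13 * (2 * L)) ^ K0 := by
              have e1 : (1 : ℝ) ≤ L ^ K0 := one_le_pow₀ hL1
              have e2 : C ≤ C * L ^ K0 := le_mul_of_one_le_right hC0 e1
              have e3 : (13 * κ) ^ K0 ≤ (13 * (2 * L)) ^ K0 := by gcongr
              linarith
          _ = (26 ^ K0 * 2 + C) * L ^ K0 := by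
              have e1 : (13 * (2 * L)) ^ K0 = 26 ^ K0 * L ^ K0 := by
                rw [← mul_pow]
                ring
              rw [e1]
              ring
          _ ≤ L * L ^ K0 := by gcongr
          _ = _ := by ring
      refine hLL.trans (le_of_eq ?_)
      rw [← Real.exp_log (by positivity : 0 < L ^ (K0 + 1)), Real.log_pow]
      push_cast
      rfl
    -- the saving
    have hS1 : L ^ (2 * ε) ≤ 4 * S := by
      rw [hS, ← mul_div_assoc, le_div_iff₀ (by positivity)]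
      calc L ^ (2 * ε) * (L + log T) ^ 2 ≤ L ^ (2 * ε) * (2 * L ^ (3 / 2 - ε)) ^ 2 := by gcongr
        _ = 4 * (L ^ (2 * ε) * (L ^ (3 / 2 - ε) * L ^ (3 / 2 - ε))) := by ring
        _ = 4 * L ^ (3 : ℝ) := by
            rw [← Real.rpow_add hL0, ← Real.rpow_add hL0]
            congr 2
            ring
        _ = 4 * L ^ 3 := by norm_cast
    have hsav : S / 4 ≤ 1 / (1 + κ) ^ 2 * L := by
      rw [hS, one_div, inv_mul_eq_div, div_div, div_le_div_iff₀ (by positivity) (by positivity)]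
      have h6 : ((1 + κ) * L) ^ 2 ≤ (2 * (L + log T)) ^ 2 := by gcongr
      calc L ^ 3 * (1 + κ) ^ 2 = L * ((1 + κ) * L) ^ 2 := by ring
        _ ≤ L * (2 * (L + log T)) ^ 2 := by gcongr
        _ = _ := by ring
    have hpre : (K0 + 1) * log L ≤ 1 / 10 ^ 10 / 8 * S := by
      have h6 : (K0 + 1 : ℝ) * log L ≤ (K0 + 1) * L ^ ε := by gcongr
      have h7 : (32 * 10 ^ 10 * 4 * (K0 + 1) : ℝ) * L ^ ε ≤ 4 * S := hf.trans hS1
      have h8 : 0 ≤ (K0 + 1 : ℝ) * L ^ ε := by positivity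
      linarith
    calc (C + 2 * (13 * κ) ^ K0) * Real.exp (-(1 / 10 ^ 10 / (1 + κ) ^ 2) * L) ≤
        Real.exp ((K0 + 1) * log L) * Real.exp (-(1 / 10 ^ 10 * (S / 4))) := by
          refine mul_le_mul hcon (Real.exp_le_exp.2 ?_) (Real.exp_pos _).le (Real.exp_pos _).le
          have h6 : 1 / 10 ^ 10 * (S / 4) ≤ 1 / 10 ^ 10 * (1 / (1 + κ) ^ 2 * L) := by gcongr
          have h7 : 1 / 10 ^ 10 * (1 / (1 + κ) ^ 2 * L) = 1 / 10 ^ 10 / (1 + κ) ^ 2 * L := by ring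
          linarith
      _ ≤ Real.exp (-(min ρ (1 / 10 ^ 10 / 8) * S)) := by
          rw [← Real.exp_add]
          apply Real.exp_le_exp.2
          have h6 : min ρ (1 / 10 ^ 10 / 8) * S ≤ 1 / 10 ^ 10 / 8 * S := by
            gcongr
            exact min_le_right _ _
          linarith

end Pool.Agent.W2helper30.AN
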