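import Pool.Agent.W2helper30.AN.Cls
import Pool.Agent.N193.PS.Tl

/-!
# The large spectrum of the multiples of the values `c₀ + κ ⌊U f(x0 + 1 / m)⌋` is thin
-/

set_option autoImplicit false

namespace Pool.Agent.W2helper30.AN

open Finset Real Filter Topology
open Pool.Agent.H807R2.Dav (ee norm_ee ee_add)
open Pool.Agent.Y885 (TLaw Thin Spec)
open Pool.Agent.N193.PS (few_near)

/-- the character sums of the class -/
lemma AC_char {f : ℝ → ℝ} {x0 : ℝ} {k0 : ℕ} {δ0 ε : ℝ} {a m M : ℕ} {U : ℝ} {s : ℤ}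
    (hpar : Par f x0 k0 δ0 ε a m M U s) (p : ℕ → ℝ)
    (hpv : ∀ v, p v = (((Finset.Ioc M (2 * M)).filter (fun i => sh f x0 U s i = v)).card : ℝ) / M)
    (G cc q0 : ℤ) (θ0 : ℝ) (Y : ℕ → ℤ) (hY : ∀ v, Y v = cc + G * (v : ℕ)) :
    ‖∑ v ∈ range (2 ^ m), ((p v : ℝ) : ℂ) * ee ((Y v : ℝ) * θ0)‖ =
      1 / (M : ℝ) * ‖∑ i ∈ Finset.Ioc M (2 * M), Pool.Agent.Y933.KD.e (((G : ℝ) * θ0 - q0) * ⌊U * f (x0 + 1 / i)⌋)‖ := by
  obtain ⟨θ, hθ⟩ : ∃ θ : ℝ, θ = (G : ℝ) * θ0 - q0 := ⟨_, rfl⟩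
  rw [← hθ]
  have h3 : ∑ v ∈ range (2 ^ m), ((p v : ℝ) : ℂ) * ee ((Y v : ℝ) * θ0) =
      (1 / (M : ℂ)) * (ee (cc * θ0) * ee ((G : ℝ) * θ0 * s)) *
        ∑ i ∈ Finset.Ioc M (2 * M), Pool.Agent.Y933.KD.e (θ * ⌊U * f (x0 + 1 / i)⌋) := by
    have h4 : ∀ i ∈ Finset.Ioc M (2 * M), Pool.Agent.Y933.KD.e (θ * ⌊U * f (x0 + 1 / i)⌋) *
        ee ((G : ℝ) * θ0 * s) = ee ((G : ℝ) * θ0 * (sh f x0 U s i : ℕ)) := by
      intro i hi
      have h5 : ((sh f x0 U s i : ℕ) : ℝ) = (vl f x0 U i : ℝ) + s := by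
        exact_mod_cast hpar.sh_eq i hi
      have h6 : Pool.Agent.Y933.KD.e (θ * ⌊U * f (x0 + 1 / i)⌋) = ee ((G : ℝ) * θ0 * (vl f x0 U i : ℝ)) := by
        rw [Pool.Agent.N193.PS.ee_eq_e]
        have e1 : (G : ℝ) * θ0 * (vl f x0 U i : ℝ) = θ * (vl f x0 U i : ℝ) + ((q0 * vl f x0 U i : ℤ) : ℝ) := by
          rw [hθ]
          push_cast
          ring
        rw [e1, Pool.Agent.H469R2.NK.e_add, Pool.Agent.N193.PS.e_int', mul_one]
        rfl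
      rw [h6, ← ee_add, h5]
      congr 1
      ring
    have hS : ee ((G : ℝ) * θ0 * s) *
        ∑ i ∈ Finset.Ioc M (2 * M), Pool.Agent.Y933.KD.e (θ * ⌊U * f (x0 + 1 / i)⌋) =
        ∑ i ∈ Finset.Ioc M (2 * M), ee ((G : ℝ) * θ0 * (sh f x0 U s i : ℕ)) := by
      rw [mul_sum]
      refine sum_congr rfl fun i hi => ?_
      rw [← h4 i hi, mul_comm]
    have hA : (1 / (M : ℂ)) * (ee (cc * θ0) * ee ((G : ℝ) * θ0 * s)) *
        ∑ i ∈ Finset.Ioc M (2 * M), Pool.Agent.Y933.KD.e (θ * ⌊U * f (x0 + 1 / i)⌋) =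
        (1 / (M : ℂ)) * ee (cc * θ0) * (ee ((G : ℝ) * θ0 * s) *
        ∑ i ∈ Finset.Ioc M (2 * M), Pool.Agent.Y933.KD.e (θ * ⌊U * f (x0 + 1 / i)⌋)) := by ring
    rw [hA, hS, ← sum_sh M (2 ^ m) hpar.sh_lt (fun v => ee ((G : ℝ) * θ0 * (v : ℕ))), mul_sum]
    refine sum_congr rfl fun v _ => ?_
    rw [hpv, nsmul_eq_mul]
    have h4 : ee ((Y v : ℝ) * θ0) = ee (cc * θ0) * ee ((G : ℝ) * θ0 * (v : ℕ)) := by
      rw [← ee_add, hY]
      congr 1
      push_cast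
      ring
    rw [h4]
    push_cast
    ring
  rw [h3, norm_mul, norm_mul, norm_mul, norm_ee, norm_ee, mul_one, mul_one, norm_div, norm_one,
    Complex.norm_natCast]

/-- the large spectrum of the multiples of the values is thin -/
theorem AC_tlaw {f : ℝ → ℝ} {x0 : ℝ} {k0 : ℕ} (hf : Ord f x0 k0) (δ0 ε : ℝ) (hδ0 : 0 < δ0)
    (hε : 0 < ε) (hε2 : ε < 1 / 2) (a : ℕ) (κ : ℤ) (hκ : κ ≠ 0) (H V : ℕ) : ∃ C₀ m₀ : ℕ, ∀ m : ℕ, m₀ ≤ m → ∀ p,
    AC f x0 k0 δ0 ε a m p →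
    ∀ e g : ℕ, 2 ^ e ≤ m ^ H → 1 ≤ g → g ≤ m ^ H → ∀ cc : ℤ, ∀ K, K = m + e →
    TLaw 2 3 C₀ V K (range (2 ^ m)) p (fun v => (g : ℤ) * (cc + κ * (v : ℕ))) := by
  obtain ⟨A, X₀, hX₀⟩ := floor_g hf δ0 ε hδ0 hε hε2 (V + 1)
  obtain ⟨C, hC, hsz⟩ := par_sizes hf δ0 ε hδ0 hε hε2 a
  obtain ⟨m₀, hm₀⟩ := hsz (X₀ + 1) 0
  obtain ⟨m₁, hm₁⟩ := exists_nat_ge (2 * C ^ A + (2 * C) ^ (V + 1) + 1)
  obtain ⟨m₂, hm₂⟩ : ∃ m₂ : ℕ, ∀ m : ℕ, m₂ ≤ m → m ^ H < 2 ^ m := by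
    have h1 := (isLittleO_pow_const_const_pow_of_one_lt (R := ℝ) H (by norm_num : (1 : ℝ) < 2)).bound
      (show (0 : ℝ) < 1 / 2 by norm_num)
    obtain ⟨m₂, h2⟩ := eventually_atTop.mp h1
    refine ⟨m₂, fun m hm => ?_⟩
    have h3 := h2 m hm
    rw [Real.norm_of_nonneg (by positivity), Real.norm_of_nonneg (by positivity)] at h3
    have h4 : (0 : ℝ) < 2 ^ m := by positivity
    have h5 : (m : ℝ) ^ H < 2 ^ m := by linarith
    exact_mod_cast h5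
  obtain ⟨E, hE⟩ : ∃ E, E = H + A + a + 2 := ⟨_, rfl⟩
  refine ⟨2 * E + 1, m₀ + m₁ + m₂ + κ.natAbs + 15, fun m hm p hp e g he hg1 hg2 cc K hK => ?_⟩
  have hsum := AC_sum hp
  have hm15 : 15 ≤ m := by omega
  have hem : e < m := by
    by_contra hcon
    push Not at hcon
    have h1 : 2 ^ m ≤ 2 ^ e := Nat.pow_le_pow_right (by norm_num) hcon
    have h2 := hm₂ m (by omega)
    omega
  have hK2 : K ≤ 2 * m := by omega
  obtain ⟨M, U, s, hpar, hpv⟩ := id hp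
  obtain ⟨hxX, -, hs1, hs2⟩ := hm₀ m (by omega) M U s hpar
  have hm1 : (1 : ℝ) ≤ m := by exact_mod_cast (by omega : 1 ≤ m)
  have hm0 : (0 : ℝ) < m := by linarith
  have hK1 : (1 : ℝ) ≤ K := by exact_mod_cast (by omega : 1 ≤ K)
  have hK2r : (K : ℝ) ≤ 2 * m := by exact_mod_cast hK2
  have hM0 : (0 : ℝ) < M := by exact_mod_cast hpar.one
  have hU0 : 0 < U := lt_of_lt_of_le (by positivity) hpar.rg.lo
  have hC0 : 0 < C := by linarith
  have hlU0 : 0 < log U := by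
    by_contra hcon
    push Not at hcon
    have : C * log U ≤ 0 := mul_nonpos_of_nonneg_of_nonpos hC0.le hcon
    linarith
  have hMk : 0 < (M : ℝ) ^ k0 := by positivity
  have hm₁' : 2 * C ^ A + (2 * C) ^ (V + 1) + 1 ≤ (m : ℝ) := by
    refine hm₁.trans ?_
    exact_mod_cast (by omega : m₁ ≤ m)
  have hCA : 0 < C ^ A := by positivity
  have hCV : 0 < (2 * C) ^ (V + 1) := by positivity
  obtain ⟨G, hG⟩ : ∃ G : ℤ, G = g * κ := ⟨_, rfl⟩
  have hG0 : G ≠ 0 := by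
    rw [hG]
    exact mul_ne_zero (by exact_mod_cast (by omega : g ≠ 0)) hκ
  obtain ⟨N, hN⟩ : ∃ N : ℕ, N = 2 ^ (K + 1) := ⟨_, rfl⟩
  have hNpos : 0 < N := by rw [hN]; positivity
  have hN0 : (0 : ℝ) < N := by exact_mod_cast hNpos
  -- the elements of the spectrum
  have hspec : ∀ t ∈ Spec 2 V K (range (2 ^ m)) p (fun v => (g : ℤ) * (cc + κ * (v : ℕ))),
      ∃ q : ℤ, |G * t - q * N| ≤ (m ^ E : ℕ) := by
    intro t ht
    unfold Spec at ht
    rw [mem_filter, ← hN] at ht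
    obtain ⟨_, ht⟩ := ht
    by_contra hcon
    push Not at hcon
    obtain ⟨θ0, hθ0⟩ : ∃ θ0, θ0 = (t : ℝ) / (N : ℝ) := ⟨_, rfl⟩
    rw [← hθ0] at ht
    obtain ⟨q0, hq0⟩ : ∃ q0 : ℤ, q0 = round ((G : ℝ) * θ0) := ⟨_, rfl⟩
    obtain ⟨θ, hθ⟩ : ∃ θ : ℝ, θ = (G : ℝ) * θ0 - q0 := ⟨_, rfl⟩
    have hθ2 : |θ| ≤ 1 / 2 := by rw [hθ, hq0]; exact abs_sub_round _
    have hcond : (M : ℝ) ^ k0 * (log U) ^ A ≤ |θ| * U := by
      have h1 : ((m ^ E : ℕ) : ℤ) < |G * t - q0 * N| := hcon q0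
      have h2 : (m : ℝ) ^ E ≤ |(G : ℝ) * t - q0 * N| := by
        have h3 : ((m ^ E : ℕ) : ℝ) ≤ ((|G * t - q0 * N| : ℤ) : ℝ) := by exact_mod_cast h1.le
        rw [Int.cast_abs] at h3
        push_cast at h3
        exact h3
      have h3 : |(G : ℝ) * t - q0 * N| = |θ| * N := by
        rw [hθ, hθ0]
        have : (G : ℝ) * t - q0 * N = ((G : ℝ) * (t / N) - q0) * N := by field_simp
        rw [this, abs_mul, abs_of_pos hN0]
      rw [h3] at h2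
      have h4 : (2 : ℝ) ^ m / (m : ℝ) ^ a * (M : ℝ) ^ k0 ≤ U := by
        have h4 := hpar.size
        have h5 : (2 : ℝ) ^ m / (m : ℝ) ^ a ≤ U / (M : ℝ) ^ k0 := by
          rw [div_le_iff₀ (by positivity)]
          linarith
        rw [le_div_iff₀ hMk] at h5
        exact h5
      have h5 : (m : ℝ) ^ E / N * (2 ^ m / (m : ℝ) ^ a * (M : ℝ) ^ k0) ≤ |θ| * U := by
        apply mul_le_mul _ h4 (by positivity) (abs_nonneg _)
        rw [div_le_iff₀ hN0]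
        exact h2
      refine le_trans ?_ h5
      have h6 : (m : ℝ) ^ E / N * (2 ^ m / (m : ℝ) ^ a * (M : ℝ) ^ k0) =
          (M : ℝ) ^ k0 * ((m : ℝ) ^ (H + A + 2) / (2 * 2 ^ e)) := by
        rw [hN, hE, hK]
        push_cast
        have e1 : (m : ℝ) ^ (H + A + a + 2) = (m : ℝ) ^ (H + A + 2) * (m : ℝ) ^ a := by rw [← pow_add]; congr 1; ring
        have e2 : (2 : ℝ) ^ (m + e + 1) = 2 ^ m * 2 ^ e * 2 := by rw [pow_succ, pow_add]
        rw [e1, e2]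
        field_simp
      rw [h6]
      apply mul_le_mul_of_nonneg_left _ hMk.le
      rw [le_div_iff₀ (by positivity)]
      have h7 : (log U) ^ A ≤ C ^ A * (m : ℝ) ^ A := by
        rw [← mul_pow]
        exact pow_le_pow_left₀ hlU0.le hs1 A
      have h8 : (2 : ℝ) ^ e ≤ (m : ℝ) ^ H := by exact_mod_cast he
      calc (log U) ^ A * (2 * 2 ^ e) ≤ (C ^ A * (m : ℝ) ^ A) * (2 * (m : ℝ) ^ H) := by
            apply mul_le_mul h7 _ (by positivity) (by positivity)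
            exact mul_le_mul_of_nonneg_left h8 (by norm_num)
        _ = (2 * C ^ A) * ((m : ℝ) ^ (H + A)) := by rw [pow_add]; ring
        _ ≤ m * ((m : ℝ) ^ (H + A)) := by
            apply mul_le_mul_of_nonneg_right _ (by positivity)
            linarith
        _ = (m : ℝ) ^ (H + A + 1) := by rw [pow_succ]; ring
        _ ≤ (m : ℝ) ^ (H + A + 2) := pow_le_pow_right₀ hm1 (by omega)
    have hmain := hX₀ M (by omega) U hpar.rg θ hθ2 hcond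
    rw [AC_char hpar p hpv G (g * cc) q0 θ0 _ (fun v => by rw [hG]; ring), ← hθ] at ht
    have h4 : 1 / (M : ℝ) * ‖∑ i ∈ Finset.Ioc M (2 * M), Pool.Agent.Y933.KD.e (θ * ⌊U * f (x0 + 1 / i)⌋)‖ ≤
        1 / (K : ℝ) ^ V := by
      calc 1 / (M : ℝ) * ‖∑ i ∈ Finset.Ioc M (2 * M), Pool.Agent.Y933.KD.e (θ * ⌊U * f (x0 + 1 / i)⌋)‖ ≤
          1 / (M : ℝ) * (M / (log U) ^ (V + 1)) := mul_le_mul_of_nonneg_left hmain (by positivity)
        _ = 1 / (log U) ^ (V + 1) := by field_simp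
        _ ≤ 1 / (K : ℝ) ^ V := by
            apply one_div_le_one_div_of_le (by positivity)
            have h9 : (K : ℝ) / (2 * C) ≤ log U := by
              rw [div_le_iff₀ (by positivity)]
              nlinarith
            have h10 : (2 * C) ^ (V + 1) ≤ (K : ℝ) := by
              have h12 : (m : ℝ) ≤ K := by exact_mod_cast (by omega : m ≤ K)
              linarith
            calc (K : ℝ) ^ V ≤ ((K : ℝ) / (2 * C)) ^ (V + 1) := by
                  rw [div_pow, le_div_iff₀ (by positivity), pow_succ]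
                  exact mul_le_mul_of_nonneg_left h10 (by positivity)
              _ ≤ _ := pow_le_pow_left₀ (by positivity) h9 _
    linarith
  have hlt : ∀ t ∈ Spec 2 V K (range (2 ^ m)) p (fun v => (g : ℤ) * (cc + κ * (v : ℕ))), t < N := by
    intro t ht
    unfold Spec at ht
    rw [mem_filter, mem_range, ← hN] at ht
    exact ht.1
  have hcard := few_near G hG0 N (m ^ E) hNpos _ hlt hspec
  obtain ⟨S, hS⟩ : ∃ S, S = Spec 2 V K (range (2 ^ m)) p (fun v => (g : ℤ) * (cc + κ * (v : ℕ))) := ⟨_, rfl⟩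
  rw [← hS] at hcard hlt
  have hcard2 : S.card ≤ K ^ (2 * E + 1) := by
    have h1 : G.natAbs ≤ m ^ E := by
      rw [hG, Int.natAbs_mul, Int.natAbs_natCast, hE]
      calc g * κ.natAbs ≤ m ^ H * m := Nat.mul_le_mul hg2 (by omega)
        _ = m ^ (H + 1) := by rw [pow_succ]
        _ ≤ m ^ (H + A + a + 2) := Nat.pow_le_pow_right (by omega) (by omega)
    have h2 : 1 ≤ m ^ E := Nat.one_le_pow _ _ (by omega)
    calc S.card ≤ (2 * (G.natAbs + m ^ E) + 1) * (2 * m ^ E + 1) := hcard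
      _ ≤ (5 * m ^ E) * (3 * m ^ E) := Nat.mul_le_mul (by omega) (by omega)
      _ = 15 * (m ^ E * m ^ E) := by ring
      _ ≤ m * (m ^ E * m ^ E) := Nat.mul_le_mul_right _ hm15
      _ = m ^ (2 * E + 1) := by rw [pow_succ, two_mul, pow_add]; ring
      _ ≤ K ^ (2 * E + 1) := Nat.pow_le_pow_left (by omega) _
  refine ⟨fun v _ => AC_nonneg hp v, hsum.le, ?_⟩
  rw [← hS]
  refine ⟨fun t ht => by rw [← hN]; exact hlt t ht, fun i _ => ?_, fun j x _ => ?_, ?_⟩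
  · exact Nat.mul_le_mul (card_image_le.trans hcard2) (Nat.pow_le_pow_right (by norm_num) (Nat.div_le_self _ _))
  · exact Nat.mul_le_mul ((card_filter_le _ _).trans hcard2) (Nat.pow_le_pow_right (by norm_num) (Nat.div_le_self _ _))
  · exact Nat.mul_le_mul hcard2 (Nat.pow_le_pow_right (by norm_num) (by omega))

end Pool.Agent.W2helper30.AN
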