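import Pool.Agent.W2helper30.AN.Bd
import Pool.Agent.W2helper30.AN.Anti

/-!
# From classes of distributions to the values `c₀ + κ ⌊U f(x0 + 1 / m)⌋`
-/

set_option autoImplicit false

namespace Pool.Agent.W2helper30.AN

open Finset Real Filter Topology
open Pool.Agent.N625.DY (Cls ClsV)

open Classical in
/-- from probabilities to numbers -/
lemma count_ac {f : ℝ → ℝ} {x0 : ℝ} {k0 : ℕ} {δ0 ε : ℝ} {a k M : ℕ} {U : ℝ} {s : ℤ}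
    (hpar : Par f x0 k0 δ0 ε a k M U s) (Q : ℕ → Prop) (η : ℝ)
    (h : ∀ p, AC f x0 k0 δ0 ε a k p → ∑ v ∈ range (2 ^ k), (if Q v then 0 else p v) ≤ η) :
    (((Finset.Ioc M (2 * M)).filter (fun i => ¬ Q (sh f x0 U s i))).card : ℝ) ≤ η * M := by
  have hx0 : (0 : ℝ) < M := by exact_mod_cast hpar.one
  have h1 := h (fun v => (((Finset.Ioc M (2 * M)).filter (fun i => sh f x0 U s i = v)).card : ℝ) / M)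
    ⟨M, U, s, hpar, fun v => rfl⟩
  have h2 := AC_sum' M (2 ^ k) hpar.sh_lt
    (fun v => (((Finset.Ioc M (2 * M)).filter (fun i => sh f x0 U s i = v)).card : ℝ) / M)
    (fun v => rfl) (fun v => if Q v then 0 else 1)
  have h3 : ∀ v ∈ range (2 ^ k), (if Q v then 0 else
      (((Finset.Ioc M (2 * M)).filter (fun i => sh f x0 U s i = v)).card : ℝ) / M) =
      (((Finset.Ioc M (2 * M)).filter (fun i => sh f x0 U s i = v)).card : ℝ) / M * (if Q v then 0 else 1) := by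
    intro v _
    split_ifs <;> simp
  rw [sum_congr rfl h3, h2, div_le_iff₀ hx0] at h1
  refine le_trans (le_of_eq ?_) h1
  rw [card_filter]
  push_cast
  refine sum_congr rfl fun n _ => ?_
  by_cases hq : Q (sh f x0 U s n)
  · rw [if_pos hq, if_neg (not_not.2 hq)]
  · rw [if_neg hq, if_pos hq]

open Classical in
/-- **Transfer**, for properties which depend on a further parameter. -/
theorem an_transX {Θ : Type} {f : ℝ → ℝ} {x0 : ℝ} {k0 : ℕ} (hf : Ord f x0 k0) (δ0 ε : ℝ) (hδ0 : 0 < δ0)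
    (hε : 0 < ε) (hε2 : ε < 1 / 2) (a : ℕ) (κ : ℤ) (hκ : κ ≠ 0) (u : ℕ) (Rr : ℕ → Θ → Prop) (G : Θ → ℤ → Prop)
    (h : ∀ C : ℕ → (ℕ → ℝ) → Prop, ClsV 2 κ C → ∃ k₀ : ℕ, ∀ k : ℕ, k₀ ≤ k → ∀ θ, Rr k θ → ∀ p, C k p →
      ∀ c : ℤ, |c| ≤ (2 : ℤ) ^ k →
      ∑ v ∈ range (2 ^ k), (if G θ (c + κ * (v : ℕ)) then 0 else p v) ≤ 1 / (k : ℝ) ^ u) :
    ∃ CC : ℝ, 1 ≤ CC ∧ ∀ k₁ : ℕ, ∃ M₀ : ℕ, ∀ M : ℕ, M₀ ≤ M → ∀ U : ℝ, Rg k0 δ0 ε M U →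
      ∃ k : ℕ, k₁ ≤ k ∧ Real.log U ≤ CC * k ∧ (k : ℝ) ≤ CC * Real.log U ∧
      U / (M : ℝ) ^ k0 * Real.log U ^ a ≤ 2 ^ k ∧ (2 : ℝ) ^ k ≤ U / (M : ℝ) ^ k0 * Real.log U ^ (a + 2) ∧
      ∀ θ, Rr k θ → ∀ c₀ : ℤ, |(c₀ : ℝ) + κ * (U * f x0)| ≤ U / (M : ℝ) ^ k0 * Real.log U ^ a →
        AlmostA f x0 U M κ c₀ (1 / (k : ℝ) ^ u) (G θ) := by
  obtain ⟨k₀, h0⟩ := h _ (AC_clsV hf δ0 ε hδ0 hε hε2 (a + 3) κ hκ)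
  obtain ⟨CC, hCC, hd⟩ := dig_f hf δ0 ε hδ0 a κ
  refine ⟨CC, hCC, fun k₁ => ?_⟩
  obtain ⟨M₀, hM₀⟩ := hd (k₀ + k₁)
  refine ⟨M₀, fun M hM U hU => ?_⟩
  obtain ⟨k, s, hk, g1, g2, g3, g4, hpar, hc⟩ := hM₀ M hM U hU
  refine ⟨k, by omega, g1, g2, g3, g4, fun θ hθ c₀ hc₀ => ?_⟩
  have h1 := count_ac hpar (fun v => G θ ((c₀ - κ * s) + κ * (v : ℕ))) (1 / (k : ℝ) ^ u)
    (fun p hp => h0 k (by omega) θ hθ p hp (c₀ - κ * s) (hc c₀ hc₀))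
  unfold AlmostA
  refine le_trans (Nat.cast_le.2 (card_le_card fun i hi => ?_)) h1
  rw [mem_filter] at hi ⊢
  refine ⟨hi.1, ?_⟩
  have e1 : c₀ + κ * vl f x0 U i = (c₀ - κ * s) + κ * ((sh f x0 U s i : ℕ) : ℤ) := by
    rw [hpar.sh_eq i hi.1]
    ring
  rw [← e1]
  exact hi.2

open Classical in
/-- **Transfer.** A property which holds for almost all the values of all classes holds for almost all the values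
`c₀ + κ ⌊U f(x0 + 1 / m)⌋`. -/
theorem an_trans {f : ℝ → ℝ} {x0 : ℝ} {k0 : ℕ} (hf : Ord f x0 k0) (δ0 ε : ℝ) (hδ0 : 0 < δ0)
    (hε : 0 < ε) (hε2 : ε < 1 / 2) (a : ℕ) (κ : ℤ) (hκ : κ ≠ 0) (u : ℕ) (G : ℕ → ℤ → Prop)
    (h : ∀ C : ℕ → (ℕ → ℝ) → Prop, ClsV 2 κ C → ∃ k₀ : ℕ, ∀ k : ℕ, k₀ ≤ k → ∀ p, C k p →
      ∀ c : ℤ, |c| ≤ (2 : ℤ) ^ k →
      ∑ v ∈ range (2 ^ k), (if G k (c + κ * (v : ℕ)) then 0 else p v) ≤ 1 / (k : ℝ) ^ u) :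
    ∃ CC : ℝ, 1 ≤ CC ∧ ∀ k₁ : ℕ, ∃ M₀ : ℕ, ∀ M : ℕ, M₀ ≤ M → ∀ U : ℝ, Rg k0 δ0 ε M U →
      ∃ k : ℕ, k₁ ≤ k ∧ Real.log U ≤ CC * k ∧ (k : ℝ) ≤ CC * Real.log U ∧
      U / (M : ℝ) ^ k0 * Real.log U ^ a ≤ 2 ^ k ∧ (2 : ℝ) ^ k ≤ U / (M : ℝ) ^ k0 * Real.log U ^ (a + 2) ∧
      ∀ c₀ : ℤ, |(c₀ : ℝ) + κ * (U * f x0)| ≤ U / (M : ℝ) ^ k0 * Real.log U ^ a →
        AlmostA f x0 U M κ c₀ (1 / (k : ℝ) ^ u) (G k) := by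
  obtain ⟨CC, hCC, H⟩ := an_transX (Θ := ℕ) hf δ0 ε hδ0 hε hε2 a κ hκ u (fun k θ => k = θ) G (fun C hC => by
    obtain ⟨k₀, h1⟩ := h C hC
    exact ⟨k₀, fun k hk θ hθ => hθ ▸ h1 k hk⟩)
  refine ⟨CC, hCC, fun k₁ => ?_⟩
  obtain ⟨M₀, hM₀⟩ := H k₁
  refine ⟨M₀, fun M hM U hU => ?_⟩
  obtain ⟨k, hk, g1, g2, g3, g4, g5⟩ := hM₀ M hM U hU
  exact ⟨k, hk, g1, g2, g3, g4, g5 k rfl⟩

end Pool.Agent.W2helper30.AN
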