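import Pool.Agent.W2helper30.AN.Tl
import Pool.Agent.W2helper30.AN.Pairs

/-!
# The digits and the neighbours of the values `c₀ + κ ⌊U f(x0 + 1 / m)⌋` at a given scale
-/

set_option autoImplicit false

namespace Pool.Agent.W2helper30.AN

open Finset Real Filter Topology
open Pool.Agent.W2helper30.PN (ev_loge ev_logpow)

/-- the number of digits at a given scale -/
lemma dig_n {f : ℝ → ℝ} {x0 : ℝ} {k0 : ℕ} (hf : Ord f x0 k0) (δ0 ε : ℝ) (hδ0 : 0 < δ0) (r B : ℕ) (κ : ℤ) :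
    ∃ (CC : ℝ) (D : ℕ), 1 ≤ CC ∧ 1 ≤ D ∧ ∀ k₀ : ℕ, ∃ M₀ : ℕ, ∀ M : ℕ, M₀ ≤ M → ∀ U : ℝ, Rg k0 δ0 ε M U →
      ∀ N : ℕ, U / (M : ℝ) ^ k0 ≤ B * N → (N : ℝ) ≤ U / (M : ℝ) ^ k0 * Real.log U ^ r →
      ∃ (k : ℕ) (s : ℤ), k₀ ≤ k ∧ Real.log U ≤ CC * k ∧ (k : ℝ) ≤ CC * Real.log U ∧ D * N < 2 ^ k ∧
      2 ^ k ≤ 2 * (D * N) ∧ Par f x0 k0 δ0 ε (r + 2) k M U s ∧
      ∀ c₀ : ℤ, |(c₀ : ℝ) + κ * (U * f x0)| ≤ B * N → |c₀ - κ * s| ≤ (2 : ℤ) ^ k := by
  have hk0 := hf.2.1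
  obtain ⟨b, hb, N1, hN1, hbd⟩ := bnd_f hf
  obtain ⟨q, hq⟩ : ∃ q : ℝ, q = ((k0 : ℝ) + δ0) / δ0 := ⟨_, rfl⟩
  have hq0 : 0 < q := by rw [hq]; positivity
  obtain ⟨CC, hCC⟩ : ∃ CC : ℝ, CC = q + 3 := ⟨_, rfl⟩
  have hCC1 : 1 ≤ CC := by rw [hCC]; linarith
  obtain ⟨D, hDr⟩ := exists_nat_ge (2 * b * B + 3 + B + |(κ : ℝ)| * (b * B + 3) + 1)
  have hκ0 : 0 ≤ |(κ : ℝ)| := abs_nonneg _
  have hB0 : (0 : ℝ) ≤ B := Nat.cast_nonneg _
  have hbB : 0 ≤ b * B := by positivity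
  have hκb : 0 ≤ |(κ : ℝ)| * (b * B + 3) := by positivity
  have hD1r : (1 : ℝ) ≤ D := by linarith
  have hD1 : 1 ≤ D := by exact_mod_cast hD1r
  refine ⟨CC, D, hCC1, hD1, fun k₀ => ?_⟩
  obtain ⟨x1, hx1⟩ := eventually_atTop.1 (exp_dom 1 (r + 2 : ℝ) (1 / 10) (by norm_num) 1 one_pos)
  obtain ⟨M1, hM1⟩ := eventually_atTop.1 (ev_loge (max (max x1 (CC * (k₀ + CC ^ (r + 2) + 1))) (2 * D + 8)))
  refine ⟨M1 + N1 + 1, fun M hM U hU N hNlo hNhi => ?_⟩
  have hev := hM1 M (by omega)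
  have hMR : (1 : ℝ) ≤ M := by exact_mod_cast (by omega : 1 ≤ M)
  have hM0 : (0 : ℝ) < M := by linarith
  have hU0 : 0 < U := lt_of_lt_of_le (by positivity) hU.lo
  have hlU := hU.log_le hk0 hδ0 (by omega)
  obtain ⟨hR1, hlR⟩ := hU.log_R hk0 hδ0 (by omega)
  obtain ⟨L, hL⟩ : ∃ L : ℝ, L = Real.log U := ⟨_, rfl⟩
  rw [← hL] at hlU hNhi hlR ⊢
  have g1 : x1 ≤ L := (le_trans (le_max_left _ _) (le_max_left _ _)).trans (hev.trans hlU)
  have g2 : CC * (k₀ + CC ^ (r + 2) + 1) ≤ L :=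
    (le_trans (le_max_right _ _) (le_max_left _ _)).trans (hev.trans hlU)
  have g3 : 2 * (D : ℝ) + 8 ≤ L := (le_max_right _ _).trans (hev.trans hlU)
  have hL8 : 8 ≤ L := by linarith
  have hL0 : 0 < L := by linarith
  have hMk : 0 < (M : ℝ) ^ k0 := by positivity
  obtain ⟨R, hR⟩ : ∃ R : ℝ, R = U / (M : ℝ) ^ k0 := ⟨_, rfl⟩
  rw [← hR] at hR1 hNlo hNhi hlR
  rw [← hq] at hlR
  have hUR : U = R * (M : ℝ) ^ k0 := by rw [hR]; field_simp
  have hR0 : 0 < R := by linarith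
  have hLa : ∀ j : ℕ, 1 ≤ L ^ j := fun j => one_le_pow₀ (by linarith)
  have hN0 : N ≠ 0 := by
    rintro h
    rw [h, Nat.cast_zero, mul_zero] at hNlo
    linarith
  have hNr1 : (1 : ℝ) ≤ N := by exact_mod_cast (by omega : 1 ≤ N)
  have hDN0 : D * N ≠ 0 := Nat.mul_ne_zero (by omega) hN0
  obtain ⟨k, hk⟩ : ∃ k : ℕ, k = Nat.log 2 (D * N) + 1 := ⟨_, rfl⟩
  have hk1 : D * N < 2 ^ k := by rw [hk]; exact Nat.lt_pow_succ_log_self (by norm_num) _
  have hk2 : 2 ^ k ≤ 2 * (D * N) := by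
    rw [hk, pow_succ]
    have := Nat.pow_log_le_self 2 hDN0
    omega
  have hk1R : (D : ℝ) * N < 2 ^ k := by exact_mod_cast hk1
  have hk2R : (2 : ℝ) ^ k ≤ 2 * (D * N) := by exact_mod_cast hk2
  have hup : (2 : ℝ) ^ k ≤ R * L ^ (r + 1) := by
    calc (2 : ℝ) ^ k ≤ 2 * (D * N) := hk2R
      _ = (2 * D) * N := by ring
      _ ≤ L * (R * L ^ r) := by
          apply mul_le_mul _ hNhi (by positivity) hL0.le
          linarith
      _ = R * L ^ (r + 1) := by rw [pow_succ _ r]; ring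
  have hRk : R ≤ 2 ^ k := by
    refine le_trans ?_ hk1R.le
    refine hNlo.trans (mul_le_mul_of_nonneg_right ?_ (by linarith))
    linarith
  have hLk : L ≤ CC * k := by
    have h1 : Real.log R ≤ k := by
      have h2 : Real.log R ≤ Real.log (2 ^ k) := Real.log_le_log hR0 hRk
      rw [Real.log_pow] at h2
      have hk0' : (0 : ℝ) ≤ k := Nat.cast_nonneg _
      nlinarith [Real.log_two_lt_d9]
    have hk0' : (0 : ℝ) ≤ k := Nat.cast_nonneg _
    calc L ≤ q * Real.log R := hlR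
      _ ≤ q * k := mul_le_mul_of_nonneg_left h1 hq0.le
      _ ≤ CC * k := by
          rw [hCC]
          nlinarith
  have hkL : (k : ℝ) ≤ CC * L := by
    have h1 : (2 : ℝ) ^ k ≤ U * L ^ (r + 2) := by
      refine hup.trans ?_
      have e1 : L ^ (r + 1) ≤ L ^ (r + 2) := pow_le_pow_right₀ (by linarith) (by omega)
      apply mul_le_mul _ e1 (by positivity) hU0.le
      rw [hUR]
      exact le_mul_of_one_le_right hR0.le (one_le_pow₀ hMR)
    have h2 := hx1 L g1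
    rw [one_mul, Real.rpow_one] at h2
    have h3 : L ^ (r + 2 : ℝ) = L ^ (r + 2) := by
      have : (r + 2 : ℝ) = ((r + 2 : ℕ) : ℝ) := by push_cast; ring
      rw [this, Real.rpow_natCast]
    rw [h3] at h2
    have h4 : (2 : ℝ) ^ k ≤ Real.exp (L + 1 / 10 * L) := by
      rw [Real.exp_add]
      have h5 : U = Real.exp L := by rw [hL, Real.exp_log hU0]
      rw [← h5]
      exact h1.trans (mul_le_mul_of_nonneg_left h2 hU0.le)
    have h5 := Real.log_le_log (by positivity) h4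
    rw [Real.log_pow, Real.log_exp] at h5
    have h6 : (k : ℝ) ≤ 3 * L := by nlinarith [Real.log_two_gt_d9]
    rw [hCC]
    nlinarith
  have hkk : (k₀ : ℝ) + CC ^ (r + 2) + 1 ≤ k := by
    have h1 : CC * (k₀ + CC ^ (r + 2) + 1) ≤ CC * k := g2.trans hLk
    exact le_of_mul_le_mul_left h1 (by linarith)
  have hCCa : 0 < CC ^ (r + 2) := by positivity
  have hbR : b * R ≤ b * B * N := by
    calc b * R ≤ b * (B * N) := mul_le_mul_of_nonneg_left hNlo hb.le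
      _ = b * B * N := by ring
  obtain ⟨s, hs⟩ : ∃ s : ℤ, s = -⌊U * f x0⌋ + (⌈b * R⌉ + 1) := ⟨_, rfl⟩
  have c1 := Int.le_ceil (b * R)
  have c2 := Int.ceil_lt_add_one (b * R)
  have c3 := Int.floor_le (U * f x0)
  have c4 := Int.lt_floor_add_one (U * f x0)
  refine ⟨k, s, ?_, hLk, hkL, hk1, hk2, ⟨by omega, hU, ?_, ?_⟩, ?_⟩
  · have : (k₀ : ℝ) ≤ k := by linarith
    exact_mod_cast this
  · intro i hi
    rw [mem_Ioc] at hi
    have h1 := hbd M (by omega) i hi.1 hi.2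
    have h2 : |U * f (x0 + 1 / i) - U * f x0| ≤ b * R := by
      rw [← mul_sub, abs_mul, abs_of_pos hU0]
      calc U * |f (x0 + 1 / i) - f x0| ≤ U * (b / (M : ℝ) ^ k0) := mul_le_mul_of_nonneg_left h1 hU0.le
        _ = b * R := by rw [hR]; ring
    rw [abs_le] at h2
    have e1 := Int.floor_le (U * f (x0 + 1 / i))
    have e2 := Int.lt_floor_add_one (U * f (x0 + 1 / i))
    have e3 : ((vl f x0 U i + s : ℤ) : ℝ) = (⌊U * f (x0 + 1 / i)⌋ : ℤ) - (⌊U * f x0⌋ : ℤ) + ((⌈b * R⌉ : ℤ) + 1) := by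
      rw [hs]
      unfold vl
      push_cast
      ring
    constructor
    · have h3 : (0 : ℝ) ≤ ((vl f x0 U i + s : ℤ) : ℝ) := by
        rw [e3]
        linarith [h2.1]
      exact_mod_cast h3
    · have h3 : ((vl f x0 U i + s : ℤ) : ℝ) < 2 ^ k := by
        rw [e3]
        have h4 : 2 * (b * R) + 3 ≤ D * N := by
          calc 2 * (b * R) + 3 ≤ 2 * (b * B * N) + 3 * N := by linarith
            _ = (2 * b * B + 3) * N := by ring
            _ ≤ D * N := mul_le_mul_of_nonneg_right (by linarith) (by linarith)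
        linarith [h2.2]
      exact_mod_cast h3
  · rw [← hR]
    have hkpos : (0 : ℝ) < k := by
      have : (0 : ℝ) ≤ k₀ := Nat.cast_nonneg _
      linarith
    calc (2 : ℝ) ^ k ≤ R * L ^ (r + 1) := hup
      _ ≤ R * (CC * k) ^ (r + 1) := by gcongr
      _ = CC ^ (r + 1) * ((k : ℝ) ^ (r + 1) * R) := by rw [mul_pow]; ring
      _ ≤ k * ((k : ℝ) ^ (r + 1) * R) := by
          apply mul_le_mul_of_nonneg_right _ (by positivity)
          have : CC ^ (r + 1) ≤ CC ^ (r + 2) := pow_le_pow_right₀ hCC1 (by omega)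
          have : (0 : ℝ) ≤ k₀ := Nat.cast_nonneg _
          linarith
      _ = (k : ℝ) ^ (r + 2) * R := by rw [pow_succ _ (r + 1)]; ring
  · intro c₀ hc₀
    have h1 : |((c₀ - κ * s : ℤ) : ℝ)| ≤ 2 ^ k := by
      have e1 : ((c₀ - κ * s : ℤ) : ℝ) = (c₀ + κ * (U * f x0)) + κ * (((⌊U * f x0⌋ : ℤ) : ℝ) - U * f x0 -
          ((⌈b * R⌉ : ℤ) + 1)) := by
        rw [hs]
        push_cast
        ring
      have h2 : |((⌊U * f x0⌋ : ℤ) : ℝ) - U * f x0 - ((⌈b * R⌉ : ℤ) + 1)| ≤ b * R + 3 := by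
        rw [abs_le]
        constructor <;> linarith [mul_pos hb hR0]
      rw [e1]
      calc |(c₀ + κ * (U * f x0)) + κ * (((⌊U * f x0⌋ : ℤ) : ℝ) - U * f x0 - ((⌈b * R⌉ : ℤ) + 1))| ≤
            |(c₀ + κ * (U * f x0))| + |κ * (((⌊U * f x0⌋ : ℤ) : ℝ) - U * f x0 - ((⌈b * R⌉ : ℤ) + 1))| :=
            abs_add_le _ _
        _ ≤ B * N + |(κ : ℝ)| * (b * R + 3) := by
            apply add_le_add hc₀
            rw [abs_mul]
            exact mul_le_mul_of_nonneg_left h2 (abs_nonneg _)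
        _ ≤ B * N + |(κ : ℝ)| * ((b * B + 3) * N) := by
            apply add_le_add le_rfl
            apply mul_le_mul_of_nonneg_left _ (abs_nonneg _)
            linarith
        _ = (B + |(κ : ℝ)| * (b * B + 3)) * N := by ring
        _ ≤ D * N := mul_le_mul_of_nonneg_right (by linarith) (by linarith)
        _ ≤ 2 ^ k := hk1R.le
    exact_mod_cast h1

open Classical in
/-- from the values to all the integers near the values -/
lemma near_an {f : ℝ → ℝ} {x0 U : ℝ} {M : ℕ} {κ c₀ : ℤ} (N W u : ℕ) (L : ℝ) (hL : 3 ≤ L) (hW : L ^ W ≤ N)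
    (R : ℤ → Prop) (h : ∀ t : ℤ, |t| ≤ N → AlmostA f x0 U M κ (c₀ + t) (1 / L ^ (u + W + 1)) R) :
    AlmostA f x0 U M κ c₀ (1 / L ^ u) (fun n => ∀ m : ℤ, |(m : ℝ) - n| ≤ L ^ W → R m) := by
  obtain ⟨T, hT⟩ : ∃ T : ℕ, T = ⌊L ^ W⌋₊ := ⟨_, rfl⟩
  have hL0 : 0 < L := by linarith
  have hpW : 1 ≤ L ^ W := one_le_pow₀ (by linarith)
  have hTr : (T : ℝ) ≤ L ^ W := by
    rw [hT]
    exact Nat.floor_le (by positivity)
  have hTN : T ≤ N := by
    have : (T : ℝ) ≤ N := hTr.trans hW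
    exact_mod_cast this
  unfold AlmostA at h ⊢
  have hsub : (Finset.Ioc M (2 * M)).filter (fun n => ¬ ∀ m : ℤ, |(m : ℝ) - ((c₀ + κ * vl f x0 U n : ℤ) : ℝ)| ≤ L ^ W → R m) ⊆
      (Finset.Icc (-(T : ℤ)) T).biUnion fun t => (Finset.Ioc M (2 * M)).filter (fun n => ¬ R (c₀ + t + κ * vl f x0 U n)) := by
    intro n hn
    rw [mem_filter] at hn
    obtain ⟨hn1, hn2⟩ := hn
    push Not at hn2
    obtain ⟨m, hm1, hm2⟩ := hn2
    rw [mem_biUnion]
    refine ⟨m - (c₀ + κ * vl f x0 U n), ?_, ?_⟩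
    · rw [mem_Icc, ← abs_le]
      have h1 : (((m - (c₀ + κ * vl f x0 U n)).natAbs : ℕ) : ℝ) ≤ L ^ W := by
        rw [Nat.cast_natAbs]
        push_cast at hm1 ⊢
        exact hm1
      have h2 : (m - (c₀ + κ * vl f x0 U n)).natAbs ≤ T := by
        rw [hT]
        exact Nat.le_floor h1
      rw [Int.abs_eq_natAbs]
      exact_mod_cast h2
    · rw [mem_filter]
      refine ⟨hn1, ?_⟩
      rw [show c₀ + (m - (c₀ + κ * vl f x0 U n)) + κ * vl f x0 U n = m by ring]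
      exact hm2
  have hcard := (card_le_card hsub).trans card_biUnion_le
  have hcard' : (((Finset.Ioc M (2 * M)).filter (fun n => ¬ ∀ m : ℤ, |(m : ℝ) - ((c₀ + κ * vl f x0 U n : ℤ) : ℝ)| ≤ L ^ W → R m)).card : ℝ) ≤
      ∑ t ∈ Finset.Icc (-(T : ℤ)) T, (((Finset.Ioc M (2 * M)).filter (fun n => ¬ R (c₀ + t + κ * vl f x0 U n))).card : ℝ) := by
    exact_mod_cast hcard
  refine hcard'.trans ?_
  calc ∑ t ∈ Finset.Icc (-(T : ℤ)) T, (((Finset.Ioc M (2 * M)).filter (fun n => ¬ R (c₀ + t + κ * vl f x0 U n))).card : ℝ)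
      ≤ ∑ _t ∈ Finset.Icc (-(T : ℤ)) T, (1 / L ^ (u + W + 1) * M : ℝ) := by
        apply sum_le_sum
        intro t ht
        rw [mem_Icc, ← abs_le] at ht
        exact h t (ht.trans (by exact_mod_cast hTN))
    _ = (2 * T + 1 : ℝ) * (1 / L ^ (u + W + 1) * M) := by
        rw [sum_const, Int.card_Icc, nsmul_eq_mul]
        congr 1
        have : ((T : ℤ) + 1 - -(T : ℤ)).toNat = 2 * T + 1 := by omega
        rw [this]
        push_cast
        ring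
    _ ≤ (3 * L ^ W) * (1 / L ^ (u + W + 1) * M) := by
        apply mul_le_mul_of_nonneg_right _ (by positivity)
        linarith
    _ ≤ (L * L ^ W) * (1 / L ^ (u + W + 1) * M) := by
        apply mul_le_mul_of_nonneg_right _ (by positivity)
        exact mul_le_mul_of_nonneg_right hL (by positivity)
    _ = 1 / L ^ u * M := by
        rw [pow_add, pow_add, pow_one]
        field_simp

end Pool.Agent.W2helper30.AN
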